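import Mathlib

/-!
# Density Carlson-Simpson theorem over the natural numbers: means

Words over `κ` letters are lists of natural numbers smaller than `κ`. The only probability which
is used is a positive normalised linear functional (`IsMean`).
-/

namespace Pool.Agent.OVW.BN

open Finset

/-- `μ` is a mean, supported on `S`. -/
structure IsMean {Ω : Type*} (S : Set Ω) (μ : (Ω → ℝ) → ℝ) : Prop where
  add : ∀ f g : Ω → ℝ, μ (fun ω => f ω + g ω) = μ f + μ g
  smul : ∀ (c : ℝ) (f : Ω → ℝ), μ (fun ω => c * f ω) = c * μ f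
  one : μ (fun _ => 1) = 1
  ex : ∀ f : Ω → ℝ, ∃ ω ∈ S, μ f ≤ f ω

namespace IsMean

variable {Ω Ω' : Type*} {S : Set Ω} {T : Set Ω'} {μ : (Ω → ℝ) → ℝ}

lemma const (h : IsMean S μ) (c : ℝ) : μ (fun _ => c) = c := by
  have := h.smul c (fun _ => 1)
  simpa [h.one] using this

lemma neg (h : IsMean S μ) (f : Ω → ℝ) : μ (fun ω => - f ω) = - μ f := by
  have := h.smul (-1) f
  simpa using this

lemma sub (h : IsMean S μ) (f g : Ω → ℝ) : μ (fun ω => f ω - g ω) = μ f - μ g := by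
  have := h.add f (fun ω => - g ω)
  rw [h.neg] at this
  simpa [sub_eq_add_neg] using this

lemma mono (h : IsMean S μ) {f g : Ω → ℝ} (hfg : ∀ ω ∈ S, f ω ≤ g ω) : μ f ≤ μ g := by
  obtain ⟨ω, hω, h1⟩ := h.ex (fun ω => f ω - g ω)
  rw [h.sub] at h1
  linarith [hfg ω hω]

lemma congr (h : IsMean S μ) {f g : Ω → ℝ} (hfg : ∀ ω ∈ S, f ω = g ω) : μ f = μ g :=
  le_antisymm (h.mono fun ω hω => (hfg ω hω).le) (h.mono fun ω hω => (hfg ω hω).ge)

lemma mul_const (h : IsMean S μ) (f : Ω → ℝ) (c : ℝ) : μ (fun ω => f ω * c) = μ f * c := by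
  rw [mul_comm, ← h.smul]
  congr 1
  funext ω
  ring

lemma sub_const (h : IsMean S μ) (f : Ω → ℝ) (c : ℝ) : μ (fun ω => f ω - c) = μ f - c := by
  rw [h.sub, h.const]

lemma add_const (h : IsMean S μ) (f : Ω → ℝ) (c : ℝ) : μ (fun ω => f ω + c) = μ f + c := by
  rw [h.add, h.const]

lemma nonneg (h : IsMean S μ) {f : Ω → ℝ} (hf : ∀ ω ∈ S, 0 ≤ f ω) : 0 ≤ μ f := by
  have := h.mono (f := fun _ => 0) (g := f) hf
  rwa [h.const] at this

lemma le_of (h : IsMean S μ) {f : Ω → ℝ} {c : ℝ} (hf : ∀ ω ∈ S, f ω ≤ c) : μ f ≤ c := by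
  have := h.mono (f := f) (g := fun _ => c) hf
  rwa [h.const] at this

lemma ge_of (h : IsMean S μ) {f : Ω → ℝ} {c : ℝ} (hf : ∀ ω ∈ S, c ≤ f ω) : c ≤ μ f := by
  have := h.mono (f := fun _ => c) (g := f) hf
  rwa [h.const] at this

lemma ex_ge (h : IsMean S μ) {f : Ω → ℝ} {c : ℝ} (hc : c ≤ μ f) : ∃ ω ∈ S, c ≤ f ω := by
  obtain ⟨ω, hω, h1⟩ := h.ex f
  exact ⟨ω, hω, hc.trans h1⟩

lemma sum (h : IsMean S μ) {ι : Type*} (s : Finset ι) (F : ι → Ω → ℝ) :
    μ (fun ω => ∑ i ∈ s, F i ω) = ∑ i ∈ s, μ (F i) := by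
  classical
  induction s using Finset.induction_on with
  | empty => simpa using h.const 0
  | insert a s ha ih =>
    simp only [Finset.sum_insert ha]
    rw [h.add, ih]

lemma map (h : IsMean S μ) (g : Ω → Ω') (hg : ∀ ω ∈ S, g ω ∈ T) :
    IsMean T (fun F : Ω' → ℝ => μ (fun ω => F (g ω))) where
  add f f' := h.add _ _
  smul c f := h.smul _ _
  one := h.one
  ex f := by
    obtain ⟨ω, hω, h1⟩ := h.ex (fun ω => f (g ω))
    exact ⟨g ω, hg ω hω, h1⟩

/-- composition of means -/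
lemma bind (h : IsMean S μ) {T : Ω → Set Ω'} {ν : Ω → (Ω' → ℝ) → ℝ}
    (hν : ∀ ω ∈ S, IsMean (T ω) (ν ω)) :
    IsMean {p : Ω × Ω' | p.1 ∈ S ∧ p.2 ∈ T p.1}
      (fun F : Ω × Ω' → ℝ => μ (fun ω => ν ω (fun ω' => F (ω, ω')))) where
  add f f' := by
    rw [← h.add]
    exact h.congr fun ω hω => (hν ω hω).add _ _
  smul c f := by
    rw [← h.smul]
    exact h.congr fun ω hω => (hν ω hω).smul _ _
  one := (h.congr fun ω hω => (hν ω hω).one).trans h.one
  ex f := by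
    obtain ⟨ω, hω, h1⟩ := h.ex (fun ω => ν ω (fun ω' => f (ω, ω')))
    obtain ⟨ω', hω', h2⟩ := (hν ω hω).ex (fun ω' => f (ω, ω'))
    exact ⟨(ω, ω'), ⟨hω, hω'⟩, h1.trans h2⟩

/-- composition of means, image of the pair -/
lemma bind' (h : IsMean S μ) {Ω'' : Type*} {U : Set Ω''} {T : Ω → Set Ω'} {ν : Ω → (Ω' → ℝ) → ℝ}
    (hν : ∀ ω ∈ S, IsMean (T ω) (ν ω)) (g : Ω → Ω' → Ω'')
    (hg : ∀ ω ∈ S, ∀ ω' ∈ T ω, g ω ω' ∈ U) :
    IsMean U (fun F : Ω'' → ℝ => μ (fun ω => ν ω (fun ω' => F (g ω ω')))) :=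
  (h.bind hν).map (fun p => g p.1 p.2) (fun p hp => hg p.1 hp.1 p.2 hp.2)

end IsMean

/-- the indicator of a proposition -/
noncomputable def ind (p : Prop) : ℝ := by classical exact if p then 1 else 0

lemma ind_true {p : Prop} (h : p) : ind p = 1 := by simp [ind, h]

lemma ind_false {p : Prop} (h : ¬ p) : ind p = 0 := by simp [ind, h]

lemma ind_nonneg (p : Prop) : 0 ≤ ind p := by
  by_cases h : p <;> simp [ind, h]

lemma ind_le_one (p : Prop) : ind p ≤ 1 := by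
  by_cases h : p <;> simp [ind, h]

lemma ind_mono {p q : Prop} (h : p → q) : ind p ≤ ind q := by
  by_cases hp : p
  · simp [ind, hp, h hp]
  · rw [ind_false hp]; exact ind_nonneg q

lemma ind_congr {p q : Prop} (h : p ↔ q) : ind p = ind q := by
  rw [propext h]

lemma ind_and (p q : Prop) : ind (p ∧ q) = ind p * ind q := by
  by_cases hp : p <;> by_cases hq : q <;> simp [ind, hp, hq]

lemma ind_not (p : Prop) : ind (¬ p) = 1 - ind p := by
  by_cases hp : p <;> simp [ind, hp]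

lemma ind_eq_zero_or_one (p : Prop) : ind p = 0 ∨ ind p = 1 := by
  by_cases hp : p <;> simp [ind, hp]

lemma of_ind_pos {p : Prop} (h : 0 < ind p) : p := by
  by_contra hp
  rw [ind_false hp] at h
  exact lt_irrefl _ h

/-- Markov: a mean at least `c + d` of a function bounded by `1` -/
lemma IsMean.markov {Ω : Type*} {S : Set Ω} {μ : (Ω → ℝ) → ℝ} (h : IsMean S μ) {f : Ω → ℝ}
    {c d : ℝ} (hd : 0 ≤ d) (hf : ∀ ω ∈ S, f ω ≤ 1) (hc : c + d ≤ μ f) :
    c ≤ μ (fun ω => ind (d ≤ f ω)) := by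
  have h1 : μ f ≤ μ (fun ω => ind (d ≤ f ω) + d) := by
    refine h.mono fun ω hω => ?_
    by_cases hx : d ≤ f ω
    · rw [ind_true hx]; linarith [hf ω hω]
    · rw [ind_false hx]; linarith [not_le.1 hx]
  rw [h.add, h.const] at h1
  linarith

/-- the average over `i < n` -/
noncomputable def av (n : ℕ) (f : ℕ → ℝ) : ℝ := (∑ i ∈ range n, f i) / n

lemma isMean_av {n : ℕ} (hn : 0 < n) : IsMean {i | i < n} (av n) where
  add f g := by simp [av, Finset.sum_add_distrib, add_div]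
  smul c f := by simp [av, ← Finset.mul_sum, mul_div_assoc]
  one := by
    have : (n : ℝ) ≠ 0 := by positivity
    simp [av, this]
  ex f := by
    by_contra hcon
    push Not at hcon
    have hn' : (0 : ℝ) < n := by exact_mod_cast hn
    have : ∑ i ∈ range n, f i < ∑ i ∈ range n, av n f := by
      apply Finset.sum_lt_sum_of_nonempty ⟨0, Finset.mem_range.2 hn⟩
      intro i hi
      exact hcon i (Finset.mem_range.1 hi)
    rw [Finset.sum_const, card_range, nsmul_eq_mul, av, mul_div_cancel₀ _ hn'.ne'] at this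
    exact lt_irrefl _ this

/-- a mean commutes with averages -/
lemma IsMean.av_comm {Ω : Type*} {S : Set Ω} {μ : (Ω → ℝ) → ℝ} (h : IsMean S μ) (n : ℕ)
    (F : Ω → ℕ → ℝ) : μ (fun ω => av n (F ω)) = av n (fun i => μ (fun ω => F ω i)) := by
  unfold av
  have := h.mul_const (fun ω => ∑ i ∈ range n, F ω i) ((n : ℝ)⁻¹)
  simp only [div_eq_mul_inv]
  rw [this, h.sum]

/-- The mean over the words of length `l` over `κ` letters. -/
noncomputable def Ex (κ : ℕ) : ℕ → (List ℕ → ℝ) → ℝ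
  | 0, φ => φ []
  | l + 1, φ => av κ (fun c => Ex κ l (fun x => φ (c :: x)))

/-- words of length `l` over `κ` letters -/
def Wd (κ l : ℕ) (x : List ℕ) : Prop := x.length = l ∧ ∀ c ∈ x, c < κ

/-- words of length smaller than `n` -/
def WL (κ n : ℕ) (x : List ℕ) : Prop := x.length < n ∧ ∀ c ∈ x, c < κ

lemma Wd.append {κ l m : ℕ} {x y : List ℕ} (hx : Wd κ l x) (hy : Wd κ m y) :
    Wd κ (l + m) (x ++ y) := by
  refine ⟨by simp [hx.1, hy.1], fun c hc => ?_⟩
  rcases List.mem_append.1 hc with h | h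
  · exact hx.2 c h
  · exact hy.2 c h

lemma Wd.cons {κ l c : ℕ} {x : List ℕ} (hc : c < κ) (hx : Wd κ l x) : Wd κ (l + 1) (c :: x) := by
  refine ⟨by simp [hx.1], fun d hd => ?_⟩
  rcases List.mem_cons.1 hd with h | h
  · exact h ▸ hc
  · exact hx.2 d h

lemma Wd.take {κ l m : ℕ} {x : List ℕ} (hx : Wd κ l x) (hm : m ≤ l) : Wd κ m (x.take m) :=
  ⟨by rw [List.length_take, hx.1, min_eq_left hm], fun c hc => hx.2 c (List.mem_of_mem_take hc)⟩

lemma Wd.drop {κ l m : ℕ} {x : List ℕ} (hx : Wd κ l x) : Wd κ (l - m) (x.drop m) :=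
  ⟨by rw [List.length_drop, hx.1], fun c hc => hx.2 c (List.mem_of_mem_drop hc)⟩

lemma WL.append {κ n l : ℕ} {x y : List ℕ} (hx : Wd κ l x) (hy : WL κ n y) :
    WL κ (l + n) (x ++ y) := by
  refine ⟨by simp [hx.1, hy.1], fun c hc => ?_⟩
  rcases List.mem_append.1 hc with h | h
  · exact hx.2 c h
  · exact hy.2 c h

lemma isMean_Ex {κ : ℕ} (hκ : 0 < κ) (l : ℕ) : IsMean {x | Wd κ l x} (Ex κ l) := by
  induction l with
  | zero =>
    exact ⟨fun f g => rfl, fun c f => rfl, rfl, fun f => ⟨[], ⟨rfl, by simp⟩, le_rfl⟩⟩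
  | succ l ih =>
    have h1 := (isMean_av hκ).bind' (U := {x | Wd κ (l + 1) x}) (T := fun _ => {x | Wd κ l x})
      (ν := fun _ => Ex κ l) (fun _ _ => ih) (fun c x => c :: x)
      (fun c hc x hx => Wd.cons hc hx)
    exact h1

lemma Ex_succ (κ l : ℕ) (φ : List ℕ → ℝ) :
    Ex κ (l + 1) φ = av κ (fun c => Ex κ l (fun x => φ (c :: x))) := rfl

lemma Ex_zero (κ : ℕ) (φ : List ℕ → ℝ) : Ex κ 0 φ = φ [] := rfl

lemma Ex_add (κ l m : ℕ) (φ : List ℕ → ℝ) :
    Ex κ (l + m) φ = Ex κ l (fun x => Ex κ m (fun y => φ (x ++ y))) := by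
  induction l generalizing φ with
  | zero => simp [Ex_zero]
  | succ l ih =>
    rw [show l + 1 + m = (l + m) + 1 by ring, Ex_succ, Ex_succ]
    congr 1
    funext c
    rw [ih]
    rfl

/-- a mean commutes with the mean over words -/
lemma IsMean.Ex_comm {Ω : Type*} {S : Set Ω} {μ : (Ω → ℝ) → ℝ} (h : IsMean S μ) (κ l : ℕ)
    (F : Ω → List ℕ → ℝ) :
    μ (fun ω => Ex κ l (F ω)) = Ex κ l (fun x => μ (fun ω => F ω x)) := by
  induction l generalizing F with
  | zero => rfl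
  | succ l ih =>
    simp only [Ex_succ]
    rw [h.av_comm]
    congr 1
    funext c
    exact ih _

/-- The Furstenberg-Weiss average. -/
noncomputable def FW (κ n : ℕ) (φ : List ℕ → ℝ) : ℝ := av n (fun l => Ex κ l φ)

lemma isMean_FW {κ n : ℕ} (hκ : 0 < κ) (hn : 0 < n) : IsMean {x | WL κ n x} (FW κ n) := by
  have h1 := (isMean_av hn).bind' (U := {x | WL κ n x}) (T := fun l => {x | Wd κ l x})
    (ν := fun l => Ex κ l) (fun l _ => isMean_Ex hκ l) (fun _ x => x)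
    (fun l hl x hx => ⟨by rw [hx.1]; exact hl, hx.2⟩)
  exact h1

lemma IsMean.FW_comm {Ω : Type*} {S : Set Ω} {μ : (Ω → ℝ) → ℝ} (h : IsMean S μ) (κ n : ℕ)
    (F : Ω → List ℕ → ℝ) :
    μ (fun ω => FW κ n (F ω)) = FW κ n (fun x => μ (fun ω => F ω x)) := by
  unfold FW
  rw [h.av_comm]
  congr 1
  funext l
  exact h.Ex_comm κ l F

lemma av_mul (a q : ℕ) (f : ℕ → ℝ) : av (a * q) f = av q (fun j => av a (fun i => f (a * j + i))) := by
  rcases Nat.eq_zero_or_pos a with rfl | ha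
  · simp [av]
  rcases Nat.eq_zero_or_pos q with rfl | hq
  · simp [av]
  unfold av
  rw [← Finset.sum_div, div_div]
  congr 1
  · induction q with
    | zero => simp
    | succ q ih =>
      rcases Nat.eq_zero_or_pos q with rfl | hq'
      · simp
      rw [Finset.sum_range_succ, ← ih hq', Nat.mul_succ, Finset.sum_range_add]
  · push_cast
    ring

/-- splitting (S) -/
lemma FW_mul (κ a q : ℕ) (φ : List ℕ → ℝ) :
    FW κ (a * q) φ = av q (fun j => Ex κ (a * j) (fun t => FW κ a (fun y => φ (t ++ y)))) := by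
  unfold FW
  rw [av_mul]
  congr 1
  funext j
  rcases Nat.eq_zero_or_pos κ with rfl | hκ
  · rcases Nat.eq_zero_or_pos (a * j) with h0 | h0
    · rw [h0]
      simp [Ex_zero]
    · obtain ⟨m, hm⟩ := Nat.exists_eq_succ_of_ne_zero h0.ne'
      simp only [hm, Nat.succ_eq_add_one, show ∀ i, m + 1 + i = (m + i) + 1 from fun i => by ring,
        Ex_succ]
      simp [av]
  · rw [(isMean_Ex hκ (a * j)).av_comm]
    congr 1
    funext i
    exact Ex_add κ (a * j) i φ

/-- the two halves -/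
lemma FW_two (κ n : ℕ) (φ : List ℕ → ℝ) :
    FW κ (n * 2) φ = (FW κ n φ + Ex κ n (fun t => FW κ n (fun y => φ (t ++ y)))) / 2 := by
  rw [FW_mul]
  simp [av, Finset.sum_range_succ, Ex_zero]

end Pool.Agent.OVW.BN
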