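import Pool.Agent.OVW.BN.Small

/-!
# Lemmas 8 and 9: random embeddings
-/

namespace Pool.Agent.OVW.BN

open Finset

lemma getElem?_set_self' {κ N p : ℕ} (hp : p < N) {y : List ℕ} (hy : Wd κ N y) (c : ℕ) :
    (y.set p c)[p]? = some c := by
  rw [List.getElem?_set_self (by rw [hy.1]; exact hp)]

lemma av_ind_eq {κ c : ℕ} (hc : c < κ) (g : ℕ → ℝ) :
    av κ (fun d => ind (some d = some c) * g d) = g c / κ := by
  unfold av
  rw [Finset.sum_eq_single c]
  · rw [ind_true rfl, one_mul]
  · intro d _ hd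
    rw [ind_false (by simpa using hd), zero_mul]
  · intro h
    exact absurd (Finset.mem_range.2 hc) h

lemma Ex_set_ind {κ : ℕ} (hκ : 0 < κ) {N p c : ℕ} (hp : p < N) (hc : c < κ) (g : List ℕ → ℝ) :
    Ex κ N (fun y => g (y.set p c)) = Ex κ N (fun y => κ * ind (y[p]? = some c) * g y) := by
  rw [← Ex_set hκ hp (fun y => κ * ind (y[p]? = some c) * g y)]
  refine (isMean_Ex hκ N).congr fun y hy => ?_
  simp only [getElem?_set_self' hp hy, mul_assoc]
  rw [(isMean_av hκ).smul, av_ind_eq hc (fun d => g (y.set p d))]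
  field_simp

/-- the centred indicator of the letter `c` at the position `p` -/
noncomputable def XX (κ c p : ℕ) (y : List ℕ) : ℝ := κ * ind (y[p]? = some c) - 1

lemma Ex_XX_ne {κ : ℕ} (hκ : 0 < κ) {N p q c : ℕ} (hp : p < N) (hc : c < κ) (hpq : p ≠ q) :
    Ex κ N (fun y => XX κ c p y * XX κ c q y) = 0 := by
  rw [← Ex_set hκ hp (fun y => XX κ c p y * XX κ c q y)]
  rw [← (isMean_Ex hκ N).const 0]
  refine (isMean_Ex hκ N).congr fun y hy => ?_
  unfold XX
  simp only [getElem?_set_self' hp hy, List.getElem?_set_ne hpq]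
  rw [(isMean_av hκ).mul_const, (isMean_av hκ).sub_const, (isMean_av hκ).smul]
  have := av_ind_eq hc (fun _ => 1)
  simp only [mul_one] at this
  rw [this]
  have hκ' : (κ : ℝ) ≠ 0 := by positivity
  field_simp
  ring

lemma Ex_XX_sq {κ : ℕ} (hκ : 0 < κ) {N p c : ℕ} (hp : p < N) (hc : c < κ) :
    Ex κ N (fun y => XX κ c p y * XX κ c p y) = κ - 1 := by
  rw [← Ex_set hκ hp (fun y => XX κ c p y * XX κ c p y)]
  rw [← (isMean_Ex hκ N).const ((κ : ℝ) - 1)]
  refine (isMean_Ex hκ N).congr fun y hy => ?_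
  unfold XX
  simp only [getElem?_set_self' hp hy]
  have h1 : ∀ d : ℕ, (κ * ind (some d = some c) - 1) * (κ * ind (some d = some c) - 1) =
      ind (some d = some c) * ((κ : ℝ) * κ - 2 * κ) + 1 := by
    intro d
    by_cases h : some d = some c
    · rw [ind_true h]; ring
    · rw [ind_false h]; ring
  simp only [h1]
  rw [(isMean_av hκ).add_const, av_ind_eq hc]
  have hκ' : (κ : ℝ) ≠ 0 := by positivity
  field_simp
  ring

/-- second moment -/
lemma Ex_avXX_sq {κ : ℕ} (hκ : 0 < κ) {N s P c : ℕ} (hP : 0 < P) (hs : s + P ≤ N) (hc : c < κ) :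
    Ex κ N (fun y => (av P (fun j => XX κ c (s + j) y)) ^ 2) = (κ - 1) / P := by
  have h1 : ∀ y, (av P (fun j => XX κ c (s + j) y)) ^ 2 =
      (1 / P ^ 2 : ℝ) * ∑ i ∈ range P, ∑ j ∈ range P, XX κ c (s + i) y * XX κ c (s + j) y := by
    intro y
    unfold av
    rw [div_pow, sq (∑ i ∈ range P, _), Finset.sum_mul_sum]
    ring
  simp only [h1]
  rw [(isMean_Ex hκ N).smul, (isMean_Ex hκ N).sum]
  have h2 : ∀ i ∈ range P, Ex κ N (fun y => ∑ j ∈ range P, XX κ c (s + i) y * XX κ c (s + j) y) =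
      κ - 1 := by
    intro i hi
    rw [(isMean_Ex hκ N).sum, Finset.sum_eq_single i]
    · exact Ex_XX_sq hκ (by rw [Finset.mem_range] at hi; omega) hc
    · intro j _ hj
      exact Ex_XX_ne hκ (by rw [Finset.mem_range] at hi; omega) hc (by omega)
    · intro h
      exact absurd hi h
  rw [Finset.sum_congr rfl h2, Finset.sum_const, card_range, nsmul_eq_mul]
  have hP' : (P : ℝ) ≠ 0 := by positivity
  field_simp

/-- Lemma 8 (one letter). -/
lemma one_letter {κ : ℕ} (hκ : 0 < κ) {N s P c : ℕ} {eps : ℝ} (heps : 0 < eps)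
    (hP : κ / eps ^ 2 ≤ P) (hs : s + P ≤ N) (hc : c < κ) {g : List ℕ → ℝ}
    (hg : ∀ y, 0 ≤ g y ∧ g y ≤ 1) :
    |av P (fun j => Ex κ N (fun y => g (y.set (s + j) c))) - Ex κ N g| ≤ eps := by
  have hκ' : (0 : ℝ) < κ := by exact_mod_cast hκ
  have hP0 : (0 : ℝ) < P := lt_of_lt_of_le (by positivity) hP
  have hP1 : 0 < P := by exact_mod_cast hP0
  have h1 : av P (fun j => Ex κ N (fun y => g (y.set (s + j) c))) - Ex κ N g =
      Ex κ N (fun y => g y * av P (fun j => XX κ c (s + j) y)) := by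
    have h2 : ∀ j ∈ {j | j < P}, Ex κ N (fun y => g (y.set (s + j) c)) =
        Ex κ N (fun y => κ * ind (y[s + j]? = some c) * g y) := by
      intro j hj
      have hj' : j < P := hj
      exact Ex_set_ind hκ (by omega) hc g
    rw [(isMean_av hP1).congr h2, ← (isMean_Ex hκ N).av_comm, ← (isMean_Ex hκ N).sub]
    refine (isMean_Ex hκ N).congr fun y _ => ?_
    unfold XX
    rw [(isMean_av hP1).mul_const, (isMean_av hP1).sub_const]
    ring
  rw [h1]
  have h3 : Ex κ N (fun y => ((av P (fun j => XX κ c (s + j) y)) ^ 2 / eps + eps) / 2) ≤ eps := by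
    have h4 : Ex κ N (fun y => ((av P (fun j => XX κ c (s + j) y)) ^ 2 / eps + eps) / 2) =
        ((κ - 1) / P / eps + eps) / 2 := by
      rw [← Ex_avXX_sq hκ hP1 hs hc]
      simp only [div_eq_mul_inv]
      rw [(isMean_Ex hκ N).mul_const, (isMean_Ex hκ N).add_const, (isMean_Ex hκ N).mul_const]
    rw [h4]
    have h5 : ((κ : ℝ) - 1) / P / eps ≤ eps := by
      rw [div_div, div_le_iff₀ (by positivity)]
      rw [div_le_iff₀ (by positivity)] at hP
      nlinarith
    linarith
  have h6 : ∀ a b : ℝ, 0 ≤ a → a ≤ 1 → |a * b| ≤ (b ^ 2 / eps + eps) / 2 := by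
    intro a b ha0 ha1
    rw [abs_mul, abs_of_nonneg ha0]
    have h7 : a * |b| ≤ |b| := by
      have := abs_nonneg b
      nlinarith
    refine h7.trans ?_
    rw [div_add' _ _ _ heps.ne', div_div, le_div_iff₀ (by positivity)]
    nlinarith [sq_nonneg (|b| - eps), sq_abs b]
  rw [abs_le]
  constructor
  · have h8 : -eps ≤ Ex κ N (fun y => - (((av P (fun j => XX κ c (s + j) y)) ^ 2 / eps + eps) / 2)) := by
      rw [(isMean_Ex hκ N).neg]
      linarith
    refine h8.trans ((isMean_Ex hκ N).mono fun y _ => ?_)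
    have := (abs_le.1 (h6 (g y) (av P (fun j => XX κ c (s + j) y)) (hg y).1 (hg y).2)).1
    linarith
  · refine le_trans ((isMean_Ex hκ N).mono fun y _ => ?_) h3
    exact (abs_le.1 (h6 (g y) (av P (fun j => XX κ c (s + j) y)) (hg y).1 (hg y).2)).2

/-- the levels of the random embedding -/
def lamE (P sig : ℕ) (i : List ℕ) (j : ℕ) : ℕ := (sig + j) * P + i.getD j 0

lemma getD_lt {P : ℕ} (hP : 0 < P) {i : List ℕ} (hi : Lt P i) (j : ℕ) : i.getD j 0 < P := by
  rcases lt_or_ge j i.length with h | h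
  · rw [List.getD_eq_getElem _ _ h]
    exact hi _ (List.getElem_mem h)
  · rw [List.getD_eq_default _ _ h]
    exact hP

lemma lamE_strictMono {P : ℕ} (hP : 0 < P) (sig : ℕ) {i : List ℕ} (hi : Lt P i) :
    StrictMono (lamE P sig i) := by
  refine strictMono_nat_of_lt_succ fun j => ?_
  have h1 := getD_lt hP hi j
  unfold lamE
  have : (sig + (j + 1)) * P = (sig + j) * P + P := by ring
  omega

lemma lamE_cons (P sig i0 : ℕ) (i : List ℕ) (j : ℕ) :
    lamE P sig (i0 :: i) (j + 1) = lamE P (sig + 1) i j := by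
  unfold lamE
  rw [List.getD_cons_succ]
  congr 2
  ring

lemma lamE_zero (P sig i0 : ℕ) (i : List ℕ) : lamE P sig (i0 :: i) 0 = sig * P + i0 := by
  unfold lamE
  simp

/-- the mean of a functional of the random embedding -/
noncomputable def mE (κ S P N n : ℕ) (F : (List ℕ → List ℕ) → ℝ) : ℝ :=
  av S (fun sig => Ex P n (fun i => Ex κ N (fun y => F (Phi (lamE P sig i) y))))

lemma Phi_congr {lam lam' : ℕ → ℕ} {y z : List ℕ} (h : ∀ j ≤ z.length, lam j = lam' j) :
    Phi lam y z = Phi lam' y z := by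
  induction z generalizing lam lam' y with
  | nil => rw [Phi_nil, Phi_nil, h 0 (by simp)]
  | cons c z ih =>
    rw [Phi_cons, Phi_cons, h 0 (by simp)]
    exact ih fun j hj => h (j + 1) (by simp; omega)

/-- `F` depends only on the values at the words shorter than `n` -/
def Dep (n : ℕ) (F : (List ℕ → List ℕ) → ℝ) : Prop :=
  ∀ T T' : List ℕ → List ℕ, (∀ u : List ℕ, u.length < n → T u = T' u) → F T = F T'

lemma mE_take {κ S P N n n' : ℕ} (hP : 0 < P) (hS : 0 < S) (hn : n ≤ n')
    {F : (List ℕ → List ℕ) → ℝ} (hF : Dep n F) : mE κ S P N n' F = mE κ S P N n F := by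
  unfold mE
  refine (isMean_av hS).congr fun sig _ => ?_
  rw [← Ex_take hP hn]
  refine (isMean_Ex hP n').congr fun i hi => ?_
  congr 1
  funext y
  refine hF _ _ fun u hu => Phi_congr fun j hj => ?_
  unfold lamE
  congr 1
  have h1 : j < n := by omega
  have h2 : j < i.length := by rw [hi.1]; omega
  rw [List.getD_eq_getElem _ _ h2, List.getD_eq_getElem _ _ (by rw [List.length_take]; omega),
    List.getElem_take]

lemma mE_cons {κ S P N n c : ℕ} (hκ : 0 < κ) (hS : 0 < S) {eps : ℝ} (heps : 0 < eps)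
    (hP : κ / eps ^ 2 ≤ P) (hN : S * P ≤ N) (hc : c < κ) {F : (List ℕ → List ℕ) → ℝ}
    (hF : ∀ T, 0 ≤ F T ∧ F T ≤ 1) :
    |mE κ S P N (n + 1) (fun T => F (fun u => T (c :: u))) - mE κ S P N n F| ≤ 1 / S + eps := by
  have hκ' : (0 : ℝ) < κ := by exact_mod_cast hκ
  have hP0 : (0 : ℝ) < P := lt_of_lt_of_le (by positivity) hP
  have hP1 : 0 < P := by exact_mod_cast hP0
  have hS' : (0 : ℝ) < S := by exact_mod_cast hS
  set h : ℕ → ℝ := fun sig => Ex P n (fun i => Ex κ N (fun y => F (Phi (lamE P sig i) y))) with hh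
  have h01 : ∀ sig, 0 ≤ h sig ∧ h sig ≤ 1 := fun sig =>
    ⟨(isMean_Ex hP1 n).nonneg fun i _ => (isMean_Ex hκ N).nonneg fun y _ => (hF _).1,
      (isMean_Ex hP1 n).le_of fun i _ => (isMean_Ex hκ N).le_of fun y _ => (hF _).2⟩
  have h1 : ∀ sig < S, |Ex P (n + 1) (fun i => Ex κ N
      (fun y => F (fun u => Phi (lamE P sig i) y (c :: u)))) - h (sig + 1)| ≤ eps := by
    intro sig hsig
    rw [Ex_succ, ← (isMean_Ex hP1 n).av_comm P (fun i i0 => Ex κ N
      (fun y => F (fun u => Phi (lamE P sig (i0 :: i)) y (c :: u)))), hh, ← (isMean_Ex hP1 n).sub]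
    have h2 : ∀ i, |av P (fun i0 => Ex κ N
        (fun y => F (fun u => Phi (lamE P sig (i0 :: i)) y (c :: u)))) -
        Ex κ N (fun y => F (Phi (lamE P (sig + 1) i) y))| ≤ eps := by
      intro i
      have h3 := one_letter (s := sig * P) (N := N) hκ heps hP (by nlinarith) hc
        (g := fun y => F (Phi (lamE P (sig + 1) i) y)) (fun y => hF _)
      have h4 : ∀ i0 y, F (fun u => Phi (lamE P sig (i0 :: i)) y (c :: u)) =
          F (Phi (lamE P (sig + 1) i) (y.set (sig * P + i0) c)) := by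
        intro i0 y
        congr 1
        funext u
        rw [Phi_cons, lamE_zero]
        congr 1
        funext j
        exact lamE_cons P sig i0 i j
      simp only [h4]
      exact h3
    rw [abs_le]
    exact ⟨(isMean_Ex hP1 n).ge_of fun i _ => (abs_le.1 (h2 i)).1,
      (isMean_Ex hP1 n).le_of fun i _ => (abs_le.1 (h2 i)).2⟩
  have h5 : |av S (fun sig => h (sig + 1)) - av S h| ≤ 1 / S := by
    have h6 : av S (fun sig => h (sig + 1)) - av S h = (h S - h 0) / S := by
      unfold av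
      rw [← sub_div, ← Finset.sum_sub_distrib, Finset.sum_range_sub]
    rw [h6, abs_div, abs_of_pos hS']
    gcongr
    rw [abs_le]
    constructor <;> linarith [(h01 S).1, (h01 S).2, (h01 0).1, (h01 0).2]
  have h7 : |av S (fun sig => Ex P (n + 1) (fun i => Ex κ N
      (fun y => F (fun u => Phi (lamE P sig i) y (c :: u))))) - av S (fun sig => h (sig + 1))| ≤
      eps := by
    rw [← (isMean_av hS).sub, abs_le]
    exact ⟨(isMean_av hS).ge_of fun sig hs => (abs_le.1 (h1 sig hs)).1,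
      (isMean_av hS).le_of fun sig hs => (abs_le.1 (h1 sig hs)).2⟩
  have h8 := abs_sub_le (av S (fun sig => Ex P (n + 1) (fun i => Ex κ N
      (fun y => F (fun u => Phi (lamE P sig i) y (c :: u)))))) (av S (fun sig => h (sig + 1))) (av S h)
  calc |mE κ S P N (n + 1) (fun T => F (fun u => T (c :: u))) - mE κ S P N n F| ≤ _ := h8
    _ ≤ 1 / S + eps := by linarith

lemma Dep.mono {n n' : ℕ} {F : (List ℕ → List ℕ) → ℝ} (hF : Dep n F) (h : n ≤ n') : Dep n' F :=
  fun T T' hT => hF T T' fun u hu => hT u (by omega)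

/-- Lemma 9 (ii) -/
lemma mE_append {κ S P N : ℕ} (hκ : 0 < κ) (hS : 0 < S) {eps : ℝ} (heps : 0 < eps)
    (hP : κ / eps ^ 2 ≤ P) (hN : S * P ≤ N) {F : (List ℕ → List ℕ) → ℝ}
    (hF : ∀ T, 0 ≤ F T ∧ F T ≤ 1) (x : List ℕ) (hx : Lt κ x) (n : ℕ) (hn : x.length ≤ n)
    (hD : Dep (n - x.length) F) :
    |mE κ S P N n (fun T => F (fun u => T (x ++ u))) - mE κ S P N n F| ≤
      x.length * (1 / S + eps) := by
  have hκ' : (0 : ℝ) < κ := by exact_mod_cast hκ
  have hP0 : (0 : ℝ) < P := lt_of_lt_of_le (by positivity) hP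
  have hP1 : 0 < P := by exact_mod_cast hP0
  induction x generalizing n with
  | nil => simp
  | cons c x ih =>
    rw [lt_cons] at hx
    rw [List.length_cons] at hn hD
    obtain ⟨n, rfl⟩ : ∃ n', n = n' + 1 := ⟨n - 1, by omega⟩
    have h1 := ih hx.2 n (by omega) (by simpa using hD)
    have h2 := mE_cons (n := n) hκ hS heps hP hN hx.1 (F := fun T => F (fun u => T (x ++ u)))
      (fun T => hF _)
    have h3 : mE κ S P N (n + 1) F = mE κ S P N n F :=
      mE_take hP1 hS (by omega) (hD.mono (by omega))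
    rw [h3]
    have h4 := abs_sub_le (mE κ S P N (n + 1) (fun T => F (fun u => T (c :: (x ++ u)))))
      (mE κ S P N n (fun T => F (fun u => T (x ++ u)))) (mE κ S P N n F)
    calc |mE κ S P N (n + 1) (fun T => F (fun u => T (c :: x ++ u))) - mE κ S P N n F| ≤ _ := h4
      _ ≤ (1 / S + eps) + x.length * (1 / S + eps) := by linarith
      _ = _ := by push_cast [List.length_cons]; ring

/-- the mean at the empty word -/
lemma mE_nil {κ S P N n : ℕ} (hκ : 0 < κ) (hP : 0 < P) (hS : 0 < S) (hn : 0 < n) (hN : S * P ≤ N)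
    (φ : List ℕ → ℝ) : mE κ S P N n (fun T => φ (T [])) = av (P * S) (fun l => Ex κ l φ) := by
  rw [mE_take (n := 1) hP hS hn (fun T T' h => by rw [h [] (by simp)]), av_mul]
  unfold mE
  refine (isMean_av hS).congr fun sig hsig => ?_
  have hsig' : sig < S := hsig
  rw [Ex_succ]
  refine (isMean_av hP).congr fun i0 hi0 => ?_
  have hi0' : i0 < P := hi0
  rw [Ex_zero]
  simp only [Phi_nil, lamE_zero]
  rw [Ex_take hκ (by nlinarith), mul_comm sig P]

/-- Lemma 9: the random embedding. -/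
lemma exists_emb {κ : ℕ} (hκ : 0 < κ) {n : ℕ} (hn : 0 < n) {eps : ℝ} (heps : 0 < eps) :
    ∃ (N : ℕ) (μ : ((List ℕ → List ℕ) → ℝ) → ℝ), 0 < N ∧ IsMean {T | Tree κ (n - 1) N T} μ ∧
      (∀ (E : Set (List ℕ)) (z : List ℕ), WL κ n z →
        FW κ N (fun x => ind (x ∈ E)) - eps ≤ μ (fun T => ind (T z ∈ E))) ∧
      (∀ (F : (List ℕ → List ℕ) → ℝ) (x : List ℕ), (∀ T, 0 ≤ F T ∧ F T ≤ 1) → Lt κ x →
        x.length < n → Dep (n - x.length) F →
        μ (fun T => F (fun u => T (x ++ u))) - eps ≤ μ F) := by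
  have hκ' : (0 : ℝ) < κ := by exact_mod_cast hκ
  have hn' : (0 : ℝ) < n := by exact_mod_cast hn
  obtain ⟨S, hS⟩ := exists_nat_gt (4 * n / eps)
  have hS' : (0 : ℝ) < S := lt_trans (by positivity) hS
  have hS1 : 0 < S := by exact_mod_cast hS'
  set e8 : ℝ := eps / (4 * n) with he8
  have he8' : 0 < e8 := by positivity
  obtain ⟨P, hP⟩ := exists_nat_gt (κ / e8 ^ 2)
  have hP' : (0 : ℝ) < P := lt_trans (by positivity) hP
  have hP1 : 0 < P := by exact_mod_cast hP'
  have hNn : S * P ≤ P * (S + n) := by nlinarith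
  have hSn : (n : ℝ) / S ≤ eps / 4 := by
    rw [div_le_iff₀ hS']
    rw [div_lt_iff₀ heps] at hS
    linarith
  have h12 : ∀ s : ℕ, s < n → (s : ℝ) * (1 / S + e8) ≤ eps / 2 := by
    intro s hs
    have hs' : (s : ℝ) ≤ n := by exact_mod_cast hs.le
    calc (s : ℝ) * (1 / S + e8) ≤ n * (1 / S + e8) := by
          have : 0 ≤ 1 / (S : ℝ) + e8 := by positivity
          nlinarith
      _ = n / S + n * e8 := by ring
      _ ≤ eps / 4 + eps / 4 := by
          have : (n : ℝ) * e8 = eps / 4 := by rw [he8]; field_simp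
          linarith
      _ = eps / 2 := by ring
  refine ⟨P * (S + n), mE κ S P (P * (S + n)) n, by positivity, ?_, ?_, ?_⟩
  · have h1 := (isMean_av hS1).bind' (T := fun _ => {p : List ℕ × List ℕ | Wd P n p.1 ∧
        Wd κ (P * (S + n)) p.2}) (ν := fun _ => fun F => Ex P n (fun i => Ex κ (P * (S + n))
        (fun y => F (i, y)))) (U := {T | Tree κ (n - 1) (P * (S + n)) T})
        (fun sig _ => (isMean_Ex hP1 n).bind (fun i _ => isMean_Ex hκ _))
        (fun sig p => Phi (lamE P sig p.1) p.2) ?_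
    · exact h1
    · intro sig hsig p hp
      have hsig' : sig < S := hsig
      refine Phi_tree (lamE_strictMono hP1 sig hp.1.2) hp.2 ?_ (by omega)
      have h2 := getD_lt hP1 hp.1.2 (n - 1)
      unfold lamE
      calc (sig + (n - 1)) * P + p.1.getD (n - 1) 0 < (sig + (n - 1)) * P + P := by omega
        _ = P * (sig + (n - 1) + 1) := by ring
        _ ≤ P * (S + n) := Nat.mul_le_mul_left _ (by omega)
  · intro E z hz
    have h1 := mE_append (N := P * (S + n)) hκ hS1 he8' hP.le hNn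
      (F := fun T => ind (T [] ∈ E)) (fun T => ⟨ind_nonneg _, ind_le_one _⟩) z hz.2 n hz.1.le
      (fun T T' h => by
        show ind (T [] ∈ E) = ind (T' [] ∈ E)
        rw [h [] (by have := hz.1; simp; omega)])
    rw [mE_nil hκ hP1 hS1 hn hNn (fun x => ind (x ∈ E))] at h1
    simp only [List.append_nil] at h1
    have h2 := (abs_le.1 h1).1
    have h3 := h12 z.length hz.1
    have h4 : FW κ (P * (S + n)) (fun x => ind (x ∈ E)) - eps / 4 ≤
        av (P * S) (fun l => Ex κ l (fun x => ind (x ∈ E))) := by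
      set d : ℕ → ℝ := fun l => Ex κ l (fun x => ind (x ∈ E)) with hd
      have hd0 : ∀ l, 0 ≤ d l := fun l => (isMean_Ex hκ l).nonneg fun _ _ => ind_nonneg _
      have hd1 : ∀ l, d l ≤ 1 := fun l => (isMean_Ex hκ l).le_of fun _ _ => ind_le_one _
      have h5 : ∑ l ∈ range (P * (S + n)), d l ≤ ∑ l ∈ range (P * S), d l + P * n := by
        rw [Nat.mul_add, Finset.sum_range_add]
        have : ∑ x ∈ range (P * n), d (P * S + x) ≤ ∑ x ∈ range (P * n), (1 : ℝ) :=
          Finset.sum_le_sum fun x _ => hd1 _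
        rw [Finset.sum_const, card_range, nsmul_eq_mul, mul_one] at this
        push_cast at this
        linarith
      have h6 : 0 ≤ ∑ l ∈ range (P * S), d l := Finset.sum_nonneg fun l _ => hd0 l
      unfold FW av
      push_cast
      have h7 : (∑ l ∈ range (P * S), d l) / (P * (S + n)) ≤ (∑ l ∈ range (P * S), d l) / (P * S) := by
        gcongr
        linarith
      have h8 : (∑ l ∈ range (P * (S + n)), d l) / ((P : ℝ) * (S + n)) ≤
          (∑ l ∈ range (P * S), d l) / (P * (S + n)) + (P * n) / (P * (S + n)) := by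
        rw [← add_div]
        gcongr
      have h9 : ((P : ℝ) * n) / (P * (S + n)) ≤ eps / 4 := by
        refine le_trans ?_ hSn
        rw [mul_div_mul_left _ _ hP'.ne']
        gcongr
        linarith
      linarith
    linarith
  · intro F x hF hx hxn hD
    have h1 := mE_append (N := P * (S + n)) hκ hS1 he8' hP.le hNn hF x hx n hxn.le hD
    have h2 := (abs_le.1 h1).2
    have h3 := h12 x.length hxn
    linarith

end Pool.Agent.OVW.BN
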