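import Pool.Agent.OVW.BN.Words

/-!
# Lemma 10 and the conclusion
-/

namespace Pool.Agent.OVW.BN

open Finset

lemma sub_sub_var {k : ℕ} {v : List ℕ} (hv : Lt (k + 1) v) (c : ℕ) :
    sub (k + 1) (sub k v (k + 1)) c = sub k v c := by
  induction v with
  | nil => rfl
  | cons o v ih =>
    rw [lt_cons] at hv
    rw [sub_cons, sub_cons, sub_cons, ih hv.2]
    congr 1
    by_cases h1 : o = k
    · simp [h1]
    · rw [if_neg h1, if_neg h1, if_neg (by omega)]

/-- `E'` and `D` are disjoint -/
lemma DD_disj {k n N : ℕ} {E : Set (List ℕ)} (hE : Free (k + 1) N E) {T : List ℕ → List ℕ}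
    (hT : Tree (k + 1) (n - 1) N T) {v : List ℕ} (hv : Lt (k + 1) v) (hlen : v.length + 1 < n)
    (hD : DD k E T (k :: v)) : T (k :: v) ∉ E := by
  intro hmem
  obtain ⟨w, hw, h1⟩ := hT.t1 [] (sub k v (k + 1)) (Lt.nil _)
    (lt_sub (Lt.mono hv (by omega)) (by omega)) (by rw [length_sub]; simp; omega)
  have h2 : ∀ c < k + 1, T (c :: sub k v c) = T [] ++ c :: sub (k + 1) w c := by
    intro c hc
    have := h1 c hc
    rw [sub_sub_var hv, List.nil_append] at this
    exact this
  have h3 := hT.maps (0 :: sub k v 0) ⟨by simp; omega, Lt.cons (by omega) (lt_sub hv (by omega))⟩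
  rw [h2 0 (by omega)] at h3
  have h4 := h3.1
  rw [List.length_append, List.length_cons, length_sub] at h4
  refine hE (T []) w (hT.maps [] ⟨by simp, Lt.nil _⟩).2 hw (by omega) ⟨hD.1, fun c hc => ?_⟩
  rw [← h2 c hc]
  rcases Nat.lt_succ_iff_lt_or_eq.1 hc with h5 | h5
  · have := hD.2 c h5
    rwa [sub_cons, if_pos rfl] at this
  · rw [h5, sub_self]
    exact hmem

lemma DCS.mono {κ n : ℕ} {c d : ℝ} (h : DCS κ c n) (hcd : c ≤ d) : DCS κ d n :=
  fun E hE => (h E hE).trans_le hcd

lemma lines_card_pos {κ h : ℕ} {c : ℝ} (hκ : 0 < κ) (hh : 0 < h) (hD : DCS κ c h) (hc : c ≤ 1) :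
    0 < (lines κ h).card := by
  have h1 : ¬ Free κ h Set.univ := by
    intro hF
    have h3 := hD Set.univ hF
    have h4 : FW κ h (fun x => ind (x ∈ (Set.univ : Set (List ℕ)))) = 1 := by
      rw [← (isMean_FW hκ hh).one]
      congr 1
      funext x
      exact ind_true trivial
    rw [h4] at h3
    exact absurd h3 (not_lt.2 hc)
  unfold Free at h1
  push Not at h1
  obtain ⟨x, w, hx, hw, hlen, -⟩ := h1
  exact Finset.card_pos.2 ⟨(x, w), mem_lines.2 ⟨hx, hw, hlen⟩⟩

/-- the sets `G_j` -/
def GG (k : ℕ) (E : Set (List ℕ)) (T : List ℕ → List ℕ) (W : List ℕ → List ℕ) (j i : ℕ) :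
    Set (List ℕ) :=
  {z | (i < j → T (sub k (W z) i) ∈ E) ∧ (i = j → T (sub k (W z) i) ∉ E)}

/-- the complement of `D` is the disjoint union of the sets `G_j` -/
lemma ind_not_DD {k : ℕ} {E : Set (List ℕ)} {T W : List ℕ → List ℕ} {z : List ℕ}
    (hT : T [] ∈ E) :
    ind (¬ DD k E T (W z)) = ∑ j ∈ range k, ind (∀ i < k, z ∈ GG k E T W j i) := by
  classical
  by_cases hD : DD k E T (W z)
  · rw [ind_false (not_not.2 hD)]
    symm
    refine Finset.sum_eq_zero fun j hj => ind_false fun h1 => ?_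
    have hj' := Finset.mem_range.1 hj
    exact (h1 j hj').2 rfl (hD.2 j hj')
  · rw [ind_true hD]
    have hex : ∃ j, j < k ∧ T (sub k (W z) j) ∉ E := by
      by_contra hcon
      push Not at hcon
      exact hD ⟨hT, hcon⟩
    have h1 := Nat.find_spec hex
    have h2 : ∀ i < Nat.find hex, T (sub k (W z) i) ∈ E := fun i hi => by
      by_contra hcon
      exact Nat.find_min hex hi ⟨hi.trans h1.1, hcon⟩
    rw [Finset.sum_eq_single (Nat.find hex)]
    · symm
      refine ind_true fun i _ => ⟨fun hi => h2 i hi, fun hi => ?_⟩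
      rw [hi]
      exact h1.2
    · intro j hj hne
      have hj' := Finset.mem_range.1 hj
      refine ind_false fun h3 => ?_
      rcases lt_or_gt_of_ne hne with h4 | h4
      · exact (h3 j hj').2 rfl (h2 j h4)
      · exact h1.2 ((h3 _ h1.1).1 h4)
    · intro h3
      exact absurd (Finset.mem_range.2 h1.1) h3

lemma insens_GG {k n m : ℕ} {E : Set (List ℕ)} {T W : List ℕ → List ℕ}
    (hW : Tree (k + 1) m n W) (j i : ℕ) : Insens k (m + 1) i (GG k E T W j i) := by
  intro x x' hx hx' h1 h2
  have h3 := hW.t3 k i x x' hx hx' h1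
  unfold GG at h2 ⊢
  simp only [Set.mem_ofPred_eq] at h2 ⊢
  rw [← h3]
  exact h2

/-- Lemma 10: the density increment. -/
lemma increment (hL7 : StmtL7) {k : ℕ} (hk : 0 < k) (hall : DCSall k) {δ : ℝ} (hδ : 0 < δ) :
    ∃ γ : ℝ, 0 < γ ∧ ∀ m' : ℕ, ∃ N, 0 < N ∧ ∀ E : Set (List ℕ), Free (k + 1) N E →
      δ ≤ FW (k + 1) N (fun x => ind (x ∈ E)) → ∃ T, Tree (k + 1) m' N T ∧
        ∀ i ≤ m', FW (k + 1) N (fun x => ind (x ∈ E)) + γ ≤
          Ex (k + 1) i (fun z => ind (T z ∈ E)) := by
  classical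
  have hκ : 0 < k + 1 := by omega
  obtain ⟨h, hh, hD0⟩ := hall (min (δ / 2 / 2) 1) (by positivity)
  have hD : DCS k (δ / 2 / 2) h := hD0.mono (min_le_left _ _)
  have hcard := lines_card_pos hk hh hD0 (min_le_right _ _)
  set Lam : ℝ := ((lines k h).card : ℝ) with hLam
  have hLam0 : 0 < Lam := by rw [hLam]; exact_mod_cast hcard
  set gam0 : ℝ := δ / 2 / 2 / Lam / 2 / Lam with hgam0
  have hgam0' : 0 < gam0 := by positivity
  set γ : ℝ := δ * gam0 / 8 with hγ
  have hγ' : 0 < γ := by positivity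
  have hk' : (0 : ℝ) < k := by exact_mod_cast hk
  refine ⟨γ, hγ', fun m' => ?_⟩
  obtain ⟨n7, hn7, h7⟩ := hL7 k hk hall k m' (2 * γ / k) γ hk (by positivity) hγ'
  obtain ⟨m, rfl⟩ : ∃ m, n7 = m + 1 := ⟨n7 - 1, by omega⟩
  set n' : ℕ := (2 * h + 1) * Len h m + 2 with hn'
  set eps : ℝ := min γ (min (δ / 2 / 2 / Lam / 2) (δ / 2)) with heps
  have heps' : 0 < eps := by positivity
  have heps1 : eps ≤ γ := min_le_left _ _
  have heps2 : eps ≤ δ / 2 / 2 / Lam / 2 := (min_le_right _ _).trans (min_le_left _ _)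
  have heps3 : eps ≤ δ / 2 := (min_le_right _ _).trans (min_le_right _ _)
  obtain ⟨N, μ, hN, hμ⟩ := exists_Emb hκ (n := n') (by omega) heps'
  refine ⟨N, hN, fun E hE hdE => ?_⟩
  set θ : ℝ := FW (k + 1) N (fun x => ind (x ∈ E)) with hθ
  obtain ⟨g, hg1, hg2, hg3⟩ := choose_words hk hh (d := δ / 2) (by positivity) hD hμ
    heps2 (E := E) (by rw [← hθ]; linarith) (m := m) (by omega)
  -- the tree T0
  have hlen : ∀ z : List ℕ, z.length ≤ m → (TT k g z).length < n' - 1 := by
    intro z hz
    have h1 := length_TT (k := k) hg2 z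
    have h2 := Len_mono h hz
    have h3 : (h + 1) * Len h z.length ≤ (2 * h + 1) * Len h m :=
      Nat.mul_le_mul (by omega) h2
    omega
  have hT0 : Tree (k + 1) m (n' - 1) (TT k g) := TT_tree hg1 hlen
  have hT0' : Tree (k + 1) m (n' - 1 + 1) (TT k g) :=
    TT_tree hg1 (fun z hz => (hlen z hz).trans (by omega))
  -- the average
  set u : ℝ := θ + 2 * γ with hu
  have hm1 : 0 < m + 1 := by omega
  have havg : 2 * γ ≤ μ (fun T => FW (k + 1) (m + 1) (fun z => ind (¬ DD k E T (TT k g z)) *
      (ind (T (TT k g z) ∈ E) - u))) := by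
    have h1 : ∀ T ∈ {T | Tree (k + 1) (n' - 1) N T}, ∀ z ∈ {z | WL (k + 1) (m + 1) z},
        ind (¬ DD k E T (TT k g z)) * (ind (T (TT k g z) ∈ E) - u) =
          ind (T (TT k g z) ∈ E) - u + u * ind (DD k E T (TT k g z)) := by
      intro T hT z hz
      by_cases h2 : DD k E T (TT k g z)
      · have h3 : T (TT k g z) ∉ E := by
          rw [TT_eq] at h2 ⊢
          have h4 := lt_TT hg1 hz.2
          rw [TT_eq, lt_cons] at h4
          have h5 := hlen z (by have := hz.1; omega)
          rw [TT_eq, List.length_cons] at h5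
          exact DD_disj hE hT h4.2 (by omega) h2
        rw [ind_false (not_not.2 h2), ind_true h2, ind_false h3]
        ring
      · rw [ind_true h2, ind_false h2]
        ring
    have h2 : μ (fun T => FW (k + 1) (m + 1) (fun z => ind (¬ DD k E T (TT k g z)) *
        (ind (T (TT k g z) ∈ E) - u))) = FW (k + 1) (m + 1) (fun z =>
          μ (fun T => ind (T (TT k g z) ∈ E))) - u + u * FW (k + 1) (m + 1) (fun z =>
          μ (fun T => ind (DD k E T (TT k g z)))) := by
      rw [hμ.mean.FW_comm, ← (isMean_FW hκ hm1).smul, ← (isMean_FW hκ hm1).sub_const,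
        ← (isMean_FW hκ hm1).add]
      refine (isMean_FW hκ hm1).congr fun z hz => ?_
      rw [← hμ.mean.smul, ← hμ.mean.sub_const, ← hμ.mean.add]
      exact hμ.mean.congr fun T hT => h1 T hT z hz
    rw [h2]
    have h3 : θ - eps ≤ FW (k + 1) (m + 1) (fun z => μ (fun T => ind (T (TT k g z) ∈ E))) := by
      refine (isMean_FW hκ hm1).ge_of fun z hz => ?_
      have h4 := hT0.maps z hz
      exact hμ.dens E (TT k g z) ⟨by have := h4.1; omega, h4.2⟩
    have h4 : gam0 ≤ FW (k + 1) (m + 1) (fun z => μ (fun T => ind (DD k E T (TT k g z)))) := by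
      unfold FW
      refine (isMean_av hm1).ge_of fun s hs => ?_
      have hs' : s < m + 1 := hs
      exact hg3 s (by omega)
    have hθ0 : 0 < θ := lt_of_lt_of_le hδ hdE
    have h5 : u * gam0 ≤ u * FW (k + 1) (m + 1) (fun z =>
        μ (fun T => ind (DD k E T (TT k g z)))) :=
      mul_le_mul_of_nonneg_left h4 (by positivity)
    have h6 : δ * gam0 ≤ u * gam0 := by
      refine mul_le_mul_of_nonneg_right ?_ hgam0'.le
      rw [hu]
      linarith
    have h7 : δ * gam0 = 8 * γ := by rw [hγ]; ring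
    rw [hu] at h5 h6 ⊢
    linarith
  obtain ⟨T, hT, havg2⟩ := hμ.mean.ex_ge havg
  have hT' : Tree (k + 1) (n' - 1) N T := hT
  have hu0 : γ ≤ u := by
    have hθ0 : 0 < θ := lt_of_lt_of_le hδ hdE
    rw [hu]; linarith
  have hu1 : u ≤ 1 := by
    by_contra hcon
    push Not at hcon
    have h1 : FW (k + 1) (m + 1) (fun z => ind (¬ DD k E T (TT k g z)) *
        (ind (T (TT k g z) ∈ E) - u)) ≤ 0 := by
      refine (isMean_FW hκ hm1).le_of fun z _ => ?_
      have h2 := ind_nonneg (¬ DD k E T (TT k g z))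
      have h3 := ind_le_one (T (TT k g z) ∈ E)
      nlinarith
    linarith
  -- the insensitive sets
  obtain ⟨H, hH, hHavg⟩ : ∃ H : ℕ → Set (List ℕ), (∀ i < k, Insens k (m + 1) i (H i)) ∧
      2 * γ / k ≤ FW (k + 1) (m + 1) (fun z => ind (∀ i < k, z ∈ H i) *
        (ind (T (TT k g z) ∈ E) - u)) := by
    by_cases hTe : T [] ∈ E
    · have h1 : ∀ z, ind (¬ DD k E T (TT k g z)) * (ind (T (TT k g z) ∈ E) - u) =
          ∑ j ∈ range k, ind (∀ i < k, z ∈ GG k E T (TT k g) j i) *
            (ind (T (TT k g z) ∈ E) - u) := by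
        intro z
        rw [ind_not_DD hTe, Finset.sum_mul]
      simp only [h1] at havg2
      rw [(isMean_FW hκ hm1).sum] at havg2
      obtain ⟨j, hj, h2⟩ := Finset.exists_le_of_sum_le (s := range k)
        (f := fun _ => 2 * γ / k) (g := fun j => FW (k + 1) (m + 1)
          (fun z => ind (∀ i < k, z ∈ GG k E T (TT k g) j i) *
            (ind (T (TT k g z) ∈ E) - u))) (by simpa using hk.ne') (by
          rw [Finset.sum_const, nsmul_eq_mul, card_range, mul_div_cancel₀ _ hk'.ne']
          exact havg2)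
      exact ⟨GG k E T (TT k g) j, fun i _ => insens_GG hT0 j i, h2⟩
    · refine ⟨fun _ => Set.univ, fun i _ x x' _ _ _ _ => trivial, ?_⟩
      have h1 : 2 * γ / k ≤ 2 * γ := by
        rw [div_le_iff₀ hk']
        have : (1 : ℝ) ≤ k := by exact_mod_cast hk
        nlinarith
      refine h1.trans (havg2.trans (le_of_eq ?_))
      congr 1
      funext z
      congr 1
      refine ind_congr ⟨fun _ i _ => trivial, fun _ hD => hTe hD.1⟩
  obtain ⟨T', hT'1, -, hT'3⟩ := h7 (fun i => i) H (fun i hi => hi) hH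
    (fun z => ind (T (TT k g z) ∈ E)) (fun z => ⟨ind_nonneg _, ind_le_one _⟩) u hu0 hu1 hHavg
  refine ⟨fun z => T (TT k g (T' z)), ?_, fun i hi => ?_⟩
  · exact Tree.comp hκ hT' (Tree.comp hκ hT0' hT'1)
  · have := hT'3 i hi
    rw [hu] at this
    linarith

/-- one letter -/
lemma DCSall_one : DCSall 1 := by
  classical
  intro δ hδ
  obtain ⟨n, hn⟩ := exists_nat_gt (1 / δ)
  have hn0 : (0 : ℝ) < n := lt_trans (by positivity) hn
  have hn1 : 0 < n := by exact_mod_cast hn0
  refine ⟨n, hn1, fun E hE => ?_⟩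
  have h0 : ∀ l, Ex 1 l (fun x => ind (x ∈ E)) = ind (List.replicate l 0 ∈ E) := by
    intro l
    rw [← (isMean_Ex (κ := 1) (by omega) l).const (ind (List.replicate l 0 ∈ E))]
    refine (isMean_Ex (by omega) l).congr fun x hx => ?_
    have : x = List.replicate l 0 := by
      rw [List.eq_replicate_iff]
      exact ⟨hx.1, fun c hc => by have := hx.2 c hc; omega⟩
    rw [this]
  have h1 : ∑ l ∈ range n, ind (List.replicate l 0 ∈ E) ≤ 1 := by
    by_cases hex : ∃ l < n, List.replicate l 0 ∈ E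
    · obtain ⟨l, hl, hlE⟩ := hex
      rw [Finset.sum_eq_single l]
      · exact ind_le_one _
      · intro l' hl' hne
        have hl'' := Finset.mem_range.1 hl'
        refine ind_false fun hmem => ?_
        have key : ∀ a b : ℕ, a < b → b < n → List.replicate a 0 ∈ E →
            List.replicate b 0 ∈ E → False := by
          intro a b hab hb ha hbE
          refine hE (List.replicate a 0) (List.replicate (b - a - 1) 0)
            (fun c hc => by rw [List.eq_of_mem_replicate hc]; omega)
            (fun c hc => by rw [List.eq_of_mem_replicate hc]; omega)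
            (by simp; omega) ⟨ha, fun c hc => ?_⟩
          have hc0 : c = 0 := by omega
          subst hc0
          rw [sub_of_lt (fun c hc => by rw [List.eq_of_mem_replicate hc]; omega)]
          have : List.replicate a 0 ++ 0 :: List.replicate (b - a - 1) 0 =
              List.replicate b (0 : ℕ) := by
            rw [← List.replicate_succ, List.replicate_append_replicate]
            congr 1
            omega
          rw [this]
          exact hbE
        rcases lt_or_gt_of_ne hne with h2 | h2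
        · exact key l' l h2 hl hmem hlE
        · exact key l l' h2 hl'' hlE hmem
      · intro h2
        exact absurd (Finset.mem_range.2 hl) h2
    · push Not at hex
      rw [Finset.sum_eq_zero fun l hl => ind_false (hex l (Finset.mem_range.1 hl))]
      exact zero_le_one
  unfold FW av
  simp only [h0]
  rw [div_lt_iff₀ hn0]
  rw [div_lt_iff₀ hδ] at hn
  linarith

/-- the induction step -/
lemma DCSall_succ (hL7 : StmtL7) {k : ℕ} (hk : 0 < k) (hall : DCSall k) : DCSall (k + 1) := by
  intro δ hδ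
  have hκ : 0 < k + 1 := by omega
  obtain ⟨γ, hγ, hinc⟩ := increment hL7 hk hall hδ
  have key : ∀ j : ℕ, ∃ N, 0 < N ∧ ∀ E : Set (List ℕ), Free (k + 1) N E →
      FW (k + 1) N (fun x => ind (x ∈ E)) < δ ∨
        FW (k + 1) N (fun x => ind (x ∈ E)) ≤ 1 - j * γ := by
    intro j
    induction j with
    | zero =>
      refine ⟨1, one_pos, fun E _ => Or.inr ?_⟩
      simp only [Nat.cast_zero, zero_mul, sub_zero]
      exact (isMean_FW hκ one_pos).le_of fun _ _ => ind_le_one _
    | succ j ih =>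
      obtain ⟨N0, hN0, h1⟩ := ih
      obtain ⟨N, hN, h2⟩ := hinc (N0 - 1)
      refine ⟨N, hN, fun E hE => ?_⟩
      by_cases h3 : FW (k + 1) N (fun x => ind (x ∈ E)) < δ
      · exact Or.inl h3
      · right
        push Not at h3
        obtain ⟨T, hT, h4⟩ := h2 E hE h3
        have h5 := hT.free hκ hE
        have e1 : N0 - 1 + 1 = N0 := by omega
        rw [e1] at h5
        have h6 : FW (k + 1) N (fun x => ind (x ∈ E)) + γ ≤
            FW (k + 1) N0 (fun z => ind (z ∈ {z | T z ∈ E})) := by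
          unfold FW
          refine (isMean_av hN0).ge_of fun i hi => ?_
          have hi' : i < N0 := hi
          exact h4 i (by omega)
        rcases h1 _ h5 with h7 | h7
        · linarith
        · push_cast
          linarith
  obtain ⟨j, hj⟩ := exists_nat_gt (1 / γ)
  obtain ⟨N, hN, h1⟩ := key j
  refine ⟨N, hN, fun E hE => ?_⟩
  rcases h1 E hE with h2 | h2
  · exact h2
  · exfalso
    have h3 : 0 ≤ FW (k + 1) N (fun x => ind (x ∈ E)) :=
      (isMean_FW hκ hN).nonneg fun _ _ => ind_nonneg _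
    rw [div_lt_iff₀ hγ] at hj
    linarith

/-- The density Carlson-Simpson theorem in dimension one, from Lemma 7. -/
theorem DCSall_of (hL7 : StmtL7) {k : ℕ} (hk : 0 < k) : DCSall k := by
  induction k with
  | zero => omega
  | succ k ih =>
    rcases Nat.eq_zero_or_pos k with rfl | hk'
    · exact DCSall_one
    · exact DCSall_succ hL7 hk' (ih hk')

end Pool.Agent.OVW.BN
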