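import Pool.Agent.OVW.BN.Step
import Pool.Agent.OVW.BN.Incr

/-!
# Lemmas 5, 6, 7 and the density Carlson-Simpson theorem
-/

namespace Pool.Agent.OVW.BN

open Finset

/-- the conclusion of Lemma 5 -/
def Concl (k n q a : ℕ) (H : Set (List ℕ)) (ψ : List ℕ → ℝ) (u eps c1 : ℝ) : Prop :=
  ∃ (X W : List ℕ) (n' : ℕ) (H' : Set (List ℕ)), 0 < n' ∧ q ∣ n' ∧ Lt (k + 1) X ∧ X ∈ H ∧ u ≤ ψ X ∧
    Lt (k + 2) W ∧ X.length + 1 + W.length + n' ≤ n ∧ Insens k n' a H' ∧
    (∀ y, WL (k + 1) n' y → y ∈ H' → ∀ c < k + 1, X ++ c :: (sub (k + 1) W c ++ y) ∈ H) ∧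
    c1 ≤ FW (k + 1) n' (fun y => ind (y ∈ H') *
      (av (k + 1) (fun c => ψ (X ++ c :: (sub (k + 1) W c ++ y))) - (u - 2 * eps)))

/-- Lemma 5 -/
lemma lemma5 {k : ℕ} (hk : 0 < k) (hall : DCSall k) {c eps : ℝ} (hc : 0 < c) (heps : 0 < eps) :
    ∃ (b : ℕ) (c1 : ℝ), 0 < b ∧ 0 < c1 ∧ ∀ q, 0 < q → ∀ (a : ℕ) (H : Set (List ℕ)), a < k →
      Insens k (b * q) a H → ∀ (ψ : List ℕ → ℝ), (∀ x, 0 ≤ ψ x ∧ ψ x ≤ 1) → ∀ u : ℝ, 0 ≤ u →
      c ≤ FW (k + 1) (b * q) (fun y => ind (y ∈ H) * (ψ y - u)) →
      Concl k (b * q) q a H ψ u eps c1 := by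
  classical
  have hκ : 0 < k + 1 := by omega
  obtain ⟨h, hh, hD⟩ := hall (c ^ 2 / 32 / 4) (by positivity)
  obtain ⟨h0, hh0⟩ := exists_nat_gt (4 / (c ^ 2 / 32) * h / (c ^ 2 / 32))
  have hh0r : (0 : ℝ) < h0 := lt_of_le_of_lt (by positivity) hh0
  have hh00 : 0 < h0 := by exact_mod_cast hh0r
  have hh0' : 4 / (c ^ 2 / 32) * h ≤ c ^ 2 / 32 * h0 := by
    rw [div_lt_iff₀ (by positivity)] at hh0
    linarith
  set β' : ℝ := ((k + 1 : ℕ) : ℝ) * (c ^ 2 / 16) / ((k + 1 : ℕ) : ℝ) ^ h0 with hβ'
  have hβ'0 : 0 < β' := by positivity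
  set eps2 : ℝ := min (c ^ 2 / 16) (eps * β' / 2) with heps2
  have heps20 : 0 < eps2 := by positivity
  have heps21 : eps2 ≤ c ^ 2 / 16 := min_le_left _ _
  have heps22 : 2 * eps2 ≤ eps * β' := by
    have : eps2 ≤ eps * β' / 2 := min_le_right _ _
    linarith
  obtain ⟨J, hJ⟩ := exists_nat_gt (1 / eps2)
  set Lc : ℝ := ((lines (k + 1) (h0 + 1)).card : ℝ) with hLc
  have hLpos : 0 < Lc := by
    have h1 : (List.replicate 0 0, List.replicate (h0 - 1) 0) ∈ lines (k + 1) (h0 + 1) := by
      rw [mem_lines]
      exact ⟨fun c hc => by simp at hc, fun c hc => by rw [List.eq_of_mem_replicate hc]; omega,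
        by simp; omega⟩
    have h2 : 0 < (lines (k + 1) (h0 + 1)).card := Finset.card_pos.2 ⟨_, h1⟩
    rw [hLc]
    exact_mod_cast h2
  refine ⟨h0 * 2 ^ J, eps * c ^ 2 / 16 / Lc, by positivity, by positivity, ?_⟩
  intro q hq a H ha hH ψ hψ u hu hscore
  set n : ℕ := h0 * 2 ^ J * q with hn
  have key : ∀ j ≤ J, Concl k n q a H ψ u eps (eps * c ^ 2 / 16 / Lc) ∨
      ∃ (t : List ℕ) (R : Set (List ℕ)), Lt (k + 1) t ∧ t.length + h0 * 2 ^ (J - j) * q ≤ n ∧
        Insens k (h0 * 2 ^ (J - j) * q) a R ∧
        (∀ y, WL (k + 1) (h0 * 2 ^ (J - j) * q) y → y ∈ R → t ++ y ∈ H) ∧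
        c + j * eps2 ≤ FW (k + 1) (h0 * 2 ^ (J - j) * q)
          (fun y => ind (y ∈ R) * (ψ (t ++ y) - u)) := by
    intro j
    induction j with
    | zero =>
      intro _
      right
      refine ⟨[], H, Lt.nil _, by simp [hn], by simpa using hH, fun y _ hy => by simpa using hy, ?_⟩
      simpa using hscore
    | succ j ih =>
      intro hj
      rcases ih (by omega) with h1 | ⟨t, R, ht, htn, hR, hRH, hsc⟩
      · exact Or.inl h1
      · by_cases hex : ∃ (t' : List ℕ) (R' : Set (List ℕ)), Lt (k + 1) t' ∧
          t'.length ≤ h0 * 2 ^ (J - (j + 1)) * q ∧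
          Insens k (h0 * 2 ^ (J - (j + 1)) * q) a R' ∧
          (∀ y, WL (k + 1) (h0 * 2 ^ (J - (j + 1)) * q) y → y ∈ R' → t' ++ y ∈ R) ∧
          c + (j + 1 : ℕ) * eps2 < FW (k + 1) (h0 * 2 ^ (J - (j + 1)) * q)
            (fun y => ind (y ∈ R') * (ψ (t ++ (t' ++ y)) - u))
        · right
          obtain ⟨t', R', h1, h2, h3, h4, h5⟩ := hex
          have e1 : h0 * 2 ^ (J - j) * q = h0 * 2 ^ (J - (j + 1)) * q * 2 := by
            rw [show J - j = J - (j + 1) + 1 by omega, pow_succ]
            ring
          refine ⟨t ++ t', R', ht.append h1, ?_, h3, fun y hy hyR => ?_, ?_⟩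
          · rw [List.length_append]
            omega
          · rw [List.append_assoc]
            refine hRH _ ?_ (h4 y hy hyR)
            refine ⟨?_, h1.append hy.2⟩
            have := hy.1
            rw [List.length_append, e1]
            omega
          · refine h5.le.trans (le_of_eq ?_)
            congr 1
            funext y
            rw [List.append_assoc]
        · left
          have e1 : h0 * 2 ^ (J - j) * q = h0 * (2 ^ (J - (j + 1)) * q) * 2 := by
            rw [show J - j = J - (j + 1) + 1 by omega, pow_succ]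
            ring
          have e2 : h0 * 2 ^ (J - (j + 1)) * q = h0 * (2 ^ (J - (j + 1)) * q) := by ring
          rw [e1] at htn hR hRH hsc
          rw [e2] at hex
          push Not at hex
          obtain ⟨X, W, H', g1, g2, g3, g4, g5, g6, g7, g8⟩ := step_core hk hc heps hh hD hh00 hh0'
            heps21 heps20 heps22 (q := 2 ^ (J - (j + 1)) * q) (by positivity) ha hR
            (ψ := fun y => ψ (t ++ y)) (fun y => hψ _) hu (s := c + j * eps2)
            (by have : (0 : ℝ) ≤ j * eps2 := by positivity
                linarith) hsc (by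
              intro t' R' h1 h2 h3 h4
              refine (hex t' R' h1 h2 h3 h4).trans (le_of_eq ?_)
              push_cast
              ring)
          refine ⟨t ++ X, W, h0 * (2 ^ (J - (j + 1)) * q), H', by positivity, ?_, ht.append g1, ?_,
            g3, g4, ?_, g6, ?_, ?_⟩
          · exact Dvd.dvd.mul_left (Dvd.intro_left _ rfl) _
          · refine hRH X ⟨by omega, g1⟩ g2
          · rw [List.length_append]
            omega
          · intro y hy hyH c hc
            have g9 := g7 y hy hyH c hc
            rw [List.append_assoc]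
            refine hRH _ ⟨?_, ?_⟩ g9
            · rw [List.length_append, List.length_cons, List.length_append, length_sub]
              have := hy.1
              omega
            · exact g1.append (Lt.cons hc ((lt_sub' g4 hc).append hy.2))
          · refine g8.trans (le_of_eq ?_)
            simp only [List.append_assoc]
  rcases key J le_rfl with h1 | ⟨t, R, ht, htn, hR, hRH, hsc⟩
  · exact h1
  · exfalso
    have h1 : FW (k + 1) (h0 * 2 ^ (J - J) * q) (fun y => ind (y ∈ R) * (ψ (t ++ y) - u)) ≤ 1 := by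
      refine (isMean_FW hκ (by positivity)).le_of fun y _ => ?_
      have h1 := ind_nonneg (y ∈ R)
      have h2 := ind_le_one (y ∈ R)
      have h3 := hψ (t ++ y)
      nlinarith
    rw [div_lt_iff₀ heps20] at hJ
    linarith

/-- Lemma 6 -/
theorem stmtL6 : StmtL6 := by
  intro k hk hall m
  have hκ : 0 < k + 1 := by omega
  induction m with
  | zero =>
    intro c eps hc heps
    refine ⟨1, one_pos, fun a H ha hH ψ hψ u hu hu1 hsc => ?_⟩
    have h1 : FW (k + 1) 1 (fun y => ind (y ∈ H) * (ψ y - u)) = ind ([] ∈ H) * (ψ [] - u) := by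
      unfold FW av
      simp [Ex_zero]
    rw [h1] at hsc
    have h2 : ([] : List ℕ) ∈ H := by
      by_contra hcon
      rw [ind_false hcon, zero_mul] at hsc
      linarith
    rw [ind_true h2, one_mul] at hsc
    have hnil : ∀ z : List ℕ, WL (k + 1) (0 + 1) z → z = [] := fun z hz =>
      List.eq_nil_of_length_eq_zero (by have := hz.1; omega)
    refine ⟨fun z => z, ⟨fun z hz => ?_, fun w hw hm => ?_, fun x w _ _ hm => ?_,
      fun b a z z' _ _ h => h⟩, fun z hz => ?_, fun i hi => ?_⟩
    · simpa using hz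
    · exact ⟨w, hw, fun c _ => rfl⟩
    · omega
    · rw [hnil z hz]; exact h2
    · obtain rfl : i = 0 := by omega
      rw [Ex_zero]
      simp only [Nat.cast_zero, mul_zero, zero_mul, sub_zero]
      linarith
  | succ m ih =>
    intro c eps hc heps
    obtain ⟨b, c1, hb, hc1, h5⟩ := lemma5 hk hall hc heps
    obtain ⟨n6, hn6, h6⟩ := ih c1 eps hc1 heps
    refine ⟨b * n6, by positivity, fun a H ha hH ψ hψ u hu hu1 hsc => ?_⟩
    have hu0 : 0 ≤ u := le_trans (by positivity) hu
    obtain ⟨X, W, n', H', hn', ⟨r, hr⟩, hX, hXH, hXu, hW, hlen, hH', hmem, hsc'⟩ :=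
      h5 n6 hn6 a H ha hH ψ hψ u hu0 hsc
    have hr0 : 0 < r := by
      rcases Nat.eq_zero_or_pos r with h0 | h0
      · rw [h0] at hr; omega
      · exact h0
    rw [hr] at hsc'
    obtain ⟨y1, hy1, hy1n, hsc''⟩ := FW_context hκ hr0 hsc'
    rw [← hr] at hy1n
    push_cast at hu
    obtain ⟨T', hT', hT'H, hT'a⟩ := h6 a {y | y1 ++ y ∈ H'} ha (hH'.context hy1 hy1n)
      (fun y => av (k + 1) (fun c => ψ (X ++ c :: (sub (k + 1) W c ++ (y1 ++ y)))))
      (fun y => ⟨(isMean_av hκ).nonneg fun c _ => (hψ _).1,
        (isMean_av hκ).le_of fun c _ => (hψ _).2⟩) (u - 2 * eps) (by linarith) (by linarith) hsc''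
    -- the new tree
    obtain ⟨T, hTn, hTc⟩ : ∃ T : List ℕ → List ℕ, T [] = X ∧
        ∀ c z, T (c :: z) = X ++ c :: (sub (k + 1) W c ++ (y1 ++ T' z)) :=
      ⟨fun z => match z with
        | [] => X
        | c :: z => X ++ c :: (sub (k + 1) W c ++ (y1 ++ T' z)), rfl, fun _ _ => rfl⟩
    have hT'len : ∀ z, WL (k + 1) (m + 1) z → (T' z).length < n6 := fun z hz => (hT'.maps z hz).1
    have htree : Tree (k + 1) (m + 1) (b * n6) T := by
      refine ⟨fun z hz => ?_, fun w hw hm => ?_, fun x w hx hw hm => ?_, fun b a z z' hz hz' h => ?_⟩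
      · cases z with
        | nil =>
          rw [hTn]
          exact ⟨by omega, hX⟩
        | cons c z =>
          rw [hTc]
          have hcz := lt_cons.1 hz.2
          have h1 := hT'.maps z ⟨by have := hz.1; simp at this; omega, hcz.2⟩
          refine ⟨?_, hX.append (Lt.cons hcz.1 ((lt_sub' hW hcz.1).append (hy1.append h1.2)))⟩
          have := h1.1
          simp only [List.length_append, List.length_cons, length_sub]
          omega
      · cases w with
        | nil =>
          exact ⟨X, Lt.mono hX (by omega), fun c _ => by rw [sub_nil, hTn, sub_of_lt hX]⟩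
        | cons o w =>
          rw [lt_cons] at hw
          rw [List.length_cons] at hm
          obtain ⟨v, hv, h1⟩ := hT'.t0 w hw.2 (by omega)
          refine ⟨X ++ o :: (sub (k + 1) W o ++ (y1 ++ v)),
            (Lt.mono hX (by omega)).append (Lt.cons hw.1 ((lt_sub hW hw.1).append
              ((Lt.mono hy1 (by omega)).append hv))), fun c hc => ?_⟩
          rw [sub_cons, hTc, h1 c hc, sub_append, sub_cons, sub_append, sub_append, sub_of_lt hX,
            sub_of_lt hy1, sub_sub]
      · cases x with
        | nil =>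
          simp only [List.nil_append]
          obtain ⟨v, hv, h1⟩ := hT'.t0 w hw (by simp at hm; omega)
          refine ⟨W ++ (y1 ++ v), hW.append ((Lt.mono hy1 (by omega)).append hv), fun c hc => ?_⟩
          rw [hTc, hTn, h1 c hc, sub_append, sub_append, sub_of_lt hy1]
        | cons d x =>
          rw [lt_cons] at hx
          rw [List.length_cons] at hm
          obtain ⟨v, hv, h1⟩ := hT'.t1 x w hx.2 hw (by omega)
          refine ⟨v, hv, fun c hc => ?_⟩
          rw [List.cons_append, hTc, hTc, h1 c hc]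
          simp [List.append_assoc]
      · cases z with
        | nil =>
          cases z' with
          | nil => rfl
          | cons c' z' =>
            exfalso
            have := congrArg List.length h
            simp at this
        | cons c z =>
          cases z' with
          | nil =>
            exfalso
            have := congrArg List.length h
            simp at this
          | cons c' z' =>
            obtain ⟨h1, h2⟩ := sub_cons_inj h
            have hz2 : WL (k + 1) (m + 1) z :=
              ⟨by have := hz.1; simp at this; omega, (lt_cons.1 hz.2).2⟩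
            have hz2' : WL (k + 1) (m + 1) z' :=
              ⟨by have := hz'.1; simp at this; omega, (lt_cons.1 hz'.2).2⟩
            have h3 := hT'.t3 b a z z' hz2 hz2' h2
            rw [hTc, hTc, sub_append, sub_append, sub_cons, sub_cons, sub_append, sub_append,
              sub_append, sub_append, h3, h1, sub_sub_congr h1]
    refine ⟨T, htree, fun z hz => ?_, fun i hi => ?_⟩
    · cases z with
      | nil => rw [hTn]; exact hXH
      | cons c z =>
        rw [hTc]
        have hcz := lt_cons.1 hz.2
        have hz2 : WL (k + 1) (m + 1) z := ⟨by have := hz.1; simp at this; omega, hcz.2⟩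
        have h1 := hT'.maps z hz2
        have h2 := hT'H z hz2
        refine hmem (y1 ++ T' z) ⟨?_, hy1.append h1.2⟩ h2 c hcz.1
        have := h1.1
        rw [List.length_append]
        omega
    · rcases i with _ | i
      · rw [Ex_zero, hTn]
        simp only [Nat.cast_zero, mul_zero, zero_mul, sub_zero]
        exact hXu
      · have h1 := hT'a i (by omega)
        rw [Ex_succ]
        have h2 : av (k + 1) (fun c => Ex (k + 1) i (fun z => ψ (T (c :: z)))) =
            Ex (k + 1) i (fun z => av (k + 1) (fun c =>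
              ψ (X ++ c :: (sub (k + 1) W c ++ (y1 ++ T' z))))) := by
          rw [(isMean_Ex hκ i).av_comm]
          simp only [hTc]
        rw [h2]
        refine le_trans (le_of_eq ?_) h1
        push_cast
        ring

/-- Lemma 7 -/
theorem stmtL7 : StmtL7 := by
  intro k hk hall r
  have hκ : 0 < k + 1 := by omega
  induction r with
  | zero => intro m c eps h; omega
  | succ r ih =>
    intro m c eps _ hc heps
    rcases Nat.eq_zero_or_pos r with rfl | hr
    · -- one set
      obtain ⟨n, hn, h6⟩ := stmtL6 k hk hall m c (eps / (2 * m + 2)) hc (by positivity)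
      refine ⟨n, hn, fun a H ha hH ψ hψ u hu hu1 hsc => ?_⟩
      have hm : ∀ i : ℕ, i ≤ m → 2 * (i : ℝ) * (eps / (2 * m + 2)) ≤ eps := by
        intro i hi
        have hi' : (i : ℝ) ≤ m := by exact_mod_cast hi
        rw [mul_div_assoc', div_le_iff₀ (by positivity)]
        nlinarith
      obtain ⟨T, hT, hTH, hTa⟩ := h6 (a 0) (H 0) (ha 0 (by omega)) (hH 0 (by omega)) ψ hψ u
        ((hm m le_rfl).trans hu) hu1 (by
          refine hsc.trans (le_of_eq ?_)
          congr 1
          funext y
          congr 1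
          refine ind_congr ⟨fun h => h 0 (by omega), fun h i hi => ?_⟩
          obtain rfl : i = 0 := by omega
          exact h)
      refine ⟨T, hT, fun z hz i hi => ?_, fun i hi => ?_⟩
      · obtain rfl : i = 0 := by omega
        exact hTH z hz
      · have := hTa i hi
        have := hm i hi
        linarith
    · obtain ⟨n7, hn7, h7⟩ := ih m (c / 4) eps hr (by positivity) heps
      obtain ⟨m1, rfl⟩ : ∃ m1, n7 = m1 + 1 := ⟨n7 - 1, by omega⟩
      obtain ⟨n, hn, h6⟩ := stmtL6 k hk hall m1 (c / 4) (c / (16 * m1 + 16)) (by positivity)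
        (by positivity)
      refine ⟨n, hn, fun a H ha hH ψ hψ u hu hu1 hsc => ?_⟩
      have hu0 : 0 ≤ u := heps.le.trans hu
      have hc1 : c ≤ 1 := by
        refine hsc.trans ((isMean_FW hκ hn).le_of fun y _ => ?_)
        have h1 := ind_nonneg (∀ i < r + 1, y ∈ H i)
        have h2 := ind_le_one (∀ i < r + 1, y ∈ H i)
        have h3 := hψ y
        nlinarith
      set P : List ℕ → Prop := fun y => ∀ i < r, y ∈ H (i + 1) with hP
      set φ : List ℕ → ℝ := fun y => ind (P y) * (ψ y - u) with hφ
      have hφ1 : ∀ y, -1 ≤ φ y ∧ φ y ≤ 1 := by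
        intro y
        have h1 := ind_nonneg (P y)
        have h2 := ind_le_one (P y)
        have h3 := hψ y
        constructor <;> (rw [hφ]; dsimp only; nlinarith)
      have hm1 : ∀ i : ℕ, i ≤ m1 → 2 * (i : ℝ) * (c / (16 * m1 + 16)) ≤ c / 8 := by
        intro i hi
        have hi' : (i : ℝ) ≤ m1 := by exact_mod_cast hi
        rw [mul_div_assoc', div_le_iff₀ (by positivity)]
        nlinarith
      obtain ⟨T1, hT1, hT1H, hT1a⟩ := h6 (a 0) (H 0) (ha 0 (by omega)) (hH 0 (by omega))
        (fun y => (φ y + 1) / 2) (fun y => ⟨by linarith [(hφ1 y).1], by linarith [(hφ1 y).2]⟩)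
        (1 / 2 + c / 4) ((hm1 m1 le_rfl).trans (by linarith)) (by linarith) (by
          have h1 : FW (k + 1) n (fun y => ind (y ∈ H 0) * ((φ y + 1) / 2 - (1 / 2 + c / 4))) =
              1 / 2 * FW (k + 1) n (fun y => ind (∀ i < r + 1, y ∈ H i) * (ψ y - u)) -
                c / 4 * FW (k + 1) n (fun y => ind (y ∈ H 0)) := by
            rw [← (isMean_FW hκ hn).smul, ← (isMean_FW hκ hn).smul, ← (isMean_FW hκ hn).sub]
            congr 1
            funext y
            have h2 : ind (∀ i < r + 1, y ∈ H i) = ind (y ∈ H 0) * ind (P y) := by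
              rw [← ind_and]
              refine ind_congr ⟨fun h => ⟨h 0 (by omega), fun i hi => h (i + 1) (by omega)⟩,
                fun h i hi => ?_⟩
              rcases i with _ | i
              · exact h.1
              · exact h.2 i (by omega)
            rw [h2, hφ]
            dsimp only
            ring
          rw [h1]
          have h2 : FW (k + 1) n (fun y => ind (y ∈ H 0)) ≤ 1 :=
            (isMean_FW hκ hn).le_of fun _ _ => ind_le_one _
          nlinarith)
      have hφT : ∀ i ≤ m1, c / 4 ≤ Ex (k + 1) i (fun z => φ (T1 z)) := by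
        intro i hi
        have h1 := hT1a i hi
        have h2 : Ex (k + 1) i (fun z => (φ (T1 z) + 1) / 2) =
            (Ex (k + 1) i (fun z => φ (T1 z)) + 1) / 2 := by
          have h3 := (isMean_Ex hκ i).mul_const (fun z => φ (T1 z) + 1) (1 / 2)
          rw [(isMean_Ex hκ i).add_const] at h3
          rw [div_eq_mul_one_div, ← h3]
          congr 1
          funext z
          ring
        rw [h2] at h1
        have := hm1 i hi
        linarith
      obtain ⟨T2, hT2, hT2H, hT2a⟩ := h7 (fun i => a (i + 1)) (fun i => {z | T1 z ∈ H (i + 1)})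
        (fun i hi => ha (i + 1) (by omega)) (fun i hi x x' hx hx' h1 h2 => by
          have h3 := hT1.t3 k (a (i + 1)) x x' hx hx' h1
          exact hH (i + 1) (by omega) (T1 x) (T1 x') (hT1.maps x hx) (hT1.maps x' hx') h3 h2)
        (fun z => ψ (T1 z)) (fun z => hψ _) u hu hu1 (by
          unfold FW
          refine (isMean_av hn7).ge_of fun i hi => ?_
          have hi' : i < m1 + 1 := hi
          exact hφT i (by omega))
      refine ⟨fun z => T1 (T2 z), Tree.comp hκ hT1 hT2, fun z hz i hi => ?_, fun i hi => hT2a i hi⟩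
      rcases i with _ | i
      · exact hT1H _ (hT2.maps z hz)
      · exact hT2H z hz i (by omega)

/-- **The density Carlson-Simpson theorem** in dimension one, Furstenberg-Weiss form. -/
theorem DCSall_pos {k : ℕ} (hk : 0 < k) : DCSall k := DCSall_of stmtL7 hk

/-- **The density Carlson-Simpson theorem** in dimension one: for all `κ ≥ 1` and `δ > 0` there is
`n` such that for any `n` levels `lam 0 < lam 1 < ..` and any set `E` of words over `κ` letters, of
average density at least `δ` on these levels, there are a word `x` and a variable word `w` with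
`x` and all `x c w[c]` in `E`, on two of these levels. -/
theorem density_carlson_simpson {κ : ℕ} (hκ : 0 < κ) {δ : ℝ} (hδ : 0 < δ) :
    ∃ n, 0 < n ∧ ∀ lam : ℕ → ℕ, StrictMono lam → ∀ E : Set (List ℕ),
      δ ≤ av n (fun i => Ex κ (lam i) (fun x => ind (x ∈ E))) →
      ∃ i j : ℕ, ∃ x w : List ℕ, i < j ∧ j < n ∧ Wd κ (lam i) x ∧ Lt (κ + 1) w ∧
        x.length + 1 + w.length = lam j ∧ Line κ x w E := by
  obtain ⟨n, hn, hD⟩ := DCSall_pos hκ δ hδ
  exact ⟨n, hn, fun lam hlam E hE => dcs_levels hκ hn hD hlam hE⟩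

end Pool.Agent.OVW.BN
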