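import Pool.Agent.OVW.BN.Tree

/-!
# Lemmas 1-4: the forms of the density Carlson-Simpson property
-/

namespace Pool.Agent.OVW.BN

open Finset

/-- Lemma 1 (any levels). -/
lemma dcs_levels {κ : ℕ} (hκ : 0 < κ) {δ : ℝ} {n : ℕ} (hn : 0 < n) (hD : DCS κ δ n)
    {lam : ℕ → ℕ} (hlam : StrictMono lam) {E : Set (List ℕ)}
    (hE : δ ≤ av n (fun i => Ex κ (lam i) (fun x => ind (x ∈ E)))) :
    ∃ i j : ℕ, ∃ x w : List ℕ, i < j ∧ j < n ∧ Wd κ (lam i) x ∧ Lt (κ + 1) w ∧
      x.length + 1 + w.length = lam j ∧ Line κ x w E := by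
  have h1 : δ ≤ Ex κ (lam (n - 1)) (fun y => FW κ n (fun z => ind (Phi lam y z ∈ E))) := by
    refine hE.trans (le_of_eq ?_)
    unfold FW
    rw [(isMean_Ex hκ _).av_comm]
    refine (isMean_av hn).congr fun r hr => ?_
    rw [← Ex_Phi hκ hlam (hlam.monotone (show r ≤ n - 1 by have : r < n := hr; omega))]
  obtain ⟨y, hy, h2⟩ := (isMean_Ex hκ _).ex_ge h1
  have h3 : ¬ Free κ n {z | Phi lam y z ∈ E} := fun hF => absurd (hD _ hF) (not_lt.2 h2)
  unfold Free at h3
  push Not at h3
  obtain ⟨x, w, hx, hw, hlen, hL⟩ := h3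
  have hT := Phi_tree (m := n - 1) hlam hy (Nat.lt_succ_self _) le_rfl
  obtain ⟨v, hv, h4⟩ := hT.t1 x w hx hw (by omega)
  have hxl : lam x.length ≤ lam (n - 1) := hlam.monotone (by omega)
  have hjl : lam (x.length + 1 + w.length) ≤ lam (n - 1) := hlam.monotone (by omega)
  refine ⟨x.length, x.length + 1 + w.length, Phi lam y x, v, by omega, hlen,
    Phi_wd hlam hy hx hxl, hv, ?_, hL.1, fun c hc => ?_⟩
  · have h5 : (x ++ 0 :: sub κ w 0).length = x.length + 1 + w.length := by simp; omega
    have h6 := Phi_wd hlam hy (hx.append (Lt.cons hκ (lt_sub' hw hκ))) (by rw [h5]; exact hjl)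
    have h7 := h6.1
    rw [h4 0 hκ, h5] at h7
    rw [← h7]
    simp
    omega
  · rw [← h4 c hc]
    exact hL.2 c hc

/-- a finite set of levels is enumerated by a strictly increasing function -/
lemma exists_enum (L : Finset ℕ) : ∃ lam : ℕ → ℕ, StrictMono lam ∧ ∀ i < L.card, lam i ∈ L := by
  classical
  refine ⟨fun i => if hi : i < L.card then L.orderEmbOfFin rfl ⟨i, hi⟩ else L.sup id + 1 + i,
    fun i j hij => ?_, fun i hi => ?_⟩
  · dsimp only
    by_cases hj : j < L.card
    · have hi : i < L.card := hij.trans hj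
      rw [dif_pos hi, dif_pos hj]
      exact (L.orderEmbOfFin rfl).strictMono (by exact hij)
    · rw [dif_neg hj]
      by_cases hi : i < L.card
      · rw [dif_pos hi]
        have : L.orderEmbOfFin rfl ⟨i, hi⟩ ≤ L.sup id :=
          Finset.le_sup (f := id) (L.orderEmbOfFin_mem rfl ⟨i, hi⟩)
        omega
      · rw [dif_neg hi]
        omega
  · dsimp only
    rw [dif_pos hi]
    exact L.orderEmbOfFin_mem rfl ⟨i, hi⟩

/-- the words of length smaller than `n` -/
def wordsF (κ : ℕ) : ℕ → Finset (List ℕ)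
  | 0 => ∅
  | n + 1 => insert [] ((range κ ×ˢ wordsF κ n).image (fun p => p.1 :: p.2))

lemma mem_wordsF {κ n : ℕ} {x : List ℕ} : x ∈ wordsF κ n ↔ WL κ n x := by
  induction n generalizing x with
  | zero => simp [wordsF, WL]
  | succ n ih =>
    rw [wordsF, Finset.mem_insert, Finset.mem_image]
    constructor
    · rintro (h | ⟨p, hp, rfl⟩)
      · rw [h]; exact ⟨by simp, by simp⟩
      · rw [Finset.mem_product, Finset.mem_range, ih] at hp
        refine ⟨by have := hp.2.1; simp; omega, ?_⟩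
        exact Lt.cons hp.1 hp.2.2
    · intro h
      cases x with
      | nil => exact Or.inl rfl
      | cons c x =>
        right
        refine ⟨(c, x), ?_, rfl⟩
        rw [Finset.mem_product, Finset.mem_range, ih]
        have h2 := lt_cons.1 h.2
        have h3 := h.1
        rw [List.length_cons] at h3
        exact ⟨h2.1, Nat.lt_of_succ_lt_succ h3, h2.2⟩

open Classical in
/-- the lines on the levels smaller than `n` -/
noncomputable def lines (κ n : ℕ) : Finset (List ℕ × List ℕ) :=
  (wordsF κ n ×ˢ wordsF (κ + 1) n).filter (fun p => p.1.length + 1 + p.2.length < n)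

lemma mem_lines {κ n : ℕ} {x w : List ℕ} :
    (x, w) ∈ lines κ n ↔ Lt κ x ∧ Lt (κ + 1) w ∧ x.length + 1 + w.length < n := by
  unfold lines
  rw [Finset.mem_filter, Finset.mem_product, mem_wordsF, mem_wordsF]
  constructor
  · rintro ⟨⟨h1, h2⟩, h3⟩
    exact ⟨h1.2, h2.2, h3⟩
  · rintro ⟨h1, h2, h3⟩
    dsimp only at h3 ⊢
    exact ⟨⟨⟨by omega, h1⟩, ⟨by omega, h2⟩⟩, h3⟩

/-- Lemma 2 (random sets). -/
lemma dcs_random {κ : ℕ} (hκ : 0 < κ) {Ω : Type*} {S : Set Ω} {μ : (Ω → ℝ) → ℝ} (hμ : IsMean S μ)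
    {d : ℝ} (hd : 0 < d) {h : ℕ} (hh : 0 < h) (hD : DCS κ (d / 2) h) (Es : Ω → Set (List ℕ))
    (hE : ∀ z, WL κ h z → d ≤ μ (fun ω => ind (z ∈ Es ω))) :
    ∃ p ∈ lines κ h, d / 2 / (lines κ h).card ≤ μ (fun ω => ind (Line κ p.1 p.2 (Es ω))) := by
  have h1 : d / 2 + d / 2 ≤ μ (fun ω => FW κ h (fun z => ind (z ∈ Es ω))) := by
    rw [hμ.FW_comm, add_halves]
    exact (isMean_FW hκ hh).ge_of hE
  have h2 := hμ.markov (by positivity) (fun ω _ => (isMean_FW hκ hh).le_of
    (fun z _ => ind_le_one _)) h1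
  have h3 : d / 2 ≤ ∑ p ∈ lines κ h, μ (fun ω => ind (Line κ p.1 p.2 (Es ω))) := by
    rw [← hμ.sum]
    refine h2.trans (hμ.mono fun ω _ => ?_)
    by_cases hx : d / 2 ≤ FW κ h (fun z => ind (z ∈ Es ω))
    · rw [ind_true hx]
      have h4 : ¬ Free κ h (Es ω) := fun hF => absurd (hD _ hF) (not_lt.2 hx)
      unfold Free at h4
      push Not at h4
      obtain ⟨x, w, hx, hw, hlen, hL⟩ := h4
      have h5 : (x, w) ∈ lines κ h := mem_lines.2 ⟨hx, hw, hlen⟩
      refine le_trans (le_of_eq ?_) (Finset.single_le_sum (fun p _ => ind_nonneg _) h5)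
      exact (ind_true hL).symm
    · rw [ind_false hx]
      exact Finset.sum_nonneg fun p _ => ind_nonneg _
  have hne : (lines κ h).Nonempty := by
    by_contra hcon
    rw [Finset.not_nonempty_iff_eq_empty] at hcon
    rw [hcon, Finset.sum_empty] at h3
    linarith
  have hc : (0 : ℝ) < (lines κ h).card := by
    exact_mod_cast Finset.card_pos.2 hne
  obtain ⟨p, hp, h6⟩ := Finset.exists_le_of_sum_le (s := lines κ h)
    (f := fun _ => d / 2 / (lines κ h).card)
    (g := fun p => μ (fun ω => ind (Line κ p.1 p.2 (Es ω)))) hne (by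
      rw [Finset.sum_const, nsmul_eq_mul, mul_div_cancel₀ _ hc.ne']
      exact h3)
  exact ⟨p, hp, h6⟩

/-- Lemma 3 (one top level). -/
lemma dcs_top {κ : ℕ} (hκ : 0 < κ) {c : ℝ} {h : ℕ} (hh : 0 < h) (hD : DCS κ c h) {N : ℕ}
    {Q G : Set (List ℕ)} {L : Finset ℕ} (hL : ∀ l ∈ L, l < N) (hcard : h ≤ L.card)
    (hp : ∀ l ∈ L, c ≤ Ex κ N (fun t => ind (t.take l ∈ Q ∧ t ∈ G))) :
    ∃ l ∈ L, ∃ x w : List ℕ, Wd κ l x ∧ Lt (κ + 1) w ∧ l + 1 + w.length = N ∧ x ∈ Q ∧
      ∀ c < κ, x ++ c :: sub κ w c ∈ G := by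
  classical
  have h1 : ∀ l ∈ L, ∃ f, Wd κ (N - l) f ∧ c ≤ Ex κ l (fun x => ind (x ∈ Q ∧ x ++ f ∈ G)) := by
    intro l hl
    have h2 := hp l hl
    have h3 : N = l + (N - l) := by have := hL l hl; omega
    rw [h3, Ex_add, (isMean_Ex hκ l).Ex_comm] at h2
    obtain ⟨f, hf, h4⟩ := (isMean_Ex hκ _).ex_ge h2
    refine ⟨f, hf, h4.trans (le_of_eq ?_)⟩
    refine (isMean_Ex hκ l).congr fun x hx => ?_
    have hx' : l = x.length := hx.1.symm
    subst hx'
    rw [List.take_left']
    rfl
  choose! f hf hf2 using h1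
  obtain ⟨lam, hlam, hmem⟩ := exists_enum L
  obtain ⟨i, j, x, w, hij, hj, hx, hw, hlen, hline⟩ := dcs_levels hκ hh hD hlam
    (E := {x | x ∈ Q ∧ x ++ f x.length ∈ G}) (by
      refine (isMean_av hh).ge_of fun i hi => ?_
      have hi' : lam i ∈ L := hmem i (lt_of_lt_of_le hi hcard)
      refine (hf2 _ hi').trans (le_of_eq ?_)
      refine (isMean_Ex hκ _).congr fun x hx => ?_
      have hx' : x.length = lam i := hx.1
      simp only [Set.mem_ofPred_eq, hx'])
  have hi' : lam i ∈ L := hmem i (by omega)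
  have hj' : lam j ∈ L := hmem j (by omega)
  have hjN := hL _ hj'
  refine ⟨lam i, hi', x, w ++ f (lam j), hx, hw.append (Lt.mono (hf _ hj').2 (by omega)), ?_,
    hline.1.1, fun c hc => ?_⟩
  · have := (hf _ hj').1
    rw [List.length_append, this, ← hx.1]
    omega
  · have h5 := (hline.2 c hc).2
    have h6 : (x ++ c :: sub κ w c).length = lam j := by
      rw [← hlen]; simp; omega
    rw [h6] at h5
    rw [sub_append, sub_of_lt (hf _ hj').2]
    simpa using h5

/-- keep the letters `b` of `s`, and take the other letters from `u` -/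
def mix (b : ℕ) (s u : List ℕ) : List ℕ := List.zipWith (fun s u => if s = b then b else u) s u

/-- the same for variable words -/
def mixv (b : ℕ) (s w : List ℕ) : List ℕ :=
  List.zipWith (fun s o => if s = b then b else if o = b then b + 1 else o) s w

lemma mix_cons (b d c : ℕ) (s u : List ℕ) :
    mix b (d :: s) (c :: u) = (if d = b then b else c) :: mix b s u := rfl

lemma mixv_cons (b d c : ℕ) (s u : List ℕ) :
    mixv b (d :: s) (c :: u) = (if d = b then b else if c = b then b + 1 else c) :: mixv b s u := rfl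

lemma mix_sub (b : ℕ) {s w : List ℕ} (hw : Lt (b + 1) w) (c : ℕ) :
    mix b s (sub b w c) = sub (b + 1) (mixv b s w) c := by
  induction s generalizing w with
  | nil => simp [mix, mixv]
  | cons d s ih =>
    cases w with
    | nil => simp [mix, mixv]
    | cons o w =>
      rw [lt_cons] at hw
      rw [sub_cons, mix_cons, mixv_cons, sub_cons, ih hw.2]
      congr 1
      by_cases h1 : d = b
      · simp [h1]
      · by_cases h2 : o = b
        · simp [h1, h2]
        · simp only [h1, h2, if_false]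
          rw [if_neg (by omega)]

lemma mix_wd {b l : ℕ} {s u : List ℕ} (hs : Wd (b + 1) l s) (hu : Lt b u) (hl : u.length ≤ l) :
    Wd (b + 1) u.length (mix b s u) := by
  refine ⟨by rw [mix, List.length_zipWith, hs.1]; omega, ?_⟩
  obtain ⟨-, hs⟩ := hs
  clear hl
  change Lt (b + 1) s at hs
  change Lt (b + 1) (mix b s u)
  induction s generalizing u with
  | nil => simp [mix, Lt]
  | cons d s ih =>
    cases u with
    | nil => simp [mix, Lt]
    | cons c u =>
      rw [lt_cons] at hs hu
      rw [mix_cons, lt_cons]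
      refine ⟨?_, ih hu.2 hs.2⟩
      split_ifs <;> omega

lemma mixv_wd {b l : ℕ} {s w : List ℕ} (hs : s.length = l) (hw : Lt (b + 1) w)
    (hl : w.length = l) : Wd (b + 2) l (mixv b s w) := by
  subst hs
  refine ⟨by rw [mixv, List.length_zipWith, hl]; simp, ?_⟩
  change Lt (b + 2) (mixv b s w)
  clear hl
  induction s generalizing w with
  | nil => simp [mixv, Lt]
  | cons d s ih =>
    cases w with
    | nil => simp [mixv, Lt]
    | cons c w =>
      rw [lt_cons] at hw
      rw [mixv_cons, lt_cons]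
      refine ⟨?_, ih hw.2⟩
      split_ifs <;> omega

/-- if `s` is uniform over `k + 1` letters and `u` over `k` letters, then `mix k s u` is uniform -/
lemma Ex_mix {k : ℕ} (hk : 0 < k) (l : ℕ) (F : List ℕ → ℝ) :
    Ex (k + 1) l (fun s => Ex k l (fun u => F (mix k s u))) = Ex (k + 1) l F := by
  induction l generalizing F with
  | zero => rfl
  | succ l ih =>
    have h1 : ∀ g : ℕ → ℝ, av (k + 1) (fun d => av k (fun c => g (if d = k then k else c))) =
        av (k + 1) g := by
      intro g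
      have h2 : (k : ℝ) ≠ 0 := by positivity
      unfold av
      rw [Finset.sum_range_succ, Finset.sum_range_succ]
      congr 1
      congr 1
      · have h3 : ∀ d ∈ range k, (∑ c ∈ range k, g (if d = k then k else c)) / (k : ℝ) =
            (∑ c ∈ range k, g c) / (k : ℝ) := by
          intro d hd
          rw [Finset.mem_range] at hd
          simp only [hd.ne, if_false]
        rw [Finset.sum_congr rfl h3, Finset.sum_const, card_range, nsmul_eq_mul]
        field_simp
      · simp [h2]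
    rw [Ex_succ, Ex_succ, ← h1 (fun c => Ex (k + 1) l (fun x => F (c :: x)))]
    congr 1
    funext d
    have h4 : ∀ s, Ex k (l + 1) (fun u => F (mix k (d :: s) u)) =
        av k (fun c => Ex k l (fun u => F ((if d = k then k else c) :: mix k s u))) := by
      intro s
      rfl
    simp only [h4]
    rw [(isMean_Ex (by omega) l).av_comm]
    congr 1
    funext c
    exact ih (fun x => F ((if d = k then k else c) :: x))

/-- Lemma 4 (insensitive top level). -/
lemma dcs_insens {k : ℕ} (hk : 0 < k) {β : ℝ} (hβ : 0 < β) {h : ℕ} (hh : 0 < h)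
    (hD : DCS k (β / 4) h) {a : ℕ} (ha : a < k) {N : ℕ} {Q G : Set (List ℕ)}
    (hG : ∀ x x', Wd (k + 1) N x → Wd (k + 1) N x' → sub k x a = sub k x' a → x ∈ G → x' ∈ G)
    {L : Finset ℕ} (hL : ∀ l ∈ L, l < N) (hcard : 4 / β * h ≤ L.card)
    (hp : ∀ l ∈ L, β ≤ Ex (k + 1) N (fun t => ind (t.take l ∈ Q ∧ t ∈ G))) :
    ∃ l ∈ L, ∃ x w : List ℕ, Wd (k + 1) l x ∧ Lt (k + 2) w ∧ l + 1 + w.length = N ∧ x ∈ Q ∧
      ∀ c < k + 1, x ++ c :: sub (k + 1) w c ∈ G := by
  classical
  have hκ : 0 < k + 1 := by omega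
  -- step 1
  have h1 : ∀ l ∈ L, β / 2 ≤
      Ex (k + 1) N (fun t => ind (t[l]? ≠ some k ∧ t.take l ∈ Q ∧ t ∈ G)) := by
    intro l hl
    have hlN := hL l hl
    have h2 : Ex (k + 1) N (fun t => ind (t[l]? = some k ∧ t.take l ∈ Q ∧ t ∈ G)) ≤
        Ex (k + 1) N (fun t => ind (t[l]? ≠ some k ∧ t.take l ∈ Q ∧ t ∈ G)) := by
      rw [← Ex_set hκ hlN, ← Ex_set hκ hlN
        (fun t => ind (t[l]? ≠ some k ∧ t.take l ∈ Q ∧ t ∈ G))]
      refine (isMean_Ex hκ N).mono fun t ht => ?_
      unfold av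
      gcongr ?_ / _
      have h3 : ∀ c, (t.set l c)[l]? = some c := fun c => by
        rw [List.getElem?_set_self (by rw [ht.1]; exact hlN)]
      have h4 : ∀ c, (t.set l c).take l = t.take l := fun c => by
        rw [List.take_set_of_le (le_refl l)]
      simp only [h3, h4]
      calc ∑ i ∈ range (k + 1), ind (some i = some k ∧ t.take l ∈ Q ∧ t.set l i ∈ G)
          = ind (t.take l ∈ Q ∧ t.set l k ∈ G) := by
            rw [Finset.sum_eq_single k]
            · exact ind_congr (by simp)
            · intro c _ hc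
              exact ind_false (by simp [hc])
            · simp
        _ ≤ ind (t.take l ∈ Q ∧ t.set l a ∈ G) := by
            refine ind_mono fun h5 => ⟨h5.1, hG _ _ (ht.set (by omega)) (ht.set (by omega)) ?_ h5.2⟩
            have h6 : ∀ c, (t.set l c) = t.take l ++ c :: t.drop (l + 1) := fun c => by
              rw [List.set_eq_take_append_cons_drop, if_pos (by rw [ht.1]; exact hlN)]
            rw [h6, h6, sub_append, sub_append, sub_cons, sub_cons, if_pos rfl, if_neg ha.ne]
        _ ≤ ∑ i ∈ range (k + 1), ind (some i ≠ some k ∧ t.take l ∈ Q ∧ t.set l i ∈ G) := by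
            refine le_trans (le_of_eq ?_) (Finset.single_le_sum (fun i _ => ind_nonneg _)
              (Finset.mem_range.2 (show a < k + 1 by omega)))
            exact ind_congr (by simp [ha.ne])
    have h5 : Ex (k + 1) N (fun t => ind (t.take l ∈ Q ∧ t ∈ G)) =
        Ex (k + 1) N (fun t => ind (t[l]? = some k ∧ t.take l ∈ Q ∧ t ∈ G)) +
        Ex (k + 1) N (fun t => ind (t[l]? ≠ some k ∧ t.take l ∈ Q ∧ t ∈ G)) := by
      rw [← (isMean_Ex hκ N).add]
      refine (isMean_Ex hκ N).congr fun t ht => ?_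
      by_cases h6 : t[l]? = some k <;> simp [h6, ind]
    have h6 := hp l hl
    linarith
  -- step 2
  have h2 : ∀ l ∈ L, β / 2 ≤ Ex (k + 1) N (fun s => ind (s[l]? ≠ some k) *
      Ex k N (fun u => ind ((mix k s u).take l ∈ Q ∧ mix k s u ∈ G))) := by
    intro l hl
    refine (h1 l hl).trans (le_of_eq ?_)
    rw [← Ex_mix hk]
    refine (isMean_Ex hκ N).congr fun s hs => ?_
    rw [← (isMean_Ex hk N).smul]
    refine (isMean_Ex hk N).congr fun u hu => ?_
    rw [ind_and]
    congr 1
    refine ind_congr ?_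
    have hlN := hL l hl
    have h3 : l < s.length := by rw [hs.1]; exact hlN
    have h4 : l < u.length := by rw [hu.1]; exact hlN
    rw [mix, List.getElem?_zipWith, List.getElem?_eq_getElem h3, List.getElem?_eq_getElem h4]
    simp only [ne_eq, Option.some.injEq]
    by_cases h5 : s[l] = k
    · simp [h5]
    · have := hu.2 u[l] (List.getElem_mem h4)
      simp [h5, this.ne]
  have hLne : L.Nonempty := by
    rw [← Finset.card_pos]
    have : (0 : ℝ) < L.card := lt_of_lt_of_le (by positivity) hcard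
    exact_mod_cast this
  obtain ⟨s, hs, h3⟩ : ∃ s, Wd (k + 1) N s ∧ β / 2 * L.card ≤ ∑ l ∈ L, ind (s[l]? ≠ some k) *
      Ex k N (fun u => ind ((mix k s u).take l ∈ Q ∧ mix k s u ∈ G)) := by
    refine (isMean_Ex hκ N).ex_ge ?_
    rw [(isMean_Ex hκ N).sum]
    calc β / 2 * L.card = ∑ l ∈ L, β / 2 := by rw [Finset.sum_const, nsmul_eq_mul]; ring
      _ ≤ _ := Finset.sum_le_sum h2
  set p : ℕ → ℝ := fun l => Ex k N (fun u => ind ((mix k s u).take l ∈ Q ∧ mix k s u ∈ G)) with hpdef
  set L1 : Finset ℕ := L.filter (fun l => s[l]? ≠ some k ∧ β / 4 ≤ p l) with hL1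
  have h4 : (h : ℝ) ≤ L1.card := by
    have h5 : ∑ l ∈ L, ind (s[l]? ≠ some k) * p l ≤ ∑ l ∈ L, (ind (l ∈ L1) + β / 4) := by
      refine Finset.sum_le_sum fun l hl => ?_
      have h6 : 0 ≤ p l := (isMean_Ex hk N).nonneg fun _ _ => ind_nonneg _
      have h6' : p l ≤ 1 := (isMean_Ex hk N).le_of fun _ _ => ind_le_one _
      by_cases h7 : s[l]? ≠ some k
      · rw [ind_true h7, one_mul]
        by_cases h8 : β / 4 ≤ p l
        · rw [ind_true (Finset.mem_filter.2 ⟨hl, h7, h8⟩)]
          linarith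
        · have := ind_nonneg (l ∈ L1)
          linarith [not_le.1 h8]
      · rw [ind_false h7, zero_mul]
        have := ind_nonneg (l ∈ L1)
        linarith
    rw [Finset.sum_add_distrib, Finset.sum_const, nsmul_eq_mul] at h5
    have h6 : ∑ l ∈ L, ind (l ∈ L1) = L1.card := by
      have : ∀ l, ind (l ∈ L1) = if l ∈ L1 then 1 else 0 := fun l => by
        by_cases hl : l ∈ L1 <;> simp [hl, ind]
      simp only [this]
      rw [Finset.sum_ite_mem, Finset.inter_eq_right.2 (Finset.filter_subset _ _),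
        Finset.sum_const, nsmul_eq_mul, mul_one]
    rw [h6] at h5
    have h7 : β / 4 * (4 / β * h) ≤ β / 4 * L.card := by gcongr
    have h8 : β / 4 * (4 / β * h) = h := by field_simp
    linarith
  -- step 3
  obtain ⟨l, hl, x, w, hx, hw, hlen, hxQ, hline⟩ := dcs_top (κ := k) hk hh hD (N := N)
    (Q := {v | mix k (s.take v.length) v ∈ Q}) (G := {u | mix k s u ∈ G}) (L := L1)
    (fun l hl => hL l (Finset.mem_filter.1 hl).1) (by exact_mod_cast h4) (by
      intro l hl
      have h5 := (Finset.mem_filter.1 hl).2.2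
      refine h5.trans (le_of_eq ?_)
      refine (isMean_Ex hk N).congr fun u hu => ?_
      have hlN := hL l (Finset.mem_filter.1 hl).1
      have h6 : (u.take l).length = l := by rw [List.length_take, hu.1]; omega
      refine ind_congr ?_
      simp only [Set.mem_ofPred_eq, h6]
      rw [mix, mix, List.take_zipWith])
  have hlL := (Finset.mem_filter.1 hl).1
  have hlk := (Finset.mem_filter.1 hl).2.1
  have hlN := hL l hlL
  have hsl : s.length = N := hs.1
  have hdrop : (s.drop (l + 1)).length = w.length := by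
    rw [List.length_drop, hsl]; omega
  have hs2 : s = s.take l ++ s[l]'(by omega) :: s.drop (l + 1) := by
    rw [← List.drop_eq_getElem_cons (by omega), List.take_append_drop]
  have hslk : s[l]'(by omega) ≠ k := by
    intro h5
    apply hlk
    rw [List.getElem?_eq_getElem (by omega), h5]
  have hmix : ∀ c, mix k s (x ++ c :: sub k w c) =
      mix k (s.take l) x ++ c :: sub (k + 1) (mixv k (s.drop (l + 1)) w) c := by
    intro c
    rw [← mix_sub k hw c]
    conv_lhs => rw [hs2]
    rw [mix, List.zipWith_append (by rw [List.length_take, hx.1]; omega)]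
    simp only [List.zipWith_cons_cons, if_neg hslk]
    rfl
  have hxw : Wd (k + 1) l (mix k (s.take l) x) := by
    have h5 : Wd (k + 1) l (s.take l) := hs.take hlN.le
    have h6 := mix_wd h5 hx.2 (by rw [hx.1])
    rwa [hx.1] at h6
  have hww := mixv_wd (b := k) hdrop hw rfl
  refine ⟨l, hlL, mix k (s.take l) x, mixv k (s.drop (l + 1)) w, hxw, hww.2, by rw [hww.1]; exact hlen,
    ?_, ?_⟩
  · have : mix k (s.take x.length) x ∈ Q := hxQ
    rwa [hx.1] at this
  · intro c hc
    have h5 : ∀ c < k, mix k (s.take l) x ++ c :: sub (k + 1) (mixv k (s.drop (l + 1)) w) c ∈ G := by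
      intro c hc
      rw [← hmix c]
      exact hline c hc
    rcases Nat.lt_succ_iff_lt_or_eq.1 hc with h6 | h6
    · exact h5 c h6
    · subst h6
      have h7 : ∀ c' < c + 1, Wd (c + 1) N (mix c (s.take l) x ++
          c' :: sub (c + 1) (mixv c (s.drop (l + 1)) w) c') := by
        intro c' hc'
        have h8 : Wd (c + 1) w.length (sub (c + 1) (mixv c (s.drop (l + 1)) w) c') :=
          ⟨by rw [length_sub, hww.1], lt_sub' hww.2 hc'⟩
        have h9 := hxw.append (Wd.cons hc' h8)
        have h10 : l + (w.length + 1) = N := by omega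
        rwa [h10] at h9
      refine hG _ _ (h7 a (by omega)) (h7 c (by omega)) ?_ (h5 a ha)
      rw [sub_append, sub_append, sub_cons, sub_cons, if_pos rfl, if_neg ha.ne]
      congr 2
      exact sub_sub_congr (by rw [if_pos rfl, if_neg ha.ne]) _

end Pool.Agent.OVW.BN
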