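import Pool.Agent.OVW.BN.StmtB

/-!
# Lemma 5
-/

namespace Pool.Agent.OVW.BN

open Finset

lemma Insens.mono {k n n' a : ℕ} {H : Set (List ℕ)} (h : Insens k n a H) (hn : n' ≤ n) :
    Insens k n' a H := fun x x' hx hx' => h x x' ⟨by have := hx.1; omega, hx.2⟩
      ⟨by have := hx'.1; omega, hx'.2⟩

/-- substates: contexts -/
lemma Insens.context {k n n' a : ℕ} {H : Set (List ℕ)} (h : Insens k n a H) {t : List ℕ}
    (ht : Lt (k + 1) t) (hn : t.length + n' ≤ n) : Insens k n' a {y | t ++ y ∈ H} := by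
  intro x x' hx hx' h1 h2
  refine h (t ++ x) (t ++ x') ⟨?_, ht.append hx.2⟩ ⟨?_, ht.append hx'.2⟩ ?_ h2
  · rw [List.length_append]; have := hx.1; omega
  · rw [List.length_append]; have := hx'.1; omega
  · rw [sub_append, sub_append, h1]

lemma FW_context {κ a q : ℕ} (hκ : 0 < κ) (hq : 0 < q) {φ : List ℕ → ℝ} {c : ℝ}
    (h : c ≤ FW κ (a * q) φ) : ∃ t, Lt κ t ∧ t.length + a ≤ a * q ∧
      c ≤ FW κ a (fun y => φ (t ++ y)) := by
  rw [FW_mul] at h
  obtain ⟨j, hj, h1⟩ := (isMean_av hq).ex_ge h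
  obtain ⟨t, ht, h2⟩ := (isMean_Ex hκ _).ex_ge h1
  have hj' : j < q := hj
  refine ⟨t, ht.2, ?_, h2⟩
  rw [ht.1]
  calc a * j + a = a * (j + 1) := by ring
    _ ≤ a * q := Nat.mul_le_mul_left _ hj'

/-- mean of a function supported at one word -/
lemma Ex_single {κ : ℕ} (hκ : 0 < κ) {l : ℕ} {x : List ℕ} (hx : Wd κ l x) (G : List ℕ → ℝ) :
    Ex κ l (fun t => ind (t = x) * G t) = G x / κ ^ l := by
  induction l generalizing x G with
  | zero =>
    have : x = [] := List.eq_nil_of_length_eq_zero hx.1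
    subst this
    simp [Ex_zero, ind_true]
  | succ l ih =>
    obtain ⟨d, x, rfl⟩ : ∃ d x', x = d :: x' := by
      cases x with
      | nil => exact absurd hx.1 (by simp)
      | cons d x => exact ⟨d, x, rfl⟩
    have hx1 : Wd κ l x := ⟨by have := hx.1; simpa using this, (lt_cons.1 hx.2).2⟩
    have hd : d < κ := (lt_cons.1 hx.2).1
    rw [Ex_succ]
    have h1 : ∀ c, Ex κ l (fun t => ind (c :: t = d :: x) * G (c :: t)) =
        ind (c = d) * (G (d :: x) / κ ^ l) := by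
      intro c
      by_cases hc : c = d
      · subst hc
        rw [ind_true rfl, one_mul, ← ih hx1 (fun t => G (c :: t))]
        congr 1
        funext t
        congr 1
        exact ind_congr (by simp)
      · rw [ind_false hc, zero_mul, ← (isMean_Ex hκ l).const 0]
        congr 1
        funext t
        rw [ind_false (by simp [hc]), zero_mul]
    simp only [h1]
    unfold av
    rw [← Finset.sum_mul, Finset.sum_eq_single d]
    · rw [ind_true rfl, pow_succ, one_mul, div_div]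
    · intro c _ hc
      exact ind_false hc
    · intro h2
      exact absurd (Finset.mem_range.2 hd) h2

/-- mean of a function supported at `κ` distinct words -/
lemma Ex_family {κ : ℕ} (hκ : 0 < κ) {l : ℕ} {X : ℕ → List ℕ} (hX : ∀ c < κ, Wd κ l (X c))
    (hinj : ∀ c < κ, ∀ c' < κ, X c = X c' → c = c') (G : List ℕ → ℝ) :
    Ex κ l (fun t => ind (∃ c < κ, t = X c) * G t) = (∑ c ∈ range κ, G (X c)) / κ ^ l := by
  have h1 : ∀ t, ind (∃ c < κ, t = X c) * G t = ∑ c ∈ range κ, ind (t = X c) * G t := by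
    intro t
    by_cases h : ∃ c < κ, t = X c
    · rw [ind_true h, one_mul]
      obtain ⟨c, hc, rfl⟩ := h
      rw [Finset.sum_eq_single c]
      · rw [ind_true rfl, one_mul]
      · intro c' hc' hne
        rw [ind_false fun h2 => hne (hinj c hc c' (Finset.mem_range.1 hc') h2).symm, zero_mul]
      · intro h2
        exact absurd (Finset.mem_range.2 hc) h2
    · rw [ind_false h, zero_mul]
      symm
      refine Finset.sum_eq_zero fun c hc => ?_
      rw [ind_false fun h2 => h ⟨c, Finset.mem_range.1 hc, h2⟩, zero_mul]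
  simp only [h1]
  rw [(isMean_Ex hκ l).sum, Finset.sum_div]
  refine Finset.sum_congr rfl fun c hc => ?_
  exact Ex_single hκ (hX c (Finset.mem_range.1 hc)) G

/-- many levels above half of the average -/
lemma card_levels {n : ℕ} (hn : 0 < n) {f : ℕ → ℝ} {d : ℝ} (hf : ∀ i < n, f i ≤ 1)
    (h : d + d ≤ av n f) (hd : 0 ≤ d) :
    ∃ L : Finset ℕ, (∀ l ∈ L, l < n ∧ d ≤ f l) ∧ d * n ≤ L.card := by
  classical
  refine ⟨(range n).filter (fun l => d ≤ f l), fun l hl => ?_, ?_⟩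
  · rw [Finset.mem_filter, Finset.mem_range] at hl
    exact hl
  · have h1 := (isMean_av hn).markov hd hf h
    have hn' : (0 : ℝ) < n := by exact_mod_cast hn
    unfold av at h1
    rw [le_div_iff₀ hn'] at h1
    refine h1.trans (le_of_eq ?_)
    rw [Finset.card_filter]
    push_cast
    refine Finset.sum_congr rfl fun i _ => ?_
    by_cases h2 : d ≤ f i <;> simp [h2, ind]

open Classical in
/-- an element of a set, chosen as a function of the set -/
noncomputable def pickP (A : Set (List ℕ × List ℕ)) : List ℕ × List ℕ :=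
  if h : A.Nonempty then h.choose else ([], [])

lemma pickP_mem {A : Set (List ℕ × List ℕ)} (h : A.Nonempty) : pickP A ∈ A := by
  unfold pickP
  rw [dif_pos h]
  exact h.choose_spec

/-- the mean of the future -/
noncomputable def nu (κ r n : ℕ) (F : List ℕ → ℝ) : ℝ :=
  Ex κ r (fun y0 => FW κ n (fun y => F (y0 ++ y)))

lemma isMean_nu {κ r n : ℕ} (hκ : 0 < κ) (hn : 0 < n) :
    IsMean {y | WL κ (r + n) y} (nu κ r n) :=
  (isMean_Ex hκ r).bind' (fun _ _ => isMean_FW hκ hn) (fun y0 y => y0 ++ y)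
    (fun _ hy0 _ hy => WL.append hy0 hy)

/-- the mean over two words -/
noncomputable def E2 (κ a b : ℕ) (F : List ℕ × List ℕ → ℝ) : ℝ :=
  Ex κ a (fun τ => Ex κ b (fun t => F (τ, t)))

lemma isMean_E2 {κ a b : ℕ} (hκ : 0 < κ) :
    IsMean {p : List ℕ × List ℕ | Wd κ a p.1 ∧ Wd κ b p.2} (E2 κ a b) :=
  (isMean_Ex hκ a).bind (fun _ _ => isMean_Ex hκ b)

/-- the mean over a word and the future -/
noncomputable def E2n (κ a r n : ℕ) (F : List ℕ × List ℕ → ℝ) : ℝ :=
  Ex κ a (fun τ => nu κ r n (fun y => F (τ, y)))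

lemma isMean_E2n {κ a r n : ℕ} (hκ : 0 < κ) (hn : 0 < n) :
    IsMean {p : List ℕ × List ℕ | Wd κ a p.1 ∧ WL κ (r + n) p.2} (E2n κ a r n) :=
  (isMean_Ex hκ a).bind (fun _ _ => isMean_nu hκ hn)

/-- Lemma 5, core -/
lemma step_core {k : ℕ} (hk : 0 < k) {c eps : ℝ} (hc : 0 < c) (heps : 0 < eps)
    {h : ℕ} (hh : 0 < h) (hD : DCS k (c ^ 2 / 32 / 4) h) {h0 : ℕ} (hh0 : 0 < h0)
    (hh0' : 4 / (c ^ 2 / 32) * h ≤ c ^ 2 / 32 * h0) {eps2 : ℝ} (heps2 : eps2 ≤ c ^ 2 / 16)
    (heps20 : 0 < eps2)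
    (heps2' : 2 * eps2 ≤ eps * ((k + 1 : ℕ) * (c ^ 2 / 16) / (k + 1 : ℕ) ^ h0))
    {q : ℕ} (hq : 0 < q) {a : ℕ} (ha : a < k) {R : Set (List ℕ)} (hR : Insens k (h0 * q * 2) a R)
    {ψ : List ℕ → ℝ} (hψ : ∀ x, 0 ≤ ψ x ∧ ψ x ≤ 1) {u : ℝ} (hu0 : 0 ≤ u)
    {s : ℝ} (hs : c ≤ s)
    (hscore : s ≤ FW (k + 1) (h0 * q * 2) (fun y => ind (y ∈ R) * (ψ y - u)))
    (hsub : ∀ (t : List ℕ) (R' : Set (List ℕ)), Lt (k + 1) t → t.length ≤ h0 * q →
      Insens k (h0 * q) a R' → (∀ y, WL (k + 1) (h0 * q) y → y ∈ R' → t ++ y ∈ R) →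
      FW (k + 1) (h0 * q) (fun y => ind (y ∈ R') * (ψ (t ++ y) - u)) ≤ s + eps2) :
    ∃ (X W : List ℕ) (H' : Set (List ℕ)), Lt (k + 1) X ∧ X ∈ R ∧ u ≤ ψ X ∧ Lt (k + 2) W ∧
      X.length + 1 + W.length = h0 * q ∧ Insens k (h0 * q) a H' ∧
      (∀ y, WL (k + 1) (h0 * q) y → y ∈ H' → ∀ c < k + 1, X ++ c :: (sub (k + 1) W c ++ y) ∈ R) ∧
      eps * c ^ 2 / 16 / (lines (k + 1) (h0 + 1)).card ≤ FW (k + 1) (h0 * q) (fun y =>
        ind (y ∈ H') * (av (k + 1) (fun c => ψ (X ++ c :: (sub (k + 1) W c ++ y))) -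
          (u - 2 * eps))) := by
  classical
  set n' : ℕ := h0 * q with hn'
  have hκ : 0 < k + 1 := by omega
  have hn'0 : 0 < n' := by positivity
  have hκ' : (0 : ℝ) < ((k + 1 : ℕ) : ℝ) := by exact_mod_cast hκ
  set φ : List ℕ → ℝ := fun y => ind (y ∈ R) * (ψ y - u) with hφ
  -- the two halves
  have hA1 : FW (k + 1) n' φ ≤ s + eps2 := by
    have := hsub [] R (Lt.nil _) (by simp) (hR.mono (by omega)) (fun y _ hy => by simpa using hy)
    simpa using this
  have hmean_n := isMean_FW hκ hn'0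
  have hsub' : ∀ (t : List ℕ) (P : Set (List ℕ)), Wd (k + 1) n' t → Insens k n' a P →
      FW (k + 1) n' (fun y => ind (y ∈ P) * φ (t ++ y)) ≤ s + eps2 := by
    intro t P ht hP
    have h1 := hsub t {y | y ∈ P ∧ t ++ y ∈ R} ht.2 ht.1.le (by
      intro x x' hx hx' h2 h3
      exact ⟨hP x x' hx hx' h2 h3.1,
        (hR.context (n' := n') ht.2 (by rw [ht.1]; omega)) x x' hx hx' h2 h3.2⟩)
      (fun y _ hy => hy.2)
    refine le_trans (le_of_eq ?_) h1
    congr 1
    funext y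
    rw [hφ]
    dsimp only
    rw [← mul_assoc, ← ind_and]
    rfl
  have hA2 : s - eps2 ≤ Ex (k + 1) n' (fun t => FW (k + 1) n' (fun y => φ (t ++ y))) := by
    have h1 := hscore
    rw [FW_two] at h1
    linarith
  have hA1' : s - eps2 ≤ FW (k + 1) n' φ := by
    have h1 := hscore
    rw [FW_two] at h1
    have h2 : Ex (k + 1) n' (fun t => FW (k + 1) n' (fun y => φ (t ++ y))) ≤ s + eps2 := by
      refine (isMean_Ex hκ n').le_of fun t ht => ?_
      have h3 := hsub' t Set.univ ht (fun _ _ _ _ _ _ => trivial)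
      refine le_trans (le_of_eq ?_) h3
      congr 1
      funext y
      rw [ind_true (Set.mem_univ y), one_mul]
    linarith
  have hs1 : s ≤ 1 := by
    refine hscore.trans ((isMean_FW hκ (by omega)).le_of fun y _ => ?_)
    have h1 := ind_nonneg (y ∈ R)
    have h2 := ind_le_one (y ∈ R)
    have h3 := hψ y
    nlinarith
  have hc1 : c ≤ 1 := hs.trans hs1
  have heps2c : eps2 ≤ c / 16 := by nlinarith
  -- the window
  have hA1'' := hA1'
  rw [hn', FW_mul] at hA1''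
  obtain ⟨j, hj, hwin⟩ := (isMean_av hq).ex_ge hA1''
  have hj' : j < q := hj
  set sig : ℕ := h0 * j with hsig
  have hsig1 : sig + h0 ≤ n' := by
    rw [hsig, hn']
    calc h0 * j + h0 = h0 * (j + 1) := by ring
      _ ≤ h0 * q := Nat.mul_le_mul_left _ hj'
  set r : ℕ := n' - (sig + h0) with hr
  have hr' : n' = sig + (h0 + r) := by omega
  set Q : List ℕ → Set (List ℕ) := fun τ => {x | τ ++ x ∈ R ∧ u ≤ ψ (τ ++ x)} with hQ
  have hwin2 : c / 2 ≤ Ex (k + 1) sig (fun τ => Ex (k + 1) h0 (fun t =>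
      av h0 (fun l => ind (t.take l ∈ Q τ)))) := by
    have h1 : c / 2 ≤ s - eps2 := by linarith
    refine h1.trans (hwin.trans ((isMean_Ex hκ sig).mono fun τ _ => ?_))
    rw [(isMean_Ex hκ h0).av_comm]
    unfold FW
    refine (isMean_av hh0).mono fun l hl => ?_
    have hl' : l < h0 := hl
    rw [Ex_take hκ hl'.le (fun x => ind (x ∈ Q τ))]
    refine (isMean_Ex hκ l).mono fun x _ => ?_
    rw [hφ]
    dsimp only
    by_cases h2 : τ ++ x ∈ R
    · rw [ind_true h2, one_mul]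
      by_cases h3 : u ≤ ψ (τ ++ x)
      · have h4 : x ∈ Q τ := ⟨h2, h3⟩
        rw [ind_true h4]
        linarith [(hψ (τ ++ x)).2]
      · have := ind_nonneg (x ∈ Q τ)
        linarith
    · rw [ind_false h2, zero_mul]
      exact ind_nonneg _
  -- the future
  set Sν : Set (List ℕ) := {y | WL (k + 1) (r + n') y} with hSν
  have hνm : IsMean Sν (nu (k + 1) r n') := isMean_nu hκ hn'0
  have hνsub : ∀ (T' : List ℕ) (P : Set (List ℕ)), Wd (k + 1) (sig + h0) T' →
      Insens k (r + n') a P → nu (k + 1) r n' (fun y => ind (y ∈ P) * φ (T' ++ y)) ≤ s + eps2 := by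
    intro T' P hT' hP
    refine (isMean_Ex hκ r).le_of fun y0 hy0 => ?_
    have h1 : Wd (k + 1) n' (T' ++ y0) := by
      have := hT'.append hy0
      rwa [show sig + h0 + r = n' by omega] at this
    have h2 := hsub' (T' ++ y0) {y | y0 ++ y ∈ P} h1 (hP.context hy0.2 (by rw [hy0.1]))
    refine le_trans (le_of_eq ?_) h2
    congr 1
    funext y
    rw [List.append_assoc]
    rfl
  set f : List ℕ → ℝ := fun T' => nu (k + 1) r n' (fun y => φ (T' ++ y)) with hf
  have hf1 : ∀ T', Wd (k + 1) (sig + h0) T' → f T' ≤ s + eps2 := by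
    intro T' hT'
    have h1 := hνsub T' Set.univ hT' (fun _ _ _ _ _ _ => trivial)
    refine le_trans (le_of_eq ?_) h1
    refine congrArg (nu (k + 1) r n') (funext fun y => ?_)
    rw [ind_true (Set.mem_univ y), one_mul]
  have hf2 : s - eps2 ≤ Ex (k + 1) sig (fun τ => Ex (k + 1) h0 (fun t => f (τ ++ t))) := by
    refine hA2.trans (le_of_eq ?_)
    conv_lhs => rw [hr', Ex_add]
    rw [← hr']
    congr 1
    funext τ
    rw [Ex_add]
    congr 1
    funext t
    rw [hf]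
    dsimp only
    unfold nu
    congr 1
    funext y0
    congr 1
    funext y
    simp only [List.append_assoc]
  -- the mean over (τ, t)
  have hM3m := isMean_E2 (a := sig) (b := h0) hκ
  have hf3 : s - eps2 ≤ E2 (k + 1) sig h0 (fun p => f (p.1 ++ p.2)) := hf2
  have hp : E2 (k + 1) sig h0 (fun p => ind (¬ s / 2 ≤ f (p.1 ++ p.2))) ≤ c / 4 := by
    have h1 : s - eps2 ≤ E2 (k + 1) sig h0 (fun p => (s + eps2) - s / 2 * ind (¬ s / 2 ≤ f (p.1 ++ p.2))) := by
      refine hf3.trans (hM3m.mono fun p hp => ?_)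
      have h2 := hf1 (p.1 ++ p.2) (hp.1.append hp.2)
      by_cases h3 : s / 2 ≤ f (p.1 ++ p.2)
      · rw [ind_false (not_not.2 h3)]
        linarith
      · rw [ind_true h3]
        linarith
    rw [hM3m.sub, hM3m.const, hM3m.smul] at h1
    set P := E2 (k + 1) sig h0 (fun p => ind (¬ s / 2 ≤ f (p.1 ++ p.2))) with hP
    have hP0 : 0 ≤ P := hM3m.nonneg fun _ _ => ind_nonneg _
    have h4 : s / 2 * P ≤ 2 * eps2 := by linarith
    have h5 : c * P ≤ s * P := mul_le_mul_of_nonneg_right hs hP0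
    have h6 : c * P ≤ c * (c / 4) := by nlinarith
    exact le_of_mul_le_mul_left h6 hc
  have hb1 : c ^ 2 / 8 ≤ E2 (k + 1) sig h0 (fun p => av h0 (fun l => ind (p.2.take l ∈ Q p.1)) *
      nu (k + 1) r n' (fun y => ind (p.1 ++ (p.2 ++ y) ∈ R))) := by
    have h1 : c / 2 - c / 4 ≤ E2 (k + 1) sig h0 (fun p => av h0 (fun l => ind (p.2.take l ∈ Q p.1)) -
        ind (¬ s / 2 ≤ f (p.1 ++ p.2))) := by
      rw [hM3m.sub]
      have hwin3 : c / 2 ≤ E2 (k + 1) sig h0 (fun p => av h0 (fun l =>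
        ind (p.2.take l ∈ Q p.1))) := hwin2
      linarith
    have h2 : s / 2 * (c / 2 - c / 4) ≤ E2 (k + 1) sig h0 (fun p => s / 2 * (av h0 (fun l =>
        ind (p.2.take l ∈ Q p.1)) - ind (¬ s / 2 ≤ f (p.1 ++ p.2)))) := by
      rw [hM3m.smul]
      exact mul_le_mul_of_nonneg_left h1 (by linarith)
    have h3 : c ^ 2 / 8 ≤ s / 2 * (c / 2 - c / 4) := by nlinarith
    refine h3.trans (h2.trans (hM3m.mono fun p hp => ?_))
    have h4 : 0 ≤ av h0 (fun l => ind (p.2.take l ∈ Q p.1)) :=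
      (isMean_av hh0).nonneg fun _ _ => ind_nonneg _
    have h5 : av h0 (fun l => ind (p.2.take l ∈ Q p.1)) ≤ 1 :=
      (isMean_av hh0).le_of fun _ _ => ind_le_one _
    have h6 : 0 ≤ nu (k + 1) r n' (fun y => ind (p.1 ++ (p.2 ++ y) ∈ R)) := hνm.nonneg fun _ _ => ind_nonneg _
    have h7 : f (p.1 ++ p.2) ≤ nu (k + 1) r n' (fun y => ind (p.1 ++ (p.2 ++ y) ∈ R)) := by
      refine hνm.mono fun y _ => ?_
      rw [hφ]
      dsimp only
      rw [List.append_assoc]
      have h8 := ind_nonneg (p.1 ++ (p.2 ++ y) ∈ R)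
      have h9 := hψ (p.1 ++ (p.2 ++ y))
      nlinarith
    by_cases h8 : s / 2 ≤ f (p.1 ++ p.2)
    · rw [ind_false (not_not.2 h8), sub_zero]
      nlinarith
    · rw [ind_true h8]
      have h9 : s / 2 * (av h0 (fun l => ind (p.2.take l ∈ Q p.1)) - 1) ≤ 0 := by nlinarith
      have h10 : 0 ≤ av h0 (fun l => ind (p.2.take l ∈ Q p.1)) *
        nu (k + 1) r n' (fun y => ind (p.1 ++ (p.2 ++ y) ∈ R)) := mul_nonneg h4 h6
      linarith
  -- the numbers b
  set b : List ℕ → List ℕ → ℕ → ℝ := fun τ y l => Ex (k + 1) h0 (fun t =>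
    ind (t.take l ∈ Q τ ∧ τ ++ (t ++ y) ∈ R)) with hb
  have hb01 : ∀ τ y l, 0 ≤ b τ y l ∧ b τ y l ≤ 1 := fun τ y l =>
    ⟨(isMean_Ex hκ h0).nonneg fun _ _ => ind_nonneg _,
      (isMean_Ex hκ h0).le_of fun _ _ => ind_le_one _⟩
  have hM2m : IsMean {p : List ℕ × List ℕ | Wd (k + 1) sig p.1 ∧ p.2 ∈ Sν}
    (E2n (k + 1) sig r n') := isMean_E2n hκ hn'0
  have hb2 : c ^ 2 / 16 + c ^ 2 / 16 ≤ E2n (k + 1) sig r n' (fun p => av h0 (b p.1 p.2)) := by
    have h1 : E2 (k + 1) sig h0 (fun p => av h0 (fun l => ind (p.2.take l ∈ Q p.1)) *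
        nu (k + 1) r n' (fun y => ind (p.1 ++ (p.2 ++ y) ∈ R))) = E2n (k + 1) sig r n' (fun p => av h0 (b p.1 p.2)) := by
      unfold E2 E2n
      congr 1
      funext τ
      rw [hb]
      dsimp only
      simp only [← hνm.smul]
      rw [← hνm.Ex_comm (k + 1) h0 (fun y t => av h0 (fun l => ind (t.take l ∈ Q τ)) *
        ind (τ ++ (t ++ y) ∈ R))]
      congr 1
      funext y
      rw [← (isMean_Ex hκ h0).av_comm]
      congr 1
      funext t
      rw [← (isMean_av hh0).mul_const]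
      congr 1
      funext l
      rw [ind_and]
    rw [← h1]
    linarith
  set good : List ℕ → List ℕ → Prop := fun τ y => c ^ 2 / 16 ≤ av h0 (b τ y) with hgood
  have hgood1 : c ^ 2 / 16 ≤ E2n (k + 1) sig r n' (fun p => ind (good p.1 p.2)) :=
    hM2m.markov (by positivity) (fun p _ => (isMean_av hh0).le_of fun l _ => (hb01 _ _ _).2) hb2
  -- the choice of the line
  set PP : List ℕ → List ℕ → Set (List ℕ × List ℕ) := fun τ y => {p | Lt (k + 1) p.1 ∧
    Lt (k + 2) p.2 ∧ p.1.length + 1 + p.2.length = h0 ∧ p.1 ∈ Q τ ∧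
    ∀ c < k + 1, τ ++ ((p.1 ++ c :: sub (k + 1) p.2 c) ++ y) ∈ R} with hPP
  have hword : ∀ p : List ℕ × List ℕ, Lt (k + 1) p.1 → Lt (k + 2) p.2 →
      p.1.length + 1 + p.2.length = h0 → ∀ c < k + 1,
      Wd (k + 1) h0 (p.1 ++ c :: sub (k + 1) p.2 c) := by
    intro p h1 h2 h3 c hc
    refine ⟨?_, h1.append (Lt.cons hc (lt_sub' h2 hc))⟩
    rw [List.length_append, List.length_cons, length_sub]
    omega
  have hPPne : ∀ τ y, Wd (k + 1) sig τ → y ∈ Sν → good τ y → (PP τ y).Nonempty := by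
    intro τ y hτ hy hg
    have hg' : c ^ 2 / 32 + c ^ 2 / 32 ≤ av h0 (b τ y) := by
      have : c ^ 2 / 32 + c ^ 2 / 32 = c ^ 2 / 16 := by ring
      rw [this]
      exact hg
    obtain ⟨L, hL1, hL2⟩ := card_levels hh0 (fun l _ => (hb01 τ y l).2) hg' (by positivity)
    obtain ⟨l, hl, x, w, hx, hw, hlen, hxQ, hline⟩ := dcs_insens hk (β := c ^ 2 / 32)
      (by positivity) hh hD ha (N := h0) (Q := Q τ) (G := {t | τ ++ (t ++ y) ∈ R})
      (by
        intro x x' hx hx' h1 h2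
        refine hR (τ ++ (x ++ y)) (τ ++ (x' ++ y)) ⟨?_, Lt.append hτ.2 (Lt.append hx.2 hy.2)⟩
          ⟨?_, Lt.append hτ.2 (Lt.append hx'.2 hy.2)⟩ ?_ h2
        · have := hy.1
          rw [List.length_append, List.length_append, hτ.1, hx.1]
          omega
        · have := hy.1
          rw [List.length_append, List.length_append, hτ.1, hx'.1]
          omega
        · rw [sub_append, sub_append, sub_append, sub_append, h1])
      (L := L) (fun l hl => (hL1 l hl).1) (hh0'.trans hL2) (fun l hl => (hL1 l hl).2)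
    exact ⟨(x, w), hx.2, hw, by have := hx.1; dsimp only; omega, hxQ, hline⟩
  set Λ : List ℕ → List ℕ → List ℕ × List ℕ := fun τ y => pickP (PP τ y) with hΛ
  have hΛm : ∀ τ y, Wd (k + 1) sig τ → y ∈ Sν → good τ y → Λ τ y ∈ PP τ y :=
    fun τ y hτ hy hg => pickP_mem (hPPne τ y hτ hy hg)
  -- insensitivity
  have hins : ∀ τ y y', Wd (k + 1) sig τ → y ∈ Sν → y' ∈ Sν → sub k y a = sub k y' a →
      ∀ t, Wd (k + 1) h0 t → (τ ++ (t ++ y) ∈ R ↔ τ ++ (t ++ y') ∈ R) := by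
    have key : ∀ τ y y', Wd (k + 1) sig τ → y ∈ Sν → y' ∈ Sν → sub k y a = sub k y' a →
        ∀ t, Wd (k + 1) h0 t → (τ ++ (t ++ y) ∈ R → τ ++ (t ++ y') ∈ R) := by
      intro τ y y' hτ hy hy' h1 t ht h2
      refine hR (τ ++ (t ++ y)) (τ ++ (t ++ y')) ⟨?_, Lt.append hτ.2 (Lt.append ht.2 hy.2)⟩
          ⟨?_, Lt.append hτ.2 (Lt.append ht.2 hy'.2)⟩ ?_ h2
      · have := hy.1
        rw [List.length_append, List.length_append, hτ.1, ht.1]
        omega
      · have := hy'.1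
        rw [List.length_append, List.length_append, hτ.1, ht.1]
        omega
      · rw [sub_append, sub_append, sub_append, sub_append, h1]
    intro τ y y' hτ hy hy' h1 t ht
    exact ⟨key τ y y' hτ hy hy' h1 t ht, key τ y' y hτ hy' hy h1.symm t ht⟩
  have hgood_ins : ∀ τ y y', Wd (k + 1) sig τ → y ∈ Sν → y' ∈ Sν → sub k y a = sub k y' a →
      (good τ y ↔ good τ y') ∧ Λ τ y = Λ τ y' := by
    intro τ y y' hτ hy hy' h1
    have h2 : b τ y = b τ y' := by
      funext l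
      refine (isMean_Ex hκ h0).congr fun t ht => ind_congr ?_
      rw [hins τ y y' hτ hy hy' h1 t ht]
    have h3 : PP τ y = PP τ y' := by
      ext p
      constructor
      · rintro ⟨e1, e2, e3, e4, e5⟩
        exact ⟨e1, e2, e3, e4, fun c hc =>
          (hins τ y y' hτ hy hy' h1 _ (hword p e1 e2 e3 c hc)).1 (e5 c hc)⟩
      · rintro ⟨e1, e2, e3, e4, e5⟩
        exact ⟨e1, e2, e3, e4, fun c hc =>
          (hins τ y y' hτ hy hy' h1 _ (hword p e1 e2 e3 c hc)).2 (e5 c hc)⟩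
    refine ⟨?_, ?_⟩
    · rw [hgood]
      dsimp only
      rw [h2]
    · rw [hΛ]
      dsimp only
      rw [h3]
  -- the cover
  set Cov : List ℕ → List ℕ → List ℕ → Prop := fun τ t y => good τ y ∧
    ∃ c < k + 1, t = (Λ τ y).1 ++ c :: sub (k + 1) (Λ τ y).2 c with hCov
  have hcov1 : E2 (k + 1) sig h0 (fun p => nu (k + 1) r n' (fun y => ind (¬ Cov p.1 p.2 y) * φ (p.1 ++ (p.2 ++ y)))) ≤
      s + eps2 := by
    refine hM3m.le_of fun p hp => ?_
    have h1 := hνsub (p.1 ++ p.2) {y | ¬ Cov p.1 p.2 y} (hp.1.append hp.2) (by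
      intro y y' hy hy' h2 h3 h4
      apply h3
      obtain ⟨h5, h6⟩ := hgood_ins p.1 y y' hp.1 hy hy' h2
      refine ⟨h5.2 h4.1, ?_⟩
      rw [h6]
      exact h4.2)
    refine le_trans (le_of_eq ?_) h1
    congr 1
    funext y
    rw [List.append_assoc]
    rfl
  set κr : ℝ := ((k + 1 : ℕ) : ℝ) with hκr
  set SS : List ℕ × List ℕ → ℝ := fun p => av (k + 1) (fun c =>
    ψ (p.1 ++ (((Λ p.1 p.2).1 ++ c :: sub (k + 1) (Λ p.1 p.2).2 c) ++ p.2))) with hSS
  have hcov2 : E2 (k + 1) sig h0 (fun p => nu (k + 1) r n' (fun y => ind (Cov p.1 p.2 y) * φ (p.1 ++ (p.2 ++ y)))) =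
      κr / κr ^ h0 * E2n (k + 1) sig r n' (fun p => ind (good p.1 p.2) * (SS p - u)) := by
    rw [← hM2m.smul]
    unfold E2 E2n
    refine (isMean_Ex hκ sig).congr fun τ hτ => ?_
    rw [← hνm.Ex_comm (k + 1) h0 (fun y t => ind (Cov τ t y) * φ (τ ++ (t ++ y)))]
    refine hνm.congr fun y hy => ?_
    dsimp only
    by_cases hg : good τ y
    · have h1 := hΛm τ y hτ hy hg
      obtain ⟨e1, e2, e3, e4, e5⟩ := h1
      rw [ind_true hg, one_mul]
      have h2 : ∀ t, ind (Cov τ t y) * φ (τ ++ (t ++ y)) =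
          ind (∃ c < k + 1, t = (Λ τ y).1 ++ c :: sub (k + 1) (Λ τ y).2 c) *
            φ (τ ++ (t ++ y)) := by
        intro t
        congr 1
        exact ind_congr ⟨fun h => h.2, fun h => ⟨hg, h⟩⟩
      simp only [h2]
      rw [Ex_family hκ (fun c hc => hword _ e1 e2 e3 c hc) (by
        intro c _ c' _ h3
        have := List.append_cancel_left h3
        exact (List.cons.inj this).1) (fun t => φ (τ ++ (t ++ y)))]
      have h4 : ∀ c ∈ range (k + 1), φ (τ ++ (((Λ τ y).1 ++ c :: sub (k + 1) (Λ τ y).2 c) ++ y)) =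
          ψ (τ ++ (((Λ τ y).1 ++ c :: sub (k + 1) (Λ τ y).2 c) ++ y)) - u := by
        intro c hc
        rw [hφ]
        dsimp only
        rw [ind_true (e5 c (Finset.mem_range.1 hc)), one_mul]
      rw [Finset.sum_congr rfl h4, Finset.sum_sub_distrib, Finset.sum_const, card_range,
        nsmul_eq_mul, hSS]
      dsimp only
      unfold av
      rw [← hκr]
      have hκr0 : κr ≠ 0 := hκ'.ne'
      field_simp
    · rw [ind_false hg, zero_mul, mul_zero]
      rw [← (isMean_Ex hκ h0).const 0]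
      congr 1
      funext t
      rw [ind_false (fun h => hg h.1), zero_mul]
  have hcov3 : -(2 * eps2) ≤ κr / κr ^ h0 * E2n (k + 1) sig r n' (fun p => ind (good p.1 p.2) * (SS p - u)) := by
    rw [← hcov2]
    have h1 : E2 (k + 1) sig h0 (fun p => nu (k + 1) r n' (fun y => ind (Cov p.1 p.2 y) * φ (p.1 ++ (p.2 ++ y)))) +
        E2 (k + 1) sig h0 (fun p => nu (k + 1) r n' (fun y => ind (¬ Cov p.1 p.2 y) * φ (p.1 ++ (p.2 ++ y)))) =
        Ex (k + 1) sig (fun τ => Ex (k + 1) h0 (fun t => f (τ ++ t))) := by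
      rw [← hM3m.add]
      unfold E2
      refine congrArg (Ex (k + 1) sig) (funext fun τ => ?_)
      refine congrArg (Ex (k + 1) h0) (funext fun t => ?_)
      dsimp only
      rw [← hνm.add]
      refine congrArg (nu (k + 1) r n') (funext fun y => ?_)
      rw [List.append_assoc, ind_not]
      ring
    linarith
  have hfin : eps * c ^ 2 / 16 ≤ E2n (k + 1) sig r n' (fun p => ind (good p.1 p.2) * (SS p - (u - 2 * eps))) := by
    have h1 : E2n (k + 1) sig r n' (fun p => ind (good p.1 p.2) * (SS p - (u - 2 * eps))) =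
        E2n (k + 1) sig r n' (fun p => ind (good p.1 p.2) * (SS p - u)) + 2 * eps * E2n (k + 1) sig r n' (fun p =>
          ind (good p.1 p.2)) := by
      rw [← hM2m.smul, ← hM2m.add]
      congr 1
      funext p
      ring
    rw [h1]
    have hpos : 0 < κr / κr ^ h0 := by positivity
    have h2 : κr / κr ^ h0 * (-(eps * c ^ 2 / 16)) ≤
        κr / κr ^ h0 * E2n (k + 1) sig r n' (fun p => ind (good p.1 p.2) * (SS p - u)) := by
      refine le_trans ?_ hcov3
      have h3 : eps * (κr * (c ^ 2 / 16) / κr ^ h0) = κr / κr ^ h0 * (eps * c ^ 2 / 16) := by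
        ring
      rw [mul_neg, ← h3]
      linarith
    have h4 := le_of_mul_le_mul_left h2 hpos
    have h5 : 2 * eps * (c ^ 2 / 16) ≤ 2 * eps * E2n (k + 1) sig r n' (fun p => ind (good p.1 p.2)) :=
      mul_le_mul_of_nonneg_left hgood1 (by positivity)
    linarith
  -- pigeonhole over the lines
  set LL := lines (k + 1) (h0 + 1) with hLL
  have hind : ∀ p ∈ {p : List ℕ × List ℕ | Wd (k + 1) sig p.1 ∧ p.2 ∈ Sν},
      ind (good p.1 p.2) * (SS p - (u - 2 * eps)) = ∑ v ∈ LL,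
        ind (good p.1 p.2 ∧ Λ p.1 p.2 = v) * (av (k + 1) (fun c =>
          ψ (p.1 ++ ((v.1 ++ c :: sub (k + 1) v.2 c) ++ p.2))) - (u - 2 * eps)) := by
    intro p hp
    by_cases hg : good p.1 p.2
    · have h1 := hΛm p.1 p.2 hp.1 hp.2 hg
      have h2 : Λ p.1 p.2 ∈ LL := by
        have : (Λ p.1 p.2) = ((Λ p.1 p.2).1, (Λ p.1 p.2).2) := rfl
        rw [this, hLL, mem_lines]
        exact ⟨h1.1, h1.2.1, by have := h1.2.2.1; omega⟩
      rw [Finset.sum_eq_single (Λ p.1 p.2)]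
      · rw [ind_true hg, ind_true ⟨hg, rfl⟩]
      · intro v _ hv
        rw [ind_false (fun h3 => hv h3.2.symm), zero_mul]
      · intro h3
        exact absurd h2 h3
    · rw [ind_false hg, zero_mul]
      symm
      refine Finset.sum_eq_zero fun v _ => ?_
      rw [ind_false (fun h3 => hg h3.1), zero_mul]
  rw [hM2m.congr hind, hM2m.sum] at hfin
  have hc1pos : 0 < eps * c ^ 2 / 16 := by positivity
  have hLne : LL.Nonempty := by
    by_contra hcon
    rw [Finset.not_nonempty_iff_eq_empty] at hcon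
    rw [hcon, Finset.sum_empty] at hfin
    linarith
  have hLpos : (0 : ℝ) < (LL.card : ℝ) := by exact_mod_cast Finset.card_pos.2 hLne
  obtain ⟨v, hv, h1⟩ := Finset.exists_le_of_sum_le (s := LL)
    (f := fun _ => eps * c ^ 2 / 16 / (LL.card : ℝ)) (g := fun v => E2n (k + 1) sig r n' (fun p =>
      ind (good p.1 p.2 ∧ Λ p.1 p.2 = v) * (av (k + 1) (fun c =>
          ψ (p.1 ++ ((v.1 ++ c :: sub (k + 1) v.2 c) ++ p.2))) - (u - 2 * eps)))) hLne (by
      rw [Finset.sum_const, nsmul_eq_mul, mul_div_cancel₀ _ hLpos.ne']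
      exact hfin)
  obtain ⟨τ, hτ, h2⟩ := (isMean_Ex hκ sig).ex_ge h1
  obtain ⟨y0, hy0, h3⟩ := (isMean_Ex hκ r).ex_ge h2
  dsimp only at h3
  have hτ' : Wd (k + 1) sig τ := hτ
  have hy0' : Wd (k + 1) r y0 := hy0
  set H' : Set (List ℕ) := {y | good τ (y0 ++ y) ∧ Λ τ (y0 ++ y) = v} with hH'
  have hc1 : 0 < eps * c ^ 2 / 16 / (LL.card : ℝ) := div_pos hc1pos hLpos
  -- H' is not empty
  obtain ⟨y1, hy1, h4⟩ := hmean_n.ex_ge h3
  have h5 : y1 ∈ H' := by
    by_contra hcon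
    have hcon' : ¬ (good τ (y0 ++ y1) ∧ Λ τ (y0 ++ y1) = v) := hcon
    rw [ind_false hcon', zero_mul] at h4
    linarith
  have hSν' : ∀ y, WL (k + 1) n' y → y0 ++ y ∈ Sν := fun y hy => WL.append hy0' hy
  have h6 := hΛm τ (y0 ++ y1) hτ' (hSν' y1 hy1) h5.1
  rw [h5.2] at h6
  obtain ⟨e1, e2, e3, e4, -⟩ := h6
  refine ⟨τ ++ v.1, v.2 ++ y0, H', Lt.append hτ'.2 e1, e4.1, e4.2,
    e2.append (Lt.mono hy0'.2 (by omega)), ?_, ?_, ?_, ?_⟩
  · rw [List.length_append, List.length_append, hτ'.1, hy0'.1]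
    omega
  · intro y y' hy hy' h7 h8
    obtain ⟨h9, h10⟩ := hgood_ins τ (y0 ++ y) (y0 ++ y') hτ' (hSν' y hy) (hSν' y' hy')
      (by rw [sub_append, sub_append, h7])
    exact ⟨h9.1 h8.1, by rw [← h10]; exact h8.2⟩
  · intro y hy h7 c hc
    have h8 := hΛm τ (y0 ++ y) hτ' (hSν' y hy) h7.1
    rw [h7.2] at h8
    have h9 := h8.2.2.2.2 c hc
    rw [sub_append, sub_of_lt hy0'.2]
    simpa [List.append_assoc] using h9
  · refine h3.trans (le_of_eq ?_)
    congr 1
    funext y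
    have h7 : ∀ c, ψ (τ ++ ((v.1 ++ c :: sub (k + 1) v.2 c) ++ (y0 ++ y))) =
        ψ (τ ++ v.1 ++ c :: (sub (k + 1) (v.2 ++ y0) c ++ y)) := by
      intro c
      rw [sub_append, sub_of_lt hy0'.2]
      simp [List.append_assoc]
    simp only [h7]
    rfl

end Pool.Agent.OVW.BN
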