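import Pool.Agent.OVW.BN.Small

/-!
# Statement of Lemma 7 (trees inside intersections of insensitive sets)
-/

namespace Pool.Agent.OVW.BN

open Finset

/-- `H` does not distinguish the letters `a` and `k` (`k` is the last letter of `k + 1`) -/
def Insens (k n a : ℕ) (H : Set (List ℕ)) : Prop :=
  ∀ x x', WL (k + 1) n x → WL (k + 1) n x' → sub k x a = sub k x' a → x ∈ H → x' ∈ H

/-- the density Carlson-Simpson theorem for `k` letters -/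
def DCSall (k : ℕ) : Prop := ∀ δ : ℝ, 0 < δ → ∃ n, 0 < n ∧ DCS k δ n

/-- Lemma 6: trees inside an insensitive set -/
def StmtL6 : Prop := ∀ k : ℕ, 0 < k → DCSall k → ∀ (m : ℕ) (c eps : ℝ), 0 < c → 0 < eps →
  ∃ n, 0 < n ∧ ∀ (a : ℕ) (H : Set (List ℕ)), a < k → Insens k n a H →
    ∀ (ψ : List ℕ → ℝ), (∀ x, 0 ≤ ψ x ∧ ψ x ≤ 1) → ∀ u : ℝ, 2 * m * eps ≤ u → u ≤ 1 →
    c ≤ FW (k + 1) n (fun y => ind (y ∈ H) * (ψ y - u)) →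
    ∃ T : List ℕ → List ℕ, Tree (k + 1) m n T ∧ (∀ z, WL (k + 1) (m + 1) z → T z ∈ H) ∧
      ∀ i ≤ m, u - 2 * i * eps ≤ Ex (k + 1) i (fun z => ψ (T z))

/-- Lemma 7: trees inside an intersection of `r` insensitive sets -/
def StmtL7 : Prop := ∀ k : ℕ, 0 < k → DCSall k → ∀ (r m : ℕ) (c eps : ℝ), 0 < r → 0 < c →
  0 < eps → ∃ n, 0 < n ∧ ∀ (a : ℕ → ℕ) (H : ℕ → Set (List ℕ)), (∀ i < r, a i < k) →
    (∀ i < r, Insens k n (a i) (H i)) →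
    ∀ (ψ : List ℕ → ℝ), (∀ x, 0 ≤ ψ x ∧ ψ x ≤ 1) → ∀ u : ℝ, eps ≤ u → u ≤ 1 →
    c ≤ FW (k + 1) n (fun y => ind (∀ i < r, y ∈ H i) * (ψ y - u)) →
    ∃ T : List ℕ → List ℕ, Tree (k + 1) m n T ∧
      (∀ z, WL (k + 1) (m + 1) z → ∀ i < r, T z ∈ H i) ∧
      ∀ i ≤ m, u - eps ≤ Ex (k + 1) i (fun z => ψ (T z))

end Pool.Agent.OVW.BN
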