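import Pool.Agent.OVW.BN.Basic

/-!
# Substitution, lines, trees, the maps `Phi`
-/

namespace Pool.Agent.OVW.BN

open Finset

/-- replace the letter `κ` by the letter `c`; a word over `κ + 1` letters is a variable word over
`κ` letters -/
def sub (κ : ℕ) (w : List ℕ) (c : ℕ) : List ℕ := w.map (fun o => if o = κ then c else o)

@[simp] lemma sub_nil (κ c : ℕ) : sub κ [] c = [] := rfl

@[simp] lemma sub_cons (κ c o : ℕ) (w : List ℕ) :
    sub κ (o :: w) c = (if o = κ then c else o) :: sub κ w c := rfl

@[simp] lemma sub_append (κ c : ℕ) (v w : List ℕ) : sub κ (v ++ w) c = sub κ v c ++ sub κ w c := by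
  simp [sub]

@[simp] lemma length_sub (κ c : ℕ) (w : List ℕ) : (sub κ w c).length = w.length := by simp [sub]

lemma sub_self (κ : ℕ) (w : List ℕ) : sub κ w κ = w := by
  induction w with
  | nil => rfl
  | cons o w ih =>
    rw [sub_cons, ih]
    split_ifs with h
    · rw [h]
    · rfl

/-- the letters of `w` are smaller than `κ` -/
def Lt (κ : ℕ) (w : List ℕ) : Prop := ∀ c ∈ w, c < κ

lemma Lt.nil (κ : ℕ) : Lt κ [] := by simp [Lt]

lemma Lt.cons {κ c : ℕ} {w : List ℕ} (hc : c < κ) (hw : Lt κ w) : Lt κ (c :: w) := by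
  intro d hd
  rcases List.mem_cons.1 hd with h | h
  · exact h ▸ hc
  · exact hw d h

lemma Lt.append {κ : ℕ} {v w : List ℕ} (hv : Lt κ v) (hw : Lt κ w) : Lt κ (v ++ w) := by
  intro d hd
  rcases List.mem_append.1 hd with h | h
  · exact hv d h
  · exact hw d h

lemma Lt.mono {κ κ' : ℕ} {w : List ℕ} (hw : Lt κ w) (h : κ ≤ κ') : Lt κ' w :=
  fun c hc => (hw c hc).trans_le h

lemma lt_cons {κ c : ℕ} {w : List ℕ} : Lt κ (c :: w) ↔ c < κ ∧ Lt κ w := by
  simp [Lt]

lemma lt_append {κ : ℕ} {v w : List ℕ} : Lt κ (v ++ w) ↔ Lt κ v ∧ Lt κ w := by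
  constructor
  · intro h
    exact ⟨fun c hc => h c (List.mem_append_left _ hc), fun c hc => h c (List.mem_append_right _ hc)⟩
  · rintro ⟨h1, h2⟩
    exact h1.append h2

lemma Lt.take {κ m : ℕ} {w : List ℕ} (hw : Lt κ w) : Lt κ (w.take m) :=
  fun c hc => hw c (List.mem_of_mem_take hc)

lemma Lt.drop {κ m : ℕ} {w : List ℕ} (hw : Lt κ w) : Lt κ (w.drop m) :=
  fun c hc => hw c (List.mem_of_mem_drop hc)

lemma sub_of_lt {κ c : ℕ} {w : List ℕ} (hw : Lt κ w) : sub κ w c = w := by
  induction w with
  | nil => rfl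
  | cons o w ih =>
    rw [lt_cons] at hw
    rw [sub_cons, ih hw.2, if_neg hw.1.ne]

lemma lt_sub {κ κ' c : ℕ} {w : List ℕ} (hw : Lt κ' w) (hc : c < κ') : Lt κ' (sub κ w c) := by
  induction w with
  | nil => exact Lt.nil _
  | cons o w ih =>
    rw [lt_cons] at hw
    rw [sub_cons]
    refine Lt.cons ?_ (ih hw.2)
    split_ifs
    · exact hc
    · exact hw.1

lemma lt_sub' {κ c : ℕ} {w : List ℕ} (hw : Lt (κ + 1) w) (hc : c < κ) : Lt κ (sub κ w c) := by
  induction w with
  | nil => exact Lt.nil _
  | cons o w ih =>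
    rw [lt_cons] at hw
    rw [sub_cons]
    refine Lt.cons ?_ (ih hw.2)
    split_ifs with h
    · exact hc
    · omega

/-- exchanging the variable `κ` with `c`, then `b` with `a` -/
lemma sub_sub_congr {κ b a c c' : ℕ} (h : (if c = b then a else c) = (if c' = b then a else c'))
    (w : List ℕ) : sub b (sub κ w c) a = sub b (sub κ w c') a := by
  induction w with
  | nil => rfl
  | cons o w ih =>
    rw [sub_cons, sub_cons, sub_cons, sub_cons, ih]
    congr 1
    by_cases ho : o = κ
    · simp only [if_pos ho]; exact h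
    · simp only [if_neg ho]

/-- a Carlson-Simpson line in `E`: `x` and all `x c w[c]` are in `E` -/
def Line (κ : ℕ) (x w : List ℕ) (E : Set (List ℕ)) : Prop :=
  x ∈ E ∧ ∀ c < κ, x ++ c :: sub κ w c ∈ E

/-- `E` contains no line on the levels smaller than `n` -/
def Free (κ n : ℕ) (E : Set (List ℕ)) : Prop :=
  ∀ x w : List ℕ, Lt κ x → Lt (κ + 1) w → x.length + 1 + w.length < n → ¬ Line κ x w E

/-- the density Carlson-Simpson property -/
def DCS (κ : ℕ) (δ : ℝ) (n : ℕ) : Prop :=
  ∀ E : Set (List ℕ), Free κ n E → FW κ n (fun x => ind (x ∈ E)) < δ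

/-- Carlson-Simpson trees of dimension `m` on the levels smaller than `n` -/
structure Tree (κ m n : ℕ) (T : List ℕ → List ℕ) : Prop where
  maps : ∀ z, WL κ (m + 1) z → WL κ n (T z)
  t0 : ∀ w : List ℕ, Lt (κ + 1) w → w.length ≤ m →
    ∃ v, Lt (κ + 1) v ∧ ∀ c < κ, T (sub κ w c) = sub κ v c
  t1 : ∀ x w : List ℕ, Lt κ x → Lt (κ + 1) w → x.length + 1 + w.length ≤ m →
    ∃ v, Lt (κ + 1) v ∧ ∀ c < κ, T (x ++ c :: sub κ w c) = T x ++ c :: sub κ v c
  t3 : ∀ (b a : ℕ) (z z' : List ℕ), WL κ (m + 1) z → WL κ (m + 1) z' → sub b z a = sub b z' a →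
    sub b (T z) a = sub b (T z') a

lemma wl_iff {κ n : ℕ} {x : List ℕ} : WL κ n x ↔ x.length < n ∧ Lt κ x := Iff.rfl

lemma Tree.comp {κ m n N : ℕ} {T T' : List ℕ → List ℕ} (hκ : 0 < κ) (hT : Tree κ n N T)
    (hT' : Tree κ m (n + 1) T') : Tree κ m N (fun z => T (T' z)) where
  maps z hz := hT.maps _ (hT'.maps z hz)
  t0 w hw hm := by
    obtain ⟨v, hv, h1⟩ := hT'.t0 w hw hm
    have h2 := (hT'.maps (sub κ w 0) ⟨by rw [length_sub]; omega, lt_sub' hw hκ⟩).1
    rw [h1 0 hκ, length_sub] at h2
    obtain ⟨v', hv', h3⟩ := hT.t0 v hv (by omega)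
    exact ⟨v', hv', fun c hc => by rw [h1 c hc, h3 c hc]⟩
  t1 x w hx hw hm := by
    obtain ⟨v, hv, h1⟩ := hT'.t1 x w hx hw hm
    have h2 := (hT'.maps (x ++ 0 :: sub κ w 0) ⟨by
      rw [List.length_append, List.length_cons, length_sub]; omega,
      hx.append (Lt.cons hκ (lt_sub' hw hκ))⟩).1
    rw [h1 0 hκ, List.length_append, List.length_cons, length_sub] at h2
    have h4 := (hT'.maps x ⟨by omega, hx⟩).2
    obtain ⟨v', hv', h3⟩ := hT.t1 (T' x) v h4 hv (by omega)
    exact ⟨v', hv', fun c hc => by rw [h1 c hc, h3 c hc]⟩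
  t3 b a z z' hz hz' h := hT.t3 b a _ _ (hT'.maps z hz) (hT'.maps z' hz') (hT'.t3 b a z z' hz hz' h)

/-- the inverse image of a free set is free -/
lemma Tree.free {κ m n : ℕ} {T : List ℕ → List ℕ} (hκ : 0 < κ) (hT : Tree κ m n T)
    {E : Set (List ℕ)} (hE : Free κ n E) : Free κ (m + 1) {z | T z ∈ E} := by
  intro x w hx hw hm hL
  obtain ⟨v, hv, h1⟩ := hT.t1 x w hx hw (by omega)
  have h2 := (hT.maps (x ++ 0 :: sub κ w 0) ⟨by
    rw [List.length_append, List.length_cons, length_sub]; omega,
    hx.append (Lt.cons hκ (lt_sub' hw hκ))⟩).1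
  rw [h1 0 hκ, List.length_append, List.length_cons, length_sub] at h2
  refine hE (T x) v (hT.maps x ⟨by omega, hx⟩).2 hv (by omega) ⟨hL.1, fun c hc => ?_⟩
  rw [← h1 c hc]
  exact hL.2 c hc

lemma sub_cons_inj {b a c c' : ℕ} {z z' : List ℕ} (h : sub b (c :: z) a = sub b (c' :: z') a) :
    ((if c = b then a else c) = (if c' = b then a else c')) ∧ sub b z a = sub b z' a := by
  rw [sub_cons, sub_cons] at h
  exact List.cons.inj h

lemma sub_concat_inj {b a c c' : ℕ} {z z' : List ℕ}
    (h : sub b (z ++ [c]) a = sub b (z' ++ [c']) a) :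
    ((if c = b then a else c) = (if c' = b then a else c')) ∧ sub b z a = sub b z' a := by
  rw [sub_append, sub_append] at h
  obtain ⟨h1, h2⟩ := List.append_inj' h (by simp)
  refine ⟨?_, h1⟩
  simpa using h2

/-- trees with constant words between the letters -/
lemma Tree.of_const {κ m n : ℕ} {T : List ℕ → List ℕ} {G : ℕ → List ℕ}
    (hG : ∀ i, Lt κ (G i)) (hlen : ∀ z, WL κ (m + 1) z → WL κ n (T z))
    (hT : ∀ z c, Lt κ z → c < κ → z.length < m → T (z ++ [c]) = T z ++ c :: G z.length) :
    Tree κ m n T where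
  maps := hlen
  t0 w := by
    induction w using List.reverseRecOn with
    | nil =>
      intro _ _
      have := (hlen [] ⟨by simp, Lt.nil _⟩).2
      exact ⟨T [], Lt.mono this (by omega), fun c hc => by rw [sub_nil, sub_of_lt this]⟩
    | append_singleton w o ih =>
      intro hw hm
      rw [lt_append] at hw
      rw [List.length_append, List.length_singleton] at hm
      obtain ⟨v, hv, h1⟩ := ih hw.1 (by omega)
      have ho : o < κ + 1 := hw.2 o (by simp)
      refine ⟨v ++ o :: G w.length, hv.append (Lt.cons ho ((hG _).mono (by omega))), fun c hc => ?_⟩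
      rw [sub_append, sub_cons, sub_nil, hT _ _ (lt_sub' hw.1 hc) _ (by rw [length_sub]; omega),
        h1 c hc, sub_append, sub_cons, length_sub, sub_of_lt (hG _)]
      split_ifs
      · exact hc
      · omega
  t1 x w := by
    induction w using List.reverseRecOn with
    | nil =>
      intro hx _ hm
      refine ⟨G x.length, (hG _).mono (by omega), fun c hc => ?_⟩
      rw [sub_nil, hT x c hx hc (by simp at hm; omega), sub_of_lt (hG _)]
    | append_singleton w o ih =>
      intro hx hw hm
      rw [lt_append] at hw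
      rw [List.length_append, List.length_singleton] at hm
      obtain ⟨v, hv, h1⟩ := ih hx hw.1 (by omega)
      have ho : o < κ + 1 := hw.2 o (by simp)
      refine ⟨v ++ o :: G (x.length + 1 + w.length),
        hv.append (Lt.cons ho ((hG _).mono (by omega))), fun c hc => ?_⟩
      have e1 : x ++ c :: sub κ (w ++ [o]) c =
          (x ++ c :: sub κ w c) ++ [if o = κ then c else o] := by simp
      have e2 : (x ++ c :: sub κ w c).length = x.length + 1 + w.length := by simp; omega
      rw [e1, hT _ _ (hx.append (Lt.cons hc (lt_sub' hw.1 hc))) _ (by rw [e2]; omega), h1 c hc, e2,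
        sub_append, sub_cons, sub_of_lt (hG _)]
      · simp
      · split_ifs
        · exact hc
        · omega
  t3 b a z := by
    induction z using List.reverseRecOn with
    | nil =>
      intro z' _ _ h
      have h2 : z' = [] := by
        have := congrArg List.length h
        simp at this
        exact List.eq_nil_of_length_eq_zero this.symm
      rw [h2]
    | append_singleton z c ih =>
      intro z' hz hz' h
      rcases List.eq_nil_or_concat z' with h0 | ⟨z1, c1, h0⟩
      · rw [h0] at h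
        have := congrArg List.length h
        simp at this
      · rw [List.concat_eq_append] at h0
        subst h0
        obtain ⟨h1, h2⟩ := sub_concat_inj h
        have h3 : z.length = z1.length := by
          have := congrArg List.length h2
          simpa using this
        rw [wl_iff, lt_append, List.length_append, List.length_singleton] at hz hz'
        have h4 := ih z1 ⟨by omega, hz.2.1⟩ ⟨by omega, hz'.2.1⟩ h2
        rw [hT z c hz.2.1 (hz.2.2 c (by simp)) (by omega), hT z1 c1 hz'.2.1 (hz'.2.2 c1 (by simp))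
          (by omega), sub_append, sub_append, h4, sub_cons, sub_cons, h1, h3]

/-- The map `Phi`: the word `y`, cut at the level `lam |z|`, with the letters number `lam j`
replaced by the letters of `z`. -/
def Phi : (ℕ → ℕ) → List ℕ → List ℕ → List ℕ
  | lam, y, [] => y.take (lam 0)
  | lam, y, c :: z => Phi (fun j => lam (j + 1)) (y.set (lam 0) c) z

lemma Phi_nil (lam : ℕ → ℕ) (y : List ℕ) : Phi lam y [] = y.take (lam 0) := rfl

lemma Phi_cons (lam : ℕ → ℕ) (y : List ℕ) (c : ℕ) (z : List ℕ) :
    Phi lam y (c :: z) = Phi (fun j => lam (j + 1)) (y.set (lam 0) c) z := rfl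

lemma Wd.set {κ l p c : ℕ} {y : List ℕ} (hy : Wd κ l y) (hc : c < κ) : Wd κ l (y.set p c) := by
  refine ⟨by rw [List.length_set, hy.1], fun d hd => ?_⟩
  rcases List.mem_or_eq_of_mem_set hd with h | h
  · exact hy.2 d h
  · exact h ▸ hc

lemma take_set_succ {y : List ℕ} {p q c : ℕ} (hpq : p < q) (hq : q ≤ y.length) :
    (y.set p c).take q = y.take p ++ c :: (y.drop (p + 1)).take (q - p - 1) := by
  have hp : p < y.length := by omega
  rw [List.set_eq_take_append_cons_drop, if_pos hp, List.take_append, List.length_take,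
    min_eq_left hp.le, List.take_take, min_eq_right hpq.le]
  congr 1
  obtain ⟨r, hr⟩ : ∃ r, q - p = r + 1 := ⟨q - p - 1, by omega⟩
  rw [hr, List.take_succ_cons]
  simp

lemma length_Phi {lam : ℕ → ℕ} (hlam : StrictMono lam) {y : List ℕ} {z : List ℕ}
    (h : lam z.length ≤ y.length) : (Phi lam y z).length = lam z.length := by
  induction z generalizing lam y with
  | nil => rw [Phi_nil, List.length_take]; exact min_eq_left h
  | cons c z ih =>
    rw [Phi_cons, ih (lam := fun j => lam (j + 1)) (fun i j hij => hlam (by omega))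
      (by rw [List.length_set]; exact h)]
    rfl

lemma Phi_wd {κ N : ℕ} {lam : ℕ → ℕ} (hlam : StrictMono lam) {y : List ℕ} (hy : Wd κ N y)
    {z : List ℕ} (hz : Lt κ z) (h : lam z.length ≤ N) : Wd κ (lam z.length) (Phi lam y z) := by
  induction z generalizing lam y with
  | nil => exact hy.take h
  | cons c z ih =>
    rw [lt_cons] at hz
    exact ih (lam := fun j => lam (j + 1)) (fun i j hij => hlam (by omega)) (hy.set hz.1) hz.2 h

lemma Phi_concat {lam : ℕ → ℕ} (hlam : StrictMono lam) {y : List ℕ} {z : List ℕ} {c : ℕ}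
    (h : lam (z.length + 1) ≤ y.length) : Phi lam y (z ++ [c]) = Phi lam y z ++ c ::
      (y.drop (lam z.length + 1)).take (lam (z.length + 1) - lam z.length - 1) := by
  induction z generalizing lam y with
  | nil =>
    rw [List.nil_append, Phi_cons, Phi_nil, Phi_nil]
    exact take_set_succ (hlam (by omega)) h
  | cons d z ih =>
    rw [List.cons_append, Phi_cons, Phi_cons, ih (lam := fun j => lam (j + 1))
      (fun i j hij => hlam (by omega)) (by rw [List.length_set]; exact h)]
    rw [List.length_cons, List.drop_set_of_lt]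
    have := hlam (show 0 < z.length + 1 by omega)
    omega

lemma Phi_tree {κ N m n : ℕ} {lam : ℕ → ℕ} (hlam : StrictMono lam) {y : List ℕ}
    (hy : Wd κ N y) (hm : lam m < n) (hn : n ≤ N + 1) : Tree κ m n (Phi lam y) := by
  refine Tree.of_const
    (G := fun i => (y.drop (lam i + 1)).take (lam (i + 1) - lam i - 1)) (fun i => ?_)
    (fun z hz => ?_) (fun z c hz hc hzm => ?_)
  · exact Lt.take (Lt.drop hy.2)
  · have h1 : lam z.length ≤ lam m := hlam.monotone (by have := hz.1; omega)
    have h2 := Phi_wd hlam hy hz.2 (by omega)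
    exact ⟨by rw [h2.1]; omega, h2.2⟩
  · have h1 : lam (z.length + 1) ≤ lam m := hlam.monotone (by omega)
    exact Phi_concat hlam (by rw [hy.1]; omega)

/-- a mean over words does not change if one letter is replaced by a random letter -/
lemma Ex_set {κ : ℕ} (hκ : 0 < κ) {N p : ℕ} (hp : p < N) (g : List ℕ → ℝ) :
    Ex κ N (fun y => av κ (fun c => g (y.set p c))) = Ex κ N g := by
  induction N generalizing p g with
  | zero => omega
  | succ N ih =>
    rcases p with _ | p
    · rw [Ex_succ]
      simp only [List.set_cons_zero]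
      rw [(isMean_av hκ).const]
      exact (isMean_Ex hκ N).av_comm κ (fun x c => g (c :: x))
    · rw [Ex_succ, Ex_succ]
      congr 1
      funext d
      simp only [List.set_cons_succ]
      exact ih (by omega) (fun x => g (d :: x))

lemma Ex_take {κ : ℕ} (hκ : 0 < κ) {N l : ℕ} (hl : l ≤ N) (g : List ℕ → ℝ) :
    Ex κ N (fun y => g (y.take l)) = Ex κ l g := by
  obtain ⟨m, rfl⟩ := Nat.exists_eq_add_of_le hl
  rw [Ex_add]
  refine (isMean_Ex hκ l).congr fun x hx => ?_
  rw [← (isMean_Ex hκ m).const (g x)]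
  refine (isMean_Ex hκ m).congr fun y hy => ?_
  have hx' : l = x.length := hx.1.symm
  subst hx'
  rw [List.take_left']
  rfl

/-- for uniform `y` and uniform `z` of length `r`, `Phi lam y z` is uniform of length `lam r` -/
lemma Ex_Phi {κ : ℕ} (hκ : 0 < κ) {N : ℕ} {lam : ℕ → ℕ} (hlam : StrictMono lam) {r : ℕ}
    (hr : lam r ≤ N) (φ : List ℕ → ℝ) :
    Ex κ N (fun y => Ex κ r (fun z => φ (Phi lam y z))) = Ex κ (lam r) φ := by
  induction r generalizing lam with
  | zero => exact Ex_take hκ hr φ
  | succ r ih =>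
    have h0 : lam 0 < N := lt_of_lt_of_le (hlam (by omega)) hr
    have := ih (lam := fun j => lam (j + 1)) (fun i j hij => hlam (by omega)) hr
    rw [← this, ← Ex_set hκ h0 (fun y => Ex κ r (fun z => φ (Phi (fun j => lam (j + 1)) y z)))]
    rfl

end Pool.Agent.OVW.BN
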