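import Pool.Agent.OVW.BN.Emb
import Pool.Agent.OVW.BN.StmtB

/-!
# The choice of the words `g_s` in Lemma 10
-/

namespace Pool.Agent.OVW.BN

open Finset

/-- the letters of `z`, followed by the words `g j`, `g (j + 1)`, .. -/
def UU (g : ℕ → List ℕ) : ℕ → List ℕ → List ℕ
  | _, [] => []
  | j, c :: z => c :: (g j ++ UU g (j + 1) z)

lemma UU_nil (g : ℕ → List ℕ) (j : ℕ) : UU g j [] = [] := rfl

lemma UU_cons (g : ℕ → List ℕ) (j c : ℕ) (z : List ℕ) :
    UU g j (c :: z) = c :: (g j ++ UU g (j + 1) z) := rfl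

lemma UU_concat (g : ℕ → List ℕ) (j c : ℕ) (z : List ℕ) :
    UU g j (z ++ [c]) = UU g j z ++ c :: g (j + z.length) := by
  induction z generalizing j with
  | nil => simp [UU]
  | cons d z ih =>
    rw [List.cons_append, UU_cons, UU_cons, ih]
    simp only [List.length_cons, List.cons_append, List.append_assoc]
    rw [show j + 1 + z.length = j + (z.length + 1) by ring]

lemma UU_congr {g g' : ℕ → List ℕ} {j : ℕ} {z : List ℕ}
    (h : ∀ i, j ≤ i → i < j + z.length → g i = g' i) : UU g j z = UU g' j z := by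
  induction z generalizing j with
  | nil => rfl
  | cons d z ih =>
    rw [UU_cons, UU_cons, h j le_rfl (by simp), ih (fun i h1 h2 => h i (by omega) (by simp; omega))]

lemma lt_UU {κ : ℕ} {g : ℕ → List ℕ} (hg : ∀ i, Lt κ (g i)) {z : List ℕ} (hz : Lt κ z) (j : ℕ) :
    Lt κ (UU g j z) := by
  induction z generalizing j with
  | nil => exact Lt.nil _
  | cons d z ih =>
    rw [lt_cons] at hz
    exact Lt.cons hz.1 ((hg j).append (ih hz.2 _))

/-- the tree of Lemma 10 -/
def TT (k : ℕ) (g : ℕ → List ℕ) (z : List ℕ) : List ℕ := UU g 0 (k :: z)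

lemma TT_eq (k : ℕ) (g : ℕ → List ℕ) (z : List ℕ) : TT k g z = k :: (g 0 ++ UU g 1 z) := rfl

lemma TT_concat (k : ℕ) (g : ℕ → List ℕ) (c : ℕ) (z : List ℕ) :
    TT k g (z ++ [c]) = TT k g z ++ c :: g (z.length + 1) := by
  unfold TT
  rw [← List.cons_append, UU_concat]
  simp

lemma TT_congr {k : ℕ} {g g' : ℕ → List ℕ} {z : List ℕ} (h : ∀ i ≤ z.length, g i = g' i) :
    TT k g z = TT k g' z :=
  UU_congr fun i _ h2 => h i (by simp at h2; omega)

lemma lt_TT {k : ℕ} {g : ℕ → List ℕ} (hg : ∀ i, Lt (k + 1) (g i)) {z : List ℕ}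
    (hz : Lt (k + 1) z) : Lt (k + 1) (TT k g z) := lt_UU hg (Lt.cons (by omega) hz) 0

/-- bounds of the lengths -/
def Len (h : ℕ) : ℕ → ℕ
  | 0 => 1
  | s + 1 => (h + 1) * Len h s + 1

lemma Len_succ (h s : ℕ) : Len h (s + 1) = (h + 1) * Len h s + 1 := rfl

lemma Len_mono (h : ℕ) : Monotone (Len h) := by
  refine monotone_nat_of_le_succ fun s => ?_
  rw [Len_succ]
  nlinarith

lemma length_TT {k h : ℕ} {g : ℕ → List ℕ} (hg : ∀ i, (g i).length ≤ h * Len h i) (z : List ℕ) :
    (TT k g z).length ≤ (h + 1) * Len h z.length := by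
  induction z using List.reverseRecOn with
  | nil =>
    have := hg 0
    simp only [Len, mul_one] at this
    simp [TT_eq, UU_nil, Len]
    omega
  | append_singleton z c ih =>
    rw [TT_concat, List.length_append, List.length_cons, List.length_append, List.length_singleton,
      Len_succ]
    have := hg (z.length + 1)
    rw [Len_succ] at this
    nlinarith

lemma length_TT' {k h : ℕ} {g : ℕ → List ℕ} (hg : ∀ i, (g i).length ≤ h * Len h i) (z : List ℕ)
    (hz : g z.length = []) : (TT k g z).length ≤ Len h z.length := by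
  rcases List.eq_nil_or_concat z with h0 | ⟨z1, c1, h0⟩
  · subst h0
    rw [List.length_nil] at hz
    simp [TT_eq, UU_nil, Len, hz]
  · rw [List.concat_eq_append] at h0
    subst h0
    rw [List.length_append, List.length_singleton] at hz
    rw [TT_concat, hz, List.length_append, List.length_append, List.length_singleton, Len_succ]
    have := length_TT (k := k) hg z1
    simp
    omega

lemma TT_tree {k m n : ℕ} {g : ℕ → List ℕ} (hg : ∀ i, Lt (k + 1) (g i))
    (hlen : ∀ z : List ℕ, z.length ≤ m → (TT k g z).length < n) : Tree (k + 1) m n (TT k g) := by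
  refine Tree.of_const (G := fun i => g (i + 1)) (fun i => hg _) (fun z hz => ?_)
    (fun z c _ _ _ => TT_concat k g c z)
  exact ⟨hlen z (by have := hz.1; omega), lt_TT hg hz.2⟩

/-- the words `e(t)` -/
def eW (k s : ℕ) (W : List ℕ → List ℕ) : List ℕ → List ℕ → List ℕ
  | _, [] => []
  | Z, c :: t => sub k (W (Z.take s)) c ++ eW k s W (Z.drop s) t

lemma eW_nil (k s : ℕ) (W : List ℕ → List ℕ) (Z : List ℕ) : eW k s W Z [] = [] := rfl

lemma eW_cons (k s : ℕ) (W : List ℕ → List ℕ) (Z t : List ℕ) (c : ℕ) :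
    eW k s W Z (c :: t) = sub k (W (Z.take s)) c ++ eW k s W (Z.drop s) t := rfl

lemma eW_append (k s : ℕ) (W : List ℕ → List ℕ) (Z t t' : List ℕ) :
    eW k s W Z (t ++ t') = eW k s W Z t ++ eW k s W (Z.drop (s * t.length)) t' := by
  induction t generalizing Z with
  | nil => simp [eW_nil]
  | cons c t ih =>
    rw [List.cons_append, eW_cons, eW_cons, ih, List.append_assoc, List.drop_drop,
      List.length_cons]
    rw [show s + s * t.length = s * (t.length + 1) by ring]

lemma sub_sub (k c a : ℕ) (w : List ℕ) :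
    sub k (sub k w c) a = sub k w (if c = k then a else c) := by
  induction w with
  | nil => rfl
  | cons o w ih =>
    rw [sub_cons, sub_cons, sub_cons, ih]
    congr 1
    by_cases h1 : o = k
    · simp [h1]
    · simp [h1]

lemma sub_eW (k s : ℕ) (W : List ℕ → List ℕ) (Z t : List ℕ) (a : ℕ) :
    sub k (eW k s W Z t) a = eW k s W Z (sub k t a) := by
  induction t generalizing Z with
  | nil => rfl
  | cons c t ih => rw [eW_cons, sub_append, sub_cons, eW_cons, ih, sub_sub]

lemma eW_bd {k s B : ℕ} {W : List ℕ → List ℕ}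
    (hW : ∀ z, Wd (k + 1) s z → Lt (k + 1) (W z) ∧ (W z).length ≤ B) {t Z : List ℕ} {j : ℕ}
    (ht : Lt (k + 1) t) (hj : t.length ≤ j) (hZ : Wd (k + 1) (s * j) Z) :
    Lt (k + 1) (eW k s W Z t) ∧ (eW k s W Z t).length ≤ t.length * B := by
  induction t generalizing Z j with
  | nil => exact ⟨Lt.nil _, by simp [eW_nil]⟩
  | cons c t ih =>
    rw [lt_cons] at ht
    rw [List.length_cons] at hj
    obtain ⟨j, rfl⟩ : ∃ j', j = j' + 1 := ⟨j - 1, by omega⟩
    have e1 : s * (j + 1) = s + s * j := by ring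
    have e2 : s * (j + 1) - s = s * j := by rw [e1]; omega
    have h1 := ih ht.2 (Nat.le_of_succ_le_succ hj) (Z := Z.drop s) (e2 ▸ hZ.drop)
    have h2 := hW (Z.take s) (hZ.take (by rw [e1]; omega))
    refine ⟨?_, ?_⟩
    · rw [eW_cons]
      exact (lt_sub h2.1 ht.1).append h1.1
    · rw [eW_cons, List.length_append, length_sub, List.length_cons]
      nlinarith [h1.2, h2.2]

/-- A random embedding (Lemma 9). -/
structure Emb (κ n N : ℕ) (eps : ℝ) (μ : ((List ℕ → List ℕ) → ℝ) → ℝ) : Prop where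
  mean : IsMean {T | Tree κ (n - 1) N T} μ
  dens : ∀ (E : Set (List ℕ)) (z : List ℕ), WL κ n z →
    FW κ N (fun x => ind (x ∈ E)) - eps ≤ μ (fun T => ind (T z ∈ E))
  shift : ∀ (F : (List ℕ → List ℕ) → ℝ) (x : List ℕ), (∀ T, 0 ≤ F T ∧ F T ≤ 1) → Lt κ x →
    x.length < n → Dep (n - x.length) F → μ (fun T => F (fun u => T (x ++ u))) - eps ≤ μ F

lemma exists_Emb {κ : ℕ} (hκ : 0 < κ) {n : ℕ} (hn : 0 < n) {eps : ℝ} (heps : 0 < eps) :
    ∃ (N : ℕ) (μ : ((List ℕ → List ℕ) → ℝ) → ℝ), 0 < N ∧ Emb κ n N eps μ := by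
  obtain ⟨N, μ, h1, h2, h3, h4⟩ := exists_emb hκ hn heps
  exact ⟨N, μ, h1, h2, h3, h4⟩

/-- the set `D` of Lemma 10 -/
def DD (k : ℕ) (E : Set (List ℕ)) (T : List ℕ → List ℕ) (v : List ℕ) : Prop :=
  T [] ∈ E ∧ ∀ a < k, T (sub k v a) ∈ E

/-- The choice of one word. -/
lemma choose_word {k : ℕ} (hk : 0 < k) {h : ℕ} (hh : 0 < h) {d : ℝ} (hd : 0 < d)
    (hD : DCS k (d / 2) h) {n N : ℕ} {eps : ℝ} {μ : ((List ℕ → List ℕ) → ℝ) → ℝ}
    (hμ : Emb (k + 1) n N eps μ) (heps : eps ≤ d / 2 / (lines k h).card / 2)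
    {E : Set (List ℕ)} (hE : d ≤ FW (k + 1) N (fun x => ind (x ∈ E)) - eps) {s B : ℕ}
    {W : List ℕ → List ℕ} (hW : ∀ z, Wd (k + 1) s z → Lt (k + 1) (W z) ∧ (W z).length ≤ B)
    (hn : (2 * h + 1) * B < n) :
    ∃ g : List ℕ, Lt (k + 1) g ∧ g.length ≤ h * B ∧
      d / 2 / (lines k h).card / 2 / (lines k h).card ≤
        Ex (k + 1) s (fun z => μ (fun T => ind (DD k E T (W z ++ g)))) := by
  classical
  set Lam : ℝ := ((lines k h).card : ℝ) with hLam
  set eta : ℝ := d / 2 / Lam with heta
  have hκ : 0 < k + 1 := by omega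
  -- the claim for one tuple
  have h1 : ∀ Z, Wd (k + 1) (s * h) Z → ∃ p ∈ lines k h, eta / 2 ≤ μ (fun T => ind (DD k E T
      (W ((Z.drop (s * p.1.length)).take s) ++
        eW k s W (Z.drop (s * (p.1.length + 1))) p.2))) := by
    intro Z hZ
    obtain ⟨p, hp, h2⟩ := dcs_random hk hμ.mean hd hh hD (fun T => {t | T (eW k s W Z t) ∈ E})
      (by
        intro z hz
        refine hE.trans (hμ.dens E (eW k s W Z z) ?_)
        have h3 := eW_bd hW (j := h) (Lt.mono (κ := k) (κ' := k + 1) hz.2 (by omega)) hz.1.le hZ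
        refine ⟨lt_of_le_of_lt h3.2 (lt_of_le_of_lt ?_ hn), h3.1⟩
        have := hz.1
        exact Nat.mul_le_mul_right _ (by omega))
    refine ⟨p, hp, ?_⟩
    obtain ⟨x, v⟩ := p
    obtain ⟨hx, hv, hxv⟩ := mem_lines.1 hp
    dsimp only at h2 ⊢
    set w : List ℕ := W ((Z.drop (s * x.length)).take s) ++
      eW k s W (Z.drop (s * (x.length + 1))) v with hw
    have hX := eW_bd hW (j := h) (Lt.mono (κ := k) (κ' := k + 1) hx (by omega)) (by omega) hZ
    have e3 : s * h = s * x.length + (s + s * (h - x.length - 1)) := by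
      obtain ⟨q, hq⟩ : ∃ q, h = x.length + 1 + q := ⟨h - (x.length + 1), by omega⟩
      rw [show h - x.length - 1 = q by omega]
      rw [hq]; ring
    have hZ1 : Wd (k + 1) (s + s * (h - x.length - 1)) (Z.drop (s * x.length)) := by
      have := hZ.drop (m := s * x.length)
      rwa [e3, Nat.add_sub_cancel_left] at this
    have hZ2 : Wd (k + 1) (s * (h - x.length - 1)) (Z.drop (s * (x.length + 1))) := by
      have := hZ1.drop (m := s)
      rwa [Nat.add_sub_cancel_left, List.drop_drop, show s * x.length + s = s * (x.length + 1) by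
        ring] at this
    have hw1 := hW _ (hZ1.take (m := s) (by omega))
    have hw2 := eW_bd hW (j := h - x.length - 1) hv (by omega) hZ2
    have hwlen : w.length ≤ B + v.length * B := by
      rw [hw, List.length_append]
      omega
    -- the event
    have h4 : ∀ T : List ℕ → List ℕ, Line k x v {t | T (eW k s W Z t) ∈ E} ↔
        DD k E (fun u => T (eW k s W Z x ++ u)) w := by
      intro T
      unfold Line DD
      simp only [Set.mem_ofPred_eq, List.append_nil]
      refine and_congr Iff.rfl (forall_congr' fun a => imp_congr Iff.rfl ?_)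
      have h5 : eW k s W Z (x ++ a :: sub k v a) = eW k s W Z x ++ sub k w a := by
        rw [eW_append, eW_cons, hw, sub_append, sub_eW, List.drop_drop,
          show s * x.length + s = s * (x.length + 1) by ring]
      rw [h5]
    simp only [h4] at h2
    have h6 := hμ.shift (fun T => ind (DD k E T w)) (eW k s W Z x)
      (fun T => ⟨ind_nonneg _, ind_le_one _⟩) hX.1 (by
        refine lt_of_le_of_lt hX.2 (lt_of_le_of_lt ?_ hn)
        exact Nat.mul_le_mul_right _ (by omega)) (by
        intro T T' hT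
        have h7 : (eW k s W Z x).length + w.length < n := by
          refine lt_of_le_of_lt (Nat.add_le_add hX.2 hwlen) (lt_of_le_of_lt ?_ hn)
          calc x.length * B + (B + v.length * B) = (x.length + 1 + v.length) * B := by ring
            _ ≤ (2 * h + 1) * B := Nat.mul_le_mul_right _ (by omega)
        refine ind_congr ?_
        unfold DD
        rw [hT [] (by simp; omega)]
        refine and_congr Iff.rfl (forall_congr' fun a => imp_congr Iff.rfl ?_)
        rw [hT (sub k w a) (by rw [length_sub]; omega)])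
    have h8 : eta ≤ μ (fun T => ind (DD k E (fun u => T (eW k s W Z x ++ u)) w)) := h2
    linarith
  -- pigeonhole
  have hL0 : (0 : ℝ) ≤ Lam := Nat.cast_nonneg _
  set Ps : List ℕ × List ℕ → List ℕ → Prop := fun p Z => eta / 2 ≤ μ (fun T => ind (DD k E T
      (W ((Z.drop (s * p.1.length)).take s) ++
        eW k s W (Z.drop (s * (p.1.length + 1))) p.2))) with hPs
  have h9 : (1 : ℝ) ≤ ∑ p ∈ lines k h, Ex (k + 1) (s * h) (fun Z => ind (Ps p Z)) := by
    rw [← (isMean_Ex hκ _).sum]
    refine (isMean_Ex hκ _).ge_of fun Z hZ => ?_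
    obtain ⟨p, hp, h10⟩ := h1 Z hZ
    refine le_trans (le_of_eq ?_) (Finset.single_le_sum (fun p _ => ind_nonneg _) hp)
    exact (ind_true h10).symm
  have hne : (lines k h).Nonempty := by
    by_contra hcon
    rw [Finset.not_nonempty_iff_eq_empty] at hcon
    rw [hcon, Finset.sum_empty] at h9
    linarith
  have hL1 : (0 : ℝ) < Lam := by
    rw [hLam]
    exact_mod_cast Finset.card_pos.2 hne
  obtain ⟨p, hp, h10⟩ := Finset.exists_le_of_sum_le (s := lines k h)
    (f := fun _ => 1 / Lam) (g := fun p => Ex (k + 1) (s * h) (fun Z => ind (Ps p Z))) hne (by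
      rw [Finset.sum_const, nsmul_eq_mul, mul_one_div, div_self hL1.ne']
      exact h9)
  obtain ⟨x, v⟩ := p
  obtain ⟨hx, hv, hxv⟩ := mem_lines.1 hp
  obtain ⟨q, hq⟩ : ∃ q, h = x.length + 1 + q := ⟨h - (x.length + 1), by omega⟩
  have e3 : s * h = s * x.length + (s + s * q) := by rw [hq]; ring
  have h11 : Ex (k + 1) (s * h) (fun Z => ind (Ps (x, v) Z)) =
      Ex (k + 1) s (fun z => Ex (k + 1) (s * q) (fun Z2 => ind (eta / 2 ≤ μ (fun T =>
        ind (DD k E T (W z ++ eW k s W Z2 v)))))) := by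
    rw [e3, Ex_add]
    rw [← (isMean_Ex hκ (s * x.length)).const (Ex (k + 1) s (fun z => Ex (k + 1) (s * q)
      (fun Z2 => ind (eta / 2 ≤ μ (fun T => ind (DD k E T (W z ++ eW k s W Z2 v)))))))]
    refine (isMean_Ex hκ _).congr fun Z1 hZ1 => ?_
    rw [Ex_add]
    refine (isMean_Ex hκ _).congr fun z hz => ?_
    refine (isMean_Ex hκ _).congr fun Z2 _ => ?_
    have e4 : (Z1 ++ (z ++ Z2)).drop (s * x.length) = z ++ Z2 := by
      rw [← hZ1.1, List.drop_left']
      rfl
    have e5 : (Z1 ++ (z ++ Z2)).drop (s * (x.length + 1)) = Z2 := by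
      rw [show s * (x.length + 1) = s * x.length + s by ring, ← List.drop_drop, e4, ← hz.1,
        List.drop_left']
      rfl
    have e6 : (z ++ Z2).take s = z := by
      rw [← hz.1, List.take_left']
      rfl
    rw [hPs]
    dsimp only
    rw [e4, e5, e6]
  rw [h11, (isMean_Ex hκ _).Ex_comm] at h10
  obtain ⟨Z2, hZ2, h12⟩ := (isMean_Ex hκ _).ex_ge h10
  have hg := eW_bd hW (j := q) hv (by omega) hZ2
  refine ⟨eW k s W Z2 v, hg.1, hg.2.trans (Nat.mul_le_mul_right _ (by omega)), ?_⟩
  have h13 : eta / 2 / Lam ≤ Ex (k + 1) s (fun z => eta / 2 * ind (eta / 2 ≤ μ (fun T =>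
        ind (DD k E T (W z ++ eW k s W Z2 v))))) := by
    rw [(isMean_Ex hκ _).smul]
    have heta0 : 0 < eta / 2 := by positivity
    calc eta / 2 / Lam = eta / 2 * (1 / Lam) := by ring
      _ ≤ _ := by gcongr
  refine h13.trans ((isMean_Ex hκ _).mono fun z _ => ?_)
  have h14 : 0 ≤ μ (fun T => ind (DD k E T (W z ++ eW k s W Z2 v))) :=
    hμ.mean.nonneg fun _ _ => ind_nonneg _
  by_cases h15 : eta / 2 ≤ μ (fun T => ind (DD k E T (W z ++ eW k s W Z2 v)))
  · rw [ind_true h15, mul_one]
    exact h15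
  · rw [ind_false h15, mul_zero]
    exact h14

/-- The choice of all words. -/
lemma choose_words {k : ℕ} (hk : 0 < k) {h : ℕ} (hh : 0 < h) {d : ℝ} (hd : 0 < d)
    (hD : DCS k (d / 2) h) {n N : ℕ} {eps : ℝ} {μ : ((List ℕ → List ℕ) → ℝ) → ℝ}
    (hμ : Emb (k + 1) n N eps μ) (heps : eps ≤ d / 2 / (lines k h).card / 2)
    {E : Set (List ℕ)} (hE : d ≤ FW (k + 1) N (fun x => ind (x ∈ E)) - eps) {m : ℕ}
    (hn : (2 * h + 1) * Len h m < n) :
    ∃ g : ℕ → List ℕ, (∀ i, Lt (k + 1) (g i)) ∧ (∀ i, (g i).length ≤ h * Len h i) ∧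
      ∀ s ≤ m, d / 2 / (lines k h).card / 2 / (lines k h).card ≤
        Ex (k + 1) s (fun z => μ (fun T => ind (DD k E T (TT k g z)))) := by
  have key : ∀ M ≤ m + 1, ∃ g : ℕ → List ℕ, (∀ i, Lt (k + 1) (g i)) ∧
      (∀ i, (g i).length ≤ h * Len h i) ∧ (∀ i, M ≤ i → g i = []) ∧
      ∀ s < M, d / 2 / (lines k h).card / 2 / (lines k h).card ≤
        Ex (k + 1) s (fun z => μ (fun T => ind (DD k E T (TT k g z)))) := by
    intro M
    induction M with
    | zero =>
      intro _
      exact ⟨fun _ => [], fun _ => Lt.nil _, fun _ => by simp, fun _ _ => rfl, fun s hs => by omega⟩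
    | succ M ih =>
      intro hM
      obtain ⟨g, hg1, hg2, hg3, hg4⟩ := ih (by omega)
      have hW : ∀ z, Wd (k + 1) M z →
          Lt (k + 1) (TT k g z) ∧ (TT k g z).length ≤ Len h M := by
        intro z hz
        refine ⟨lt_TT hg1 hz.2, ?_⟩
        have h1 := length_TT' (k := k) hg2 z (hg3 _ (by rw [hz.1]))
        rwa [hz.1] at h1
      obtain ⟨w, hw1, hw2, hw3⟩ := choose_word hk hh hd hD hμ heps hE hW
        (lt_of_le_of_lt (Nat.mul_le_mul_left _ (Len_mono h (by omega))) hn)
      set g' : ℕ → List ℕ := Function.update g M w with hg'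
      have e1 : ∀ i, i ≠ M → g' i = g i := fun i hi => Function.update_of_ne hi _ _
      have e2 : g' M = w := Function.update_self _ _ _
      refine ⟨g', fun i => ?_, fun i => ?_, fun i hi => ?_, fun s hs => ?_⟩
      · by_cases hi : i = M
        · rw [hi, e2]; exact hw1
        · rw [e1 i hi]; exact hg1 i
      · by_cases hi : i = M
        · rw [hi, e2]; exact hw2
        · rw [e1 i hi]; exact hg2 i
      · rw [e1 i (by omega)]
        exact hg3 i (by omega)
      · rcases Nat.lt_succ_iff_lt_or_eq.1 hs with h1 | h1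
        · refine (hg4 s h1).trans (le_of_eq ?_)
          refine (isMean_Ex (by omega) s).congr fun z hz => ?_
          rw [TT_congr (g := g) (g' := g') (fun i hi => (e1 i (by have := hz.1; omega)).symm)]
        · subst h1
          refine hw3.trans (le_of_eq ?_)
          refine (isMean_Ex (by omega) s).congr fun z hz => ?_
          have e3 : TT k g' z = TT k g z ++ w := by
            have hz1 : z.length = s := hz.1
            rcases List.eq_nil_or_concat z with h0 | ⟨z1, c1, h0⟩
            · subst h0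
              rw [List.length_nil] at hz1
              subst hz1
              rw [TT_eq, TT_eq, e2, hg3 0 le_rfl, UU_nil, UU_nil]
              simp
            · rw [List.concat_eq_append] at h0
              subst h0
              rw [List.length_append, List.length_singleton] at hz1
              rw [TT_concat, TT_concat, hz1, e2, hg3 s le_rfl,
                TT_congr (g := g') (g' := g) (fun i hi => e1 i (by omega))]
              simp
          rw [e3]
  obtain ⟨g, hg1, hg2, -, hg4⟩ := key (m + 1) le_rfl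
  exact ⟨g, hg1, hg2, fun s hs => hg4 s (by omega)⟩

end Pool.Agent.OVW.BN
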